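import Pool.Agent.TH826.MK.Bound
set_option autoImplicit false

/-!
The values of the regulator pairing on the symbols of the hypersurface.
-/

namespace Pool.Agent.TH826.MK

open MeasureTheory Set

variable {d : ℕ}

theorem lw_prod {ι : Type*} [DecidableEq ι] (s : Finset ι) {F : ι → (Fin d → ℝ) → ℂ}
    (hF : ∀ j, Good (F j)) (i : Fin d) (θ : Fin d → ℝ) :
    lw (fun θ => ∏ j ∈ s, F j θ) i θ = ∑ j ∈ s, lw (F j) i θ := by
  induction s using Finset.induction_on with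
  | empty =>
    unfold lw
    simp
  | insert j s hj ih =>
    simp only [Finset.prod_insert hj]
    rw [lw_mul (hF j) (good_prod s hF), ih, Finset.sum_insert hj]

theorem lw_const (c : ℂ) (i : Fin d) (θ : Fin d → ℝ) : lw (fun _ => c) i θ = 0 := by
  unfold lw
  simp

variable {K : Type*} [Field K] {r : Fin d → ℕ} {σ : K →+* ℂ} {D : Data K r} {R N : Fin d → ℝ}

/-- `Φ` on the torus -/
noncomputable def PhiT (σ : K →+* ℂ) (D : Data K r) (R : Fin d → ℝ)
    (θ : Fin d → ℝ) : ℂ := PhiC σ D (tpt R θ)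

theorem PhiT_eq (θ : Fin d → ℝ) : PhiT σ D R θ =
    σ D.lam * ∏ k, ∏ i, (circ (R k) (θ k) - σ (D.a k i)) := rfl

section far

variable (hfar : ∀ k i, Far (R k) (N k) (σ (D.a k i)))
include hfar

theorem good_lin (k : Fin d) (i : Fin (r k + 1)) :
    Good fun θ : Fin d → ℝ => circ (R k) (θ k) - σ (D.a k i) := (hfar k i).one.good k

theorem good_inner (k : Fin d) :
    Good fun θ : Fin d → ℝ => ∏ i, (circ (R k) (θ k) - σ (D.a k i)) :=
  good_prod Finset.univ fun i => good_lin hfar k i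

theorem good_PhiT (hl : σ D.lam ≠ 0) : Good (PhiT σ D R) :=
  (good_const hl).mul (good_prod Finset.univ fun k => good_inner hfar k)

theorem lw_PhiT (hl : σ D.lam ≠ 0) (j : Fin d) (θ : Fin d → ℝ) : lw (PhiT σ D R) j θ =
    ∑ i, deriv (fun s => circ (R j) s - σ (D.a j i)) (θ j) / (circ (R j) (θ j) - σ (D.a j i)) := by
  have e : PhiT σ D R = fun θ => σ D.lam * ∏ k, ∏ i, (circ (R k) (θ k) - σ (D.a k i)) := rfl
  rw [e, lw_mul (good_const hl) (good_prod Finset.univ fun k => good_inner hfar k), lw_const,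
    zero_add, lw_prod Finset.univ fun k => good_inner hfar k, Finset.sum_eq_single j]
  · rw [lw_prod Finset.univ fun i => good_lin hfar j i]
    refine Finset.sum_congr rfl fun i _ => ?_
    exact lw_vf_self (hfar j i).one.smooth j θ
  · intro k _ hk
    rw [lw_prod Finset.univ fun i => good_lin hfar k i]
    refine Finset.sum_eq_zero fun i _ => ?_
    exact lw_vf_ne (hfar k i).one.smooth (Ne.symm hk) θ
  · simp

theorem norm_lw_PhiT (hl : σ D.lam ≠ 0) (j : Fin d) (θ : Fin d → ℝ) :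
    ‖lw (PhiT σ D R) j θ‖ ≤ (r j + 1) * (4 * Real.pi) := by
  rw [lw_PhiT hfar hl]
  refine (norm_sum_le _ _).trans ?_
  refine (Finset.sum_le_card_nsmul _ _ _ fun i _ => (hfar j i).norm_ld (θ j)).trans ?_
  rw [Finset.card_univ, Fintype.card_fin, nsmul_eq_mul]
  push_cast
  exact le_refl _

theorem norm_PhiT_ge (hl : 1 ≤ ‖σ D.lam‖) (hN : ∀ k, 2 * R k ≤ ‖σ (D.a k (Fin.last _))‖)
    (θ : Fin d → ℝ) : ∏ k, (‖σ (D.a k (Fin.last _))‖ / 2) ≤ ‖PhiT σ D R θ‖ := by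
  rw [PhiT_eq, norm_mul, norm_prod]
  have h1 : ∏ k, (‖σ (D.a k (Fin.last _))‖ / 2) ≤
      ∏ k, ‖∏ i, (circ (R k) (θ k) - σ (D.a k i))‖ := by
    refine Finset.prod_le_prod (fun k _ => by positivity) fun k _ => ?_
    rw [norm_prod, Fin.prod_univ_castSucc]
    have h2 : 1 ≤ ∏ i : Fin (r k), ‖circ (R k) (θ k) - σ (D.a k i.castSucc)‖ :=
      Finset.one_le_prod fun i _ => (hfar k _).one_le _
    have h3 : ‖σ (D.a k (Fin.last _))‖ / 2 ≤ ‖circ (R k) (θ k) - σ (D.a k (Fin.last _))‖ := by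
      have := norm_sub_norm_le (σ (D.a k (Fin.last _))) (circ (R k) (θ k))
      rw [norm_circ (hfar k 0).pos.le, norm_sub_rev] at this
      linarith [hN k]
    calc ‖σ (D.a k (Fin.last _))‖ / 2 ≤ 1 * ‖circ (R k) (θ k) - σ (D.a k (Fin.last _))‖ := by
          rw [one_mul]; exact h3
      _ ≤ _ := mul_le_mul_of_nonneg_right h2 (norm_nonneg _)
  calc _ ≤ 1 * ∏ k, ‖∏ i, (circ (R k) (θ k) - σ (D.a k i))‖ := by rw [one_mul]; exact h1
    _ ≤ _ := mul_le_mul_of_nonneg_right hl (Finset.prod_nonneg fun k _ => norm_nonneg _)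

/-- `(1 + √(1 - 4/Φ²))/2` on the torus -/
theorem good_hsT (hl : σ D.lam ≠ 0) (h4 : ∀ θ, 4 ≤ ‖PhiT σ D R θ‖) :
    Good fun θ => hs (PhiT σ D R θ) := by
  refine ⟨?_, fun θ => ?_⟩
  · rw [contDiff_iff_contDiffAt]
    intro θ
    exact ((contDiffAt_hs (by linarith [h4 θ])).restrict_scalars ℝ).comp θ
      (good_PhiT hfar hl).smooth.contDiffAt
  · unfold hs
    refine div_ne_zero ?_ two_ne_zero
    intro h
    have := norm_one_add_sq_ge (h4 θ)
    rw [h, norm_zero] at this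
    linarith

theorem lw_hsT (hl : σ D.lam ≠ 0) (h4 : ∀ θ, 4 ≤ ‖PhiT σ D R θ‖) (j : Fin d)
    (θ : Fin d → ℝ) : lw (fun θ => hs (PhiT σ D R θ)) j θ =
      4 / (PhiT σ D R θ ^ 2 * (sq (PhiT σ D R θ) * (1 + sq (PhiT σ D R θ)))) *
        lw (PhiT σ D R) j θ := by
  have h1 : HasFDerivAt (PhiT σ D R) (fderiv ℝ (PhiT σ D R) θ) θ :=
    (((good_PhiT hfar hl).smooth.differentiable (by norm_num)) θ).hasFDerivAt
  have h2 := (hasDerivAt_hs (h4 θ)).comp_hasFDerivAt θ h1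
  have h3 : fderiv ℝ (fun θ => hs (PhiT σ D R θ)) θ = _ := h2.fderiv
  have h5 := (good_hsT hfar hl h4).ne_zero θ
  have h6 := (good_PhiT hfar hl).ne_zero θ
  have h7 : sq (PhiT σ D R θ) ≠ 0 := Complex.exp_ne_zero _
  have h8 : 1 + sq (PhiT σ D R θ) ≠ 0 := by
    intro h
    have := norm_one_add_sq_ge (h4 θ)
    rw [h, norm_zero] at this
    linarith
  have h9 : hs (PhiT σ D R θ) ≠ 0 := h5
  unfold lw
  rw [h3]
  simp only [smul_apply, smul_eq_mul]
  field_simp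

theorem norm_grow_hsT (hl : 1 ≤ ‖σ D.lam‖) {P ρ : ℝ} (hP : 4 ≤ P)
    (h4 : ∀ θ, P ≤ ‖PhiT σ D R θ‖) (hρ : ∀ k, (r k : ℝ) + 1 ≤ ρ) (hρ1 : 1 ≤ ρ)
    {y : Fin (d + 1) → ℝ} (hy : y ∈ Icc (0 : Fin (d + 1) → ℝ) 1) (j : Fin (d + 1)) :
    ‖grow (fun θ => hs (PhiT σ D R θ)) y j‖ ≤ 32 * Real.pi * ρ / P ^ 2 := by
  have hl0 : σ D.lam ≠ 0 := by
    intro h
    rw [h, norm_zero] at hl
    linarith
  have h4' : ∀ θ, 4 ≤ ‖PhiT σ D R θ‖ := fun θ => hP.trans (h4 θ)
  have hpi := Real.pi_gt_three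
  have hP0 : 0 < P := by linarith
  refine norm_grow_le hy ?_ (fun j => ?_) j
  · refine (abs_log_norm_hs (h4' _)).trans ?_
    calc 6 / ‖PhiT σ D R (tl d y)‖ ^ 2 ≤ 6 / P ^ 2 := by
          refine div_le_div_of_nonneg_left (by norm_num) (by positivity) ?_
          exact pow_le_pow_left₀ hP0.le (h4 _) 2
      _ ≤ _ := by
          refine div_le_div_of_nonneg_right ?_ (by positivity)
          nlinarith
  · rw [lw_hsT hfar hl0 h4', norm_mul, norm_div, norm_mul, norm_mul, norm_pow,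
      Complex.norm_ofNat]
    set w := PhiT σ D R (tl d y) with hw
    have h5 : 1 ≤ ‖sq w‖ * ‖1 + sq w‖ := by
      have h6 := norm_sq_ge (h4' (tl d y))
      have h7 := norm_one_add_sq_ge (h4' (tl d y))
      rw [← hw] at h6 h7
      nlinarith
    have h8 := norm_lw_PhiT hfar hl0 j (tl d y)
    have h9 : P ^ 2 ≤ ‖w‖ ^ 2 * (‖sq w‖ * ‖1 + sq w‖) := by
      calc P ^ 2 ≤ ‖w‖ ^ 2 := pow_le_pow_left₀ hP0.le (h4 _) 2
        _ = ‖w‖ ^ 2 * 1 := (mul_one _).symm
        _ ≤ _ := mul_le_mul_of_nonneg_left h5 (by positivity)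
    have h10 : 4 / (‖w‖ ^ 2 * (‖sq w‖ * ‖1 + sq w‖)) ≤ 4 / P ^ 2 :=
      div_le_div_of_nonneg_left (by norm_num) (by positivity) h9
    have h11 : ‖lw (PhiT σ D R) j (tl d y)‖ ≤ ρ * (4 * Real.pi) :=
      h8.trans (mul_le_mul_of_nonneg_right (hρ j) (by positivity))
    have h12 : 4 / (‖w‖ ^ 2 * (‖sq w‖ * ‖1 + sq w‖)) * ‖lw (PhiT σ D R) j (tl d y)‖ ≤
        4 / P ^ 2 * (ρ * (4 * Real.pi)) :=
      mul_le_mul h10 h11 (norm_nonneg _) (by positivity)
    calc _ ≤ 2 * (4 / P ^ 2 * (ρ * (4 * Real.pi))) := by linarith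
      _ = _ := by ring

theorem goodPt (h4 : ∀ θ, 4 ≤ ‖PhiT σ D R θ‖) (θ : Fin d → ℝ) :
    GoodPt σ D (tpt R θ) where
  ne k i := circ_sub_ne_zero (hfar k i).pos (hfar k i).ne (θ k)
  lt := by
    have := h4 θ
    unfold PhiT at this
    linarith

end far

section value

/-- the function `u_k` on the circle -/
noncomputable def U (σ : K →+* ℂ) (D : Data K r) (R : Fin d → ℝ)
    (i : ∀ k, Fin (r k)) (k : Fin d) (s : ℝ) : ℂ :=
  (circ (R k) s - σ (D.a k (i k).castSucc)) / (circ (R k) s - σ (D.a k (i k).succ))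

/-- its winding number -/
noncomputable def wU (σ : K →+* ℂ) (D : Data K r) (R : Fin d → ℝ)
    (i : ∀ k, Fin (r k)) (k : Fin d) : ℝ :=
  wd (R k) (σ (D.a k (i k).castSucc)) - wd (R k) (σ (D.a k (i k).succ))

/-- the one-dimensional regulator `∑_j ⟨x - α_j, u_i⟩` -/
noncomputable def Gm {n : ℕ} (α : Fin (n + 1) → ℂ) (R : ℝ) (i : Fin n) : ℝ :=
  ∑ j, (Real.log ‖α j - α i.castSucc‖ * (wd R (α i.castSucc) - wd R (α j)) -
    Real.log ‖α j - α i.succ‖ * (wd R (α i.succ) - wd R (α j)))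

variable (hfar : ∀ k i, Far (R k) (N k) (σ (D.a k i)))
include hfar

theorem one_U (i : ∀ k, Fin (r k)) (k : Fin d) : One (U σ D R i k) (wU σ D R i k) :=
  (hfar k _).one.div (hfar k _).one

theorem pairing_factor (i : ∀ k, Fin (r k)) (k : Fin d) (j : Fin (r k + 1)) :
    pairing (Fin.cons (fun θ => circ (R k) (θ k) - σ (D.a k j)) (vf (U σ D R i))) =
      (2 * Real.pi) ^ d * (∏ l ∈ Finset.univ.erase k, wU σ D R i l) *
        (Real.log ‖σ (D.a k j) - σ (D.a k (i k).castSucc)‖ *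
          (wd (R k) (σ (D.a k (i k).castSucc)) - wd (R k) (σ (D.a k j))) -
        Real.log ‖σ (D.a k j) - σ (D.a k (i k).succ)‖ *
          (wd (R k) (σ (D.a k (i k).succ)) - wd (R k) (σ (D.a k j)))) :=
  pairing_lin_div (hfar k j).pos (hfar k j).ne (hfar k _).ne (hfar k _).ne
    (fun l => one_U hfar i l) k rfl

theorem pair_eq (hl : σ D.lam ≠ 0) (h4 : ∀ θ, 4 ≤ ‖PhiT σ D R θ‖)
    (hx : ∀ θ, GoodPt σ D (tpt R θ)) (i : ∀ k, Fin (r k)) :
    (mkTorus R hx).pair (ent D i) =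
      (2 * Real.pi) ^ d * (Real.log ‖σ D.lam‖ * (∏ l, wU σ D R i l) +
        ∑ k, (∏ l ∈ Finset.univ.erase k, wU σ D R i l) * Gm (fun j => σ (D.a k j)) (R k) (i k)) +
      pairing (Fin.cons (fun θ => hs (PhiT σ D R θ)) (vf (U σ D R i))) := by
  have e1 : (fun l => (mkTorus R hx).fn ((ent D i l : (ORing D)ˣ) : ORing D)) =
      (Fin.cons (fun θ => PhiT σ D R θ * hs (PhiT σ D R θ)) (vf (U σ D R i)) :
        Fin (d + 1) → (Fin d → ℝ) → ℂ) := by
    funext l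
    refine Fin.cases ?_ (fun l => ?_) l
    · exact mkTorus_uz R hx
    · rw [Fin.cons_succ]
      have h1 : ent D i l.succ = ux D l (i l).castSucc / ux D l (i l).succ := rfl
      have h2 : (mkTorus R hx).fn ((ux D l (i l).castSucc / ux D l (i l).succ :
          (ORing D)ˣ) : ORing D) = fun θ =>
          (mkTorus R hx).fn (ux D l (i l).castSucc : ORing D) θ /
          (mkTorus R hx).fn (ux D l (i l).succ : ORing D) θ := by
        funext θ
        have h3 := ((mkTorus R hx).good (ux D l (i l).succ)).ne_zero θ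
        rw [eq_div_iff h3]
        unfold Torus.fn
        rw [← map_mul, ← Units.val_mul, div_mul_cancel]
      rw [h1, h2, mkTorus_ux, mkTorus_ux]
      rfl
  have hv : ∀ l, Good (vf (U σ D R i) l) := fun l => (one_U hfar i l).good l
  have hP := good_prod Finset.univ fun k => good_inner hfar k
  unfold Torus.pair
  rw [e1, pairing_cons_mul (good_PhiT hfar hl) (good_hsT hfar hl h4) hv]
  congr 1
  have e2 : (PhiT σ D R) = fun θ => σ D.lam *
      ∏ k, ∏ i, (circ (R k) (θ k) - σ (D.a k i)) := rfl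
  rw [e2, pairing_cons_mul (good_const hl) hP hv,
    pairing_const _ _ _ (fun l => one_U hfar i l),
    pairing_prod Finset.univ (fun k => good_inner hfar k) (fun l => one_U hfar i l)]
  have e3 : ∀ k, pairing (Fin.cons (fun θ => ∏ i, (circ (R k) (θ k) - σ (D.a k i)))
      (vf (U σ D R i))) = (2 * Real.pi) ^ d * ((∏ l ∈ Finset.univ.erase k, wU σ D R i l) *
        Gm (fun j => σ (D.a k j)) (R k) (i k)) := by
    intro k
    rw [pairing_prod Finset.univ (fun i => good_lin hfar k i) (fun l => one_U hfar i l)]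
    simp only [pairing_factor hfar]
    unfold Gm
    rw [← Finset.mul_sum]
    ring
  simp only [e3]
  rw [← Finset.mul_sum]
  ring

theorem abs_error_le (hl : 1 ≤ ‖σ D.lam‖) {P ρ : ℝ} (hP : 4 ≤ P)
    (h4 : ∀ θ, P ≤ ‖PhiT σ D R θ‖) (hρ : ∀ k, (r k : ℝ) + 1 ≤ ρ) (hρ1 : 1 ≤ ρ)
    (hRN : ∀ k, R k ≤ N k) (i : ∀ k, Fin (r k)) :
    |pairing (Fin.cons (fun θ => hs (PhiT σ D R θ)) (vf (U σ D R i)))| ≤
      (d + 1).factorial * (32 * Real.pi * ρ / P ^ 2 * ∏ k, (16 * Real.pi * N k)) :=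
  abs_pairing_le (fun _ hy j => norm_grow_hsT hfar hl hP h4 hρ hρ1 hy j)
    fun l _ hy j => norm_grow_div (hfar l _) (hfar l _) (hRN l) l hy j

end value

end Pool.Agent.TH826.MK
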