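import Pool.Agent.TH826.MK.Milnor
set_option autoImplicit false

/-!
The hypersurfaces `z + 1/z = λ ∏_k ∏_i (x_k - a_{k,i})` and the symbols on them.
-/

namespace Pool.Agent.TH826.MK

open scoped WithZero

/-- The coefficients `λ` and `a_{k,i}`, `0 ≤ i ≤ r_k`. -/
structure Data (K : Type*) {d : ℕ} (r : Fin d → ℕ) where
  lam : K
  a : ∀ k, Fin (r k + 1) → K

section Ring

variable {K : Type*} [Field K] {d : ℕ} {r : Fin d → ℕ} (D : Data K r)

/-- The coefficients are algebraic integers. -/
def Data.Integral : Prop := IsIntegral ℤ D.lam ∧ ∀ k i, IsIntegral ℤ (D.a k i)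

/-- `|σ λ| ≥ 1`, `|σ a_{k,0}| ≥ c`, `|σ a_{k,i+1}| ≥ c |σ a_{k,i}|`. -/
def Data.Separated (σ : K →+* ℂ) (c : ℝ) : Prop :=
  1 ≤ ‖σ D.lam‖ ∧ (∀ k, c ≤ ‖σ (D.a k 0)‖) ∧
    ∀ k (i : Fin (r k)), c * ‖σ (D.a k i.castSucc)‖ ≤ ‖σ (D.a k i.succ)‖

/-- The polynomial `Φ = λ ∏_k ∏_i (x_k - a_{k,i})`. -/
noncomputable def Phi : MvPolynomial (Fin d) K :=
  MvPolynomial.C D.lam * ∏ k, ∏ i, (MvPolynomial.X k - MvPolynomial.C (D.a k i))

/-- The polynomial `z² - Φ z + 1`. -/
noncomputable def eqn : Polynomial (MvPolynomial (Fin d) K) :=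
  Polynomial.X ^ 2 - Polynomial.C (Phi D) * Polynomial.X + 1

/-- The coordinate ring of the hypersurface `z² - Φ z + 1 = 0` in the affine space with
coordinates `x_1, ..., x_d, z`. -/
def CRing : Type _ := AdjoinRoot (eqn D)

noncomputable instance : CommRing (CRing D) := AdjoinRoot.instCommRing (eqn D)

/-- The polynomials in `x_1, ..., x_d` as functions on the hypersurface. -/
noncomputable def fpol : MvPolynomial (Fin d) K →+* CRing D := AdjoinRoot.of (eqn D)

/-- The function `x_k - c`. -/
noncomputable def fx (k : Fin d) (c : K) : CRing D := fpol D (MvPolynomial.X k - MvPolynomial.C c)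

/-- The function `z`. -/
noncomputable def fz : CRing D := AdjoinRoot.root (eqn D)

/-- The function `Δ = ∏_k ∏_i (x_k - a_{k,i}) · (z² - 1)`. -/
noncomputable def Del : CRing D := (∏ k, ∏ i, fx D k (D.a k i)) * (fz D ^ 2 - 1)

/-- The polynomial `Δ T - 1`. -/
noncomputable def eqnO : Polynomial (CRing D) := Polynomial.C (Del D) * Polynomial.X - 1

/-- The coordinate ring of the open part `Δ ≠ 0` of the hypersurface: the ring obtained from the
coordinate ring of the hypersurface by adjoining `T` with `Δ T = 1`. -/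
def ORing : Type _ := AdjoinRoot (eqnO D)

noncomputable instance : CommRing (ORing D) := AdjoinRoot.instCommRing (eqnO D)

/-- The restriction of functions to the open part. -/
noncomputable def toO : CRing D →+* ORing D := AdjoinRoot.of (eqnO D)

/-- The constants. -/
noncomputable def cO : K →+* ORing D := (toO D).comp ((fpol D).comp MvPolynomial.C)

theorem fz_eq : fz D ^ 2 - fpol D (Phi D) * fz D + 1 = 0 := by
  have h := AdjoinRoot.mk_self (f := eqn D)
  have h2 : AdjoinRoot.mk (eqn D) (eqn D) = AdjoinRoot.root (eqn D) ^ 2 -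
      AdjoinRoot.of _ (Phi D) * AdjoinRoot.root (eqn D) + 1 := by
    conv_lhs => rw [show AdjoinRoot.mk (eqn D) (eqn D) = AdjoinRoot.mk (eqn D)
      (Polynomial.X ^ 2 - Polynomial.C (Phi D) * Polynomial.X + 1) from rfl]
    rw [map_add, map_sub, map_mul, map_pow, map_one, AdjoinRoot.mk_X, AdjoinRoot.mk_C]
  rw [h2] at h
  exact h

theorem isUnit_del : IsUnit (toO D (Del D)) := by
  have h := AdjoinRoot.mk_self (f := eqnO D)
  have h2 : AdjoinRoot.mk (eqnO D) (eqnO D) = AdjoinRoot.of (eqnO D) (Del D) *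
      AdjoinRoot.root (eqnO D) - 1 := by
    conv_lhs => rw [show AdjoinRoot.mk (eqnO D) (eqnO D) = AdjoinRoot.mk (eqnO D)
      (Polynomial.C (Del D) * Polynomial.X - 1) from rfl]
    rw [map_sub, map_mul, map_one, AdjoinRoot.mk_X, AdjoinRoot.mk_C]
  rw [h2, sub_eq_zero] at h
  exact IsUnit.of_mul_eq_one _ h

theorem isUnit_fx (k : Fin d) (i : Fin (r k + 1)) :
    IsUnit (toO D (fx D k (D.a k i))) := by
  refine isUnit_of_dvd_unit (map_dvd _ ?_) (isUnit_del D)
  refine Dvd.dvd.mul_right ?_ _
  exact (Finset.dvd_prod_of_mem (fun i => fx D k (D.a k i)) (Finset.mem_univ i)).trans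
    (Finset.dvd_prod_of_mem (fun k => ∏ i, fx D k (D.a k i)) (Finset.mem_univ k))

theorem fz_mul : fz D * (fpol D (Phi D) - fz D) = 1 := by
  linear_combination -(fz_eq D)

theorem isUnit_fz : IsUnit (toO D (fz D)) :=
  (IsUnit.of_mul_eq_one _ (fz_mul D)).map _

/-- The unit `x_k - a_{k,i}` of the coordinate ring of the open part. -/
noncomputable def ux (k : Fin d) (i : Fin (r k + 1)) : (ORing D)ˣ := (isUnit_fx D k i).unit

/-- The unit `z` of the coordinate ring of the open part. -/
noncomputable def uz : (ORing D)ˣ := (isUnit_fz D).unit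

theorem coe_ux (k : Fin d) (i : Fin (r k + 1)) :
    (ux D k i : ORing D) = toO D (fx D k (D.a k i)) := rfl

theorem coe_uz : (uz D : ORing D) = toO D (fz D) := rfl

/-- The entries `z, u_1, ..., u_d`, where `u_k = (x_k - a_{k,i_k}) / (x_k - a_{k,i_k+1})`. -/
noncomputable def ent (i : ∀ k, Fin (r k)) : Fin (d + 1) → (ORing D)ˣ :=
  Fin.cons (uz D) fun k => ux D k (i k).castSucc / ux D k (i k).succ

end Ring

section Domain

variable {K : Type*} [Field K] [Infinite K] {d : ℕ} {r : Fin d → ℕ} (D : Data K r)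

omit [Infinite K] in
theorem monic_eqn : (eqn D).Monic := by
  unfold eqn
  monicity!

omit [Infinite K] in
theorem natDegree_eqn : (eqn D).natDegree = 2 := by
  unfold eqn
  compute_degree!

theorem Phi_ne_C (hd : 0 < d) (hl : D.lam ≠ 0) (c : K) : Phi D ≠ MvPolynomial.C c := by
  intro h
  have hev : ∀ x : Fin d → K, D.lam * ∏ k, ∏ i, (x k - D.a k i) = c := by
    intro x
    have := congrArg (MvPolynomial.eval x) h
    simpa [Phi] using this
  have h0 : c = 0 := by
    rw [← hev fun k => D.a k 0]
    have : ∏ k, ∏ i, (D.a k 0 - D.a k i) = 0 := by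
      refine Finset.prod_eq_zero (Finset.mem_univ (⟨0, hd⟩ : Fin d)) ?_
      exact Finset.prod_eq_zero (Finset.mem_univ 0) (sub_self _)
    rw [this, mul_zero]
  have h1 : ∀ k, ∃ x : K, ∀ i, x ≠ D.a k i := by
    classical
    intro k
    obtain ⟨x, hx⟩ := Infinite.exists_notMem_finset (Finset.univ.image (D.a k))
    exact ⟨x, fun i e => hx (by rw [e]; exact Finset.mem_image_of_mem _ (Finset.mem_univ i))⟩
  choose x hx using h1
  have h2 := hev x
  rw [h0] at h2
  rcases mul_eq_zero.1 h2 with h3 | h3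
  · exact hl h3
  · obtain ⟨k, -, hk⟩ := Finset.prod_eq_zero_iff.1 h3
    obtain ⟨i, -, hi⟩ := Finset.prod_eq_zero_iff.1 hk
    exact hx k i (sub_eq_zero.1 hi)

theorem irreducible_eqn (hd : 0 < d) (hl : D.lam ≠ 0) : Irreducible (eqn D) := by
  rw [(monic_eqn D).irreducible_iff_roots_eq_zero_of_degree_le_three
    (by rw [natDegree_eqn]) (by rw [natDegree_eqn]; norm_num)]
  rw [Multiset.eq_zero_iff_forall_notMem]
  intro s hs
  rw [Polynomial.mem_roots (monic_eqn D).ne_zero, Polynomial.IsRoot.def] at hs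
  have hr' : s ^ 2 - Phi D * s + 1 = 0 := by
    simpa [eqn] using hs
  have h2 : s * (Phi D - s) = 1 := by linear_combination -hr'
  have h3 : IsUnit s := IsUnit.of_mul_eq_one _ h2
  have h4 : IsUnit (Phi D - s) := IsUnit.of_mul_eq_one s (by rw [mul_comm]; exact h2)
  obtain ⟨c, -, hc⟩ := MvPolynomial.isUnit_iff_eq_C_of_isReduced.1 h3
  obtain ⟨e, -, he⟩ := MvPolynomial.isUnit_iff_eq_C_of_isReduced.1 h4
  refine Phi_ne_C D hd hl (c + e) ?_
  rw [map_add, ← hc, ← he]
  ring

theorem isDomain_CRing (hd : 0 < d) (hl : D.lam ≠ 0) : IsDomain (CRing D) :=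
  AdjoinRoot.isDomain_of_prime (irreducible_eqn D hd hl).prime

omit [Infinite K] in
theorem of_ne_zero {p : MvPolynomial (Fin d) K} (hp : p ≠ 0) : fpol D p ≠ 0 := by
  intro h
  have h1 : AdjoinRoot.mk (eqn D) (Polynomial.C p) = 0 := h
  rw [AdjoinRoot.mk_eq_zero] at h1
  refine (monic_eqn D).not_dvd_of_natDegree_lt (by simpa using hp) ?_ h1
  rw [natDegree_eqn, Polynomial.natDegree_C]
  norm_num

theorem Del_ne_zero (hd : 0 < d) (hl : D.lam ≠ 0) : Del D ≠ 0 := by
  have := isDomain_CRing D hd hl
  have hfx : ∀ k c, fx D k c ≠ 0 := by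
    intro k c
    refine of_ne_zero D ?_
    intro h
    have h1 := congrArg (MvPolynomial.eval fun _ => c + 1) h
    simp at h1
  have hΦ : ∀ e : K, fpol D (Phi D) ≠ fpol D (MvPolynomial.C e) := by
    intro e h
    rw [← sub_eq_zero, ← map_sub] at h
    exact of_ne_zero D (sub_ne_zero.2 (Phi_ne_C D hd hl e)) h
  unfold Del
  refine mul_ne_zero (Finset.prod_ne_zero_iff.2 fun k _ =>
    Finset.prod_ne_zero_iff.2 fun i _ => hfx k _) ?_
  intro h
  have h1 : (fz D - 1) * (fz D + 1) = 0 := by linear_combination h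
  have h2 := fz_eq D
  rcases mul_eq_zero.1 h1 with h3 | h3
  · refine hΦ 2 ?_
    have h4 : fz D = 1 := sub_eq_zero.1 h3
    rw [h4] at h2
    have h5 : fpol D (MvPolynomial.C (2 : K)) = 2 := by
      rw [map_ofNat, map_ofNat]
    rw [h5]
    linear_combination -h2
  · refine hΦ (-2) ?_
    have h4 : fz D = -1 := eq_neg_of_add_eq_zero_left h3
    rw [h4] at h2
    have h5 : fpol D (MvPolynomial.C (-2 : K)) = -2 := by
      rw [map_neg, map_neg, map_ofNat, map_ofNat]
    rw [h5]
    linear_combination h2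

end Domain

section LiftO

variable {K : Type*} [Field K] {d : ℕ} {r : Fin d → ℕ} (D : Data K r) {S : Type*} [Field S]

/-- The extension of a homomorphism with `Δ ↦ g Δ ≠ 0` to the ring of the open part. -/
noncomputable def liftO (g : CRing D →+* S) (hg : g (Del D) ≠ 0) : ORing D →+* S :=
  AdjoinRoot.lift g (g (Del D))⁻¹ (by
    unfold eqnO
    simp only [Polynomial.eval₂_sub, Polynomial.eval₂_mul, Polynomial.eval₂_X,
      Polynomial.eval₂_C, Polynomial.eval₂_one]
    rw [mul_inv_cancel₀ hg, sub_self])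

theorem liftO_toO (g : CRing D →+* S) (hg : g (Del D) ≠ 0) (b : CRing D) :
    liftO D g hg (toO D b) = g b :=
  AdjoinRoot.lift_of _

theorem liftO_mk (g : CRing D →+* S) (hg : g (Del D) ≠ 0) (p : Polynomial (CRing D)) :
    liftO D g hg (AdjoinRoot.mk (eqnO D) p : AdjoinRoot (eqnO D)) =
      p.eval₂ g (g (Del D))⁻¹ :=
  AdjoinRoot.lift_mk _ p

end LiftO

section Unram

variable {K : Type*} [Field K] {d : ℕ} {r : Fin d → ℕ} (D : Data K r) {L : Type*} [Field L]

theorem val_le_one_of_integral (v : Valuation L ℤᵐ⁰) {x : L} (hx : IsIntegral ℤ x) :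
    v x ≤ 1 := by
  have h1 : IsIntegral v.valuationSubring x := hx.tower_top
  exact (Valuation.valuationSubring.integers v).mem_of_integral h1

variable (f : ORing D →+* L)

/-- the composite map from the coefficient field -/
noncomputable def cst : K →+* L := f.comp (cO D)

/-- the image of `x_k` -/
noncomputable def xL (k : Fin d) : L :=
  f (toO D (fpol D (MvPolynomial.X k)))

/-- the image of `z` -/
noncomputable def zL : L := f (toO D (fz D))

theorem map_fx (k : Fin d) (c : K) :
    f (toO D (fx D k c)) = xL D f k - cst D f c := by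
  unfold fx xL cst
  rw [map_sub, map_sub, map_sub]
  rfl

theorem map_Phi : f (toO D (fpol D (Phi D))) =
    cst D f D.lam * ∏ k, ∏ i, (xL D f k - cst D f (D.a k i)) := by
  unfold Phi xL cst
  simp only [map_mul, map_prod, map_sub]
  rfl

theorem zL_eq : zL D f ^ 2 + 1 =
    (cst D f D.lam * ∏ k, ∏ i, (xL D f k - cst D f (D.a k i))) * zL D f := by
  have h := congrArg (fun b => f (toO D b)) (fz_eq D)
  simp only [map_add, map_sub, map_mul, map_pow, map_one, map_zero] at h
  rw [← map_Phi]
  unfold zL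
  linear_combination h

theorem zL_ne_zero : zL D f ≠ 0 := ((isUnit_fz D).map f).ne_zero

theorem xL_sub_ne_zero (k : Fin d) (i : Fin (r k + 1)) :
    xL D f k - cst D f (D.a k i) ≠ 0 := by
  rw [← map_fx]
  exact ((isUnit_fx D k i).map f).ne_zero

/-- the images of the entries in `L` -/
theorem map_ent_zero (i : ∀ k, Fin (r k)) :
    ((Units.map (f : ORing D →* L) (ent D i 0) : Lˣ) : L) = zL D f := rfl

theorem map_ent_succ (i : ∀ k, Fin (r k)) (k : Fin d) :
    ((Units.map (f : ORing D →* L) (ent D i k.succ) : Lˣ) : L) =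
      (xL D f k - cst D f (D.a k (i k).castSucc)) /
        (xL D f k - cst D f (D.a k (i k).succ)) := by
  have h : ent D i k.succ = ux D k (i k).castSucc / ux D k (i k).succ := rfl
  rw [h, map_div, Units.val_div_eq_div_val, ← map_fx, ← map_fx]
  rfl

/-- The symbols are unramified at all discrete valuations. -/
theorem symb_mem_unitPart (hD : D.Integral) (v : Valuation L ℤᵐ⁰) (i : ∀ k, Fin (r k)) :
    symb (fun l => Units.map (f : ORing D →* L) (ent D i l)) ∈ unitPart v (d + 1) := by
  obtain ⟨hlam, ha⟩ := hD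
  have hc : ∀ c : K, IsIntegral ℤ c → v (cst D f c) ≤ 1 := fun c hc =>
    val_le_one_of_integral v (map_isIntegral_int _ hc)
  by_cases hA : ∃ k, 1 < v (xL D f k)
  · obtain ⟨k, hk⟩ := hA
    refine mem_unitPart_of_oneUnit' v k.succ _ ?_
    rw [map_ent_succ, div_sub_one (xL_sub_ne_zero D f k _), map_div₀]
    have h1 : v (xL D f k - cst D f (D.a k (i k).succ)) = v (xL D f k) :=
      Valuation.map_sub_eq_of_lt_left v ((hc _ (ha k _)).trans_lt hk)
    have h2 : v (xL D f k - cst D f (D.a k (i k).castSucc) -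
        (xL D f k - cst D f (D.a k (i k).succ))) ≤ 1 := by
      have e : xL D f k - cst D f (D.a k (i k).castSucc) -
        (xL D f k - cst D f (D.a k (i k).succ)) =
        cst D f (D.a k (i k).succ) - cst D f (D.a k (i k).castSucc) := by ring
      rw [e]
      exact (v.map_sub _ _).trans (max_le (hc _ (ha k _)) (hc _ (ha k _)))
    rw [h1]
    have h3 : 0 < v (xL D f k) := zero_lt_one.trans hk
    rw [div_lt_one₀ h3]
    exact h2.trans_lt hk
  · push Not at hA
    have hsub : ∀ k c, IsIntegral ℤ c → v (xL D f k - cst D f c) ≤ 1 := fun k c h =>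
      (v.map_sub _ _).trans (max_le (hA k) (hc c h))
    have hPhi : v (cst D f D.lam * ∏ k, ∏ i, (xL D f k - cst D f (D.a k i))) ≤ 1 := by
      rw [map_mul]
      refine mul_le_one' (hc _ hlam) ?_
      rw [map_prod]
      refine Finset.prod_le_one' fun k _ => ?_
      rw [map_prod]
      exact Finset.prod_le_one' fun j _ => hsub k _ (ha k j)
    have hz := zL_eq D f
    have hz0 := zL_ne_zero D f
    set z := zL D f with hzdef
    set P := cst D f D.lam * ∏ k, ∏ i, (xL D f k - cst D f (D.a k i)) with hP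
    have hz1 : v z = 1 := by
      rcases lt_trichotomy (v z) 1 with h | h | h
      · exfalso
        have h1 : v (z ^ 2 + 1) = 1 := by
          rw [add_comm]
          refine Valuation.map_one_add_of_lt v ?_
          rw [map_pow]
          exact pow_lt_one₀ zero_le h (by norm_num)
        rw [hz, map_mul] at h1
        have h2 : v P * v z < 1 := by
          calc v P * v z ≤ 1 * v z := mul_le_mul_left hPhi _
            _ = v z := one_mul _
            _ < 1 := h
        exact h2.ne h1
      · exact h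
      · exfalso
        have h1 : v (z ^ 2 + 1) = v z ^ 2 := by
          rw [← map_pow]
          refine Valuation.map_add_eq_of_lt_left v ?_
          rw [map_one, map_pow]
          exact one_lt_pow₀ h (by norm_num)
        rw [hz, map_mul, pow_two] at h1
        have h2 : v P = v z := mul_right_cancel₀ ((Valuation.ne_zero_iff v).2 hz0) h1
        rw [h2] at hPhi
        exact absurd h (not_lt.2 hPhi)
    by_cases hB : ∀ k j, v (xL D f k - cst D f (D.a k j)) = 1
    · refine Submodule.subset_span ⟨_, fun l => ?_, rfl⟩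
      refine Fin.cases ?_ (fun k => ?_) l
      · rw [map_ent_zero]; exact hz1
      · rw [map_ent_succ, map_div₀, hB, hB, div_one]
    · push Not at hB
      obtain ⟨k, j, hkj⟩ := hB
      have hlt : v (xL D f k - cst D f (D.a k j)) < 1 :=
        lt_of_le_of_ne (hsub k _ (ha k j)) hkj
      have hPlt : v P < 1 := by
        rw [hP, ← Finset.mul_prod_erase _ _ (Finset.mem_univ k),
          ← Finset.mul_prod_erase _ _ (Finset.mem_univ j)]
        rw [map_mul, map_mul, map_mul]
        have h1 : v (∏ x ∈ Finset.univ.erase j, (xL D f k - cst D f (D.a k x))) ≤ 1 := by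
          rw [map_prod]
          exact Finset.prod_le_one' fun j _ => hsub k _ (ha k j)
        have h2 : v (∏ x ∈ Finset.univ.erase k, ∏ i, (xL D f x - cst D f (D.a x i))) ≤ 1 := by
          rw [map_prod]
          refine Finset.prod_le_one' fun k _ => ?_
          rw [map_prod]
          exact Finset.prod_le_one' fun j _ => hsub k _ (ha k j)
        have h3 : v (xL D f k - cst D f (D.a k j)) *
            v (∏ x ∈ Finset.univ.erase j, (xL D f k - cst D f (D.a k x))) < 1 :=
          mul_lt_one_of_lt_of_le hlt h1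
        have h4 := mul_lt_one_of_lt_of_le h3 h2
        calc _ ≤ 1 * _ := mul_le_mul_left (hc _ hlam) _
          _ = _ := one_mul _
          _ < 1 := h4
      refine mem_unitPart_of_pow v 0 (m := 4) _ (by norm_num) ?_
      rw [map_ent_zero, ← hzdef]
      have e : z ^ 4 - 1 = (z ^ 2 + 1) * (z ^ 2 - 1) := by ring
      rw [e, hz, map_mul, map_mul, hz1, mul_one]
      have h5 : v (z ^ 2 - 1) ≤ 1 := by
        refine (v.map_sub _ _).trans ?_
        rw [map_pow, hz1, one_pow, map_one, max_self]
      exact mul_lt_one_of_lt_of_le hPlt h5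

theorem symb_mem_unramified (hD : D.Integral) (i : ∀ k, Fin (r k)) :
    KQ.map (d + 1) f (symb (ent D i)) ∈ Unramified L (d + 1) := by
  rw [KQ.map_symb]
  unfold Unramified
  simp only [Submodule.mem_iInf]
  intro v _
  exact symb_mem_unitPart D f hD v i

end Unram

end Pool.Agent.TH826.MK
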