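import Mathlib
set_option autoImplicit false

/-!
Nonvanishing of the determinant of a matrix which is nearly triangular.
-/

namespace Pool.Agent.TH826.MK

variable {ι : Type*} [Fintype ι] [DecidableEq ι]

/-- A permutation different from the identity moves some element to an element of at most the same
height. -/
theorem exists_perm_le (h : ι → ℕ) (σ : Equiv.Perm ι) (hσ : σ ≠ 1) :
    ∃ t, σ t ≠ t ∧ h (σ t) ≤ h t := by
  by_contra hcon
  push Not at hcon
  have h1 : ∑ t, h (σ t) = ∑ t, h t := Equiv.sum_comp σ h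
  obtain ⟨t, ht⟩ : ∃ t, σ t ≠ t := by
    by_contra h2
    push Not at h2
    exact hσ (Equiv.ext h2)
  have h2 : ∑ t, h t < ∑ t, h (σ t) := by
    refine Finset.sum_lt_sum (fun s _ => ?_) ⟨t, Finset.mem_univ t, hcon t ht⟩
    by_cases hs : σ s = s
    · rw [hs]
    · exact (hcon s hs).le
  omega

theorem det_ne_zero_of_near (h : ι → ℕ) {B δ : ℝ} (hB : 2 ≤ B) (hδ : 0 < δ) (hδ1 : δ ≤ 1)
    (hsmall : (Fintype.card ι) * δ + ((Fintype.card ι).factorial * B ^ (Fintype.card ι)) * δ < 1)
    (M : Matrix ι ι ℝ) (D : ι → ℝ) (hD : ∀ t, 0 < D t)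
    (hdiag : ∀ t, |M t t - D t| ≤ δ * D t)
    (hlow : ∀ t i, i ≠ t → h i ≤ h t → |M t i| ≤ δ * D t)
    (hall : ∀ t i, i ≠ t → |M t i| ≤ B * D t) : M.det ≠ 0 := by
  have hP : 0 < ∏ t, D t := Finset.prod_pos fun t _ => hD t
  have hdiag1 : ∀ t, (1 - δ) * D t ≤ M t t := by
    intro t
    have := (abs_le.1 (hdiag t)).1
    linarith
  have hdiag2 : ∀ t, |M t t| ≤ B * D t := by
    intro t
    have h1 := (abs_le.1 (hdiag t))
    have h2 : δ * D t ≤ 1 * D t := mul_le_mul_of_nonneg_right hδ1 (hD t).le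
    have h3 : 2 * D t ≤ B * D t := mul_le_mul_of_nonneg_right hB (hD t).le
    rw [abs_le]
    constructor <;> linarith [h1.1, h1.2, hD t]
  have hall' : ∀ t i, |M t i| ≤ B * D t := by
    intro t i
    by_cases hi : i = t
    · subst hi; exact hdiag2 i
    · exact hall t i hi
  have hσ : ∀ σ ∈ (Finset.univ.erase (1 : Equiv.Perm ι)),
      ‖Equiv.Perm.sign σ • ∏ t, M.transpose (σ t) t‖ ≤
        B ^ (Fintype.card ι) * δ * ∏ t, D t := by
    intro σ hσ1
    have hne : σ ≠ 1 := Finset.ne_of_mem_erase hσ1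
    obtain ⟨t, ht1, ht2⟩ := exists_perm_le h σ hne
    have h2 : ‖Equiv.Perm.sign σ • ∏ t, M.transpose (σ t) t‖ = ∏ t, |M t (σ t)| := by
      have h3 : ‖∏ t, M.transpose (σ t) t‖ = ∏ t, |M t (σ t)| := by
        rw [norm_prod]
        rfl
      rw [← h3]
      rcases Int.units_eq_one_or (Equiv.Perm.sign σ) with h | h <;> rw [h] <;> simp
    rw [h2, ← Finset.mul_prod_erase _ _ (Finset.mem_univ t)]
    have h4 : ∏ s ∈ Finset.univ.erase t, |M s (σ s)| ≤
        ∏ s ∈ Finset.univ.erase t, (B * D s) :=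
      Finset.prod_le_prod (fun s _ => abs_nonneg _) fun s _ => hall' s (σ s)
    have h5 : ∏ s ∈ Finset.univ.erase t, (B * D s) ≤
        B ^ (Fintype.card ι) * ∏ s ∈ Finset.univ.erase t, D s := by
      rw [Finset.prod_mul_distrib, Finset.prod_const]
      refine mul_le_mul_of_nonneg_right ?_ (Finset.prod_nonneg fun s _ => (hD s).le)
      refine pow_le_pow_right₀ (by linarith) ?_
      exact (Finset.card_le_univ _)
    calc |M t (σ t)| * ∏ s ∈ Finset.univ.erase t, |M s (σ s)| ≤
        (δ * D t) * (B ^ (Fintype.card ι) * ∏ s ∈ Finset.univ.erase t, D s) :=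
          mul_le_mul (hlow t (σ t) ht1 ht2) (h4.trans h5)
            (Finset.prod_nonneg fun s _ => abs_nonneg _) (by have := hD t; positivity)
      _ = B ^ (Fintype.card ι) * δ * (D t * ∏ s ∈ Finset.univ.erase t, D s) := by ring
      _ = _ := by rw [Finset.mul_prod_erase _ _ (Finset.mem_univ t)]
  have hid : (1 - (Fintype.card ι) * δ) * ∏ t, D t ≤ ∏ t, M t t := by
    have h1 : ∏ t, ((1 - δ) * D t) ≤ ∏ t, M t t :=
      Finset.prod_le_prod (fun t _ => mul_nonneg (by linarith) (hD t).le) fun t _ => hdiag1 t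
    refine le_trans ?_ h1
    rw [Finset.prod_mul_distrib, Finset.prod_const, Finset.card_univ]
    refine mul_le_mul_of_nonneg_right ?_ hP.le
    have := one_add_mul_le_pow (a := -δ) (by linarith) (Fintype.card ι)
    calc 1 - (Fintype.card ι) * δ = 1 + (Fintype.card ι) * -δ := by ring
      _ ≤ (1 + -δ) ^ (Fintype.card ι) := this
      _ = _ := by ring
  rw [← Matrix.det_transpose, Matrix.det_apply, ← Finset.add_sum_erase _ _ (Finset.mem_univ 1)]
  have hsum : ‖∑ σ ∈ Finset.univ.erase (1 : Equiv.Perm ι),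
      Equiv.Perm.sign σ • ∏ t, M.transpose (σ t) t‖ ≤
      ((Fintype.card ι).factorial * B ^ (Fintype.card ι)) * δ * ∏ t, D t := by
    refine (norm_sum_le _ _).trans ((Finset.sum_le_card_nsmul _ _ _ hσ).trans ?_)
    rw [nsmul_eq_mul]
    have hcard : ((Finset.univ.erase (1 : Equiv.Perm ι)).card : ℝ) ≤
        (Fintype.card ι).factorial := by
      have := Finset.card_le_univ (Finset.univ.erase (1 : Equiv.Perm ι))
      rw [Fintype.card_perm] at this
      exact_mod_cast this
    have h0 : 0 ≤ B ^ (Fintype.card ι) * δ * ∏ t, D t := by positivity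
    calc _ ≤ ((Fintype.card ι).factorial : ℝ) * (B ^ (Fintype.card ι) * δ * ∏ t, D t) :=
          mul_le_mul_of_nonneg_right hcard h0
      _ = _ := by ring
  have hone : Equiv.Perm.sign (1 : Equiv.Perm ι) • ∏ t, M.transpose ((1 : Equiv.Perm ι) t) t =
      ∏ t, M t t := by
    simp
  rw [hone]
  have h1 := (abs_le.1 hsum).1
  apply ne_of_gt
  have h2 : 0 < (1 - ((Fintype.card ι) * δ + ((Fintype.card ι).factorial *
      B ^ (Fintype.card ι)) * δ)) * ∏ t, D t := mul_pos (by linarith) hP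
  linarith

end Pool.Agent.TH826.MK
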