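import Pool.Agent.TH826.MK.Exact
set_option autoImplicit false

/-!
Bounds for the regulator integral.
-/

namespace Pool.Agent.TH826.MK

open MeasureTheory Set

variable {d : ℕ}

section general

theorem norm_det_le {n : ℕ} (M : Fin n → Fin n → ℂ) (b : Fin n → ℝ) (h : ∀ i j, ‖M i j‖ ≤ b i) :
    ‖(Matrix.of M).det‖ ≤ n.factorial * ∏ i, b i := by
  rw [Matrix.det_apply]
  refine (norm_sum_le _ _).trans ?_
  have h1 : ∀ σ ∈ (Finset.univ : Finset (Equiv.Perm (Fin n))),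
      ‖Equiv.Perm.sign σ • ∏ i, (Matrix.of M) (σ i) i‖ ≤ ∏ i, b i := by
    intro σ _
    have h2 : ‖Equiv.Perm.sign σ • ∏ i, (Matrix.of M) (σ i) i‖ = ‖∏ i, M (σ i) i‖ := by
      rcases Int.units_eq_one_or (Equiv.Perm.sign σ) with h | h <;> rw [h] <;> simp
    rw [h2, norm_prod]
    calc ∏ i, ‖M (σ i) i‖ ≤ ∏ i, b (σ i) :=
          Finset.prod_le_prod (fun i _ => norm_nonneg _) fun i _ => h _ _
      _ = ∏ i, b i := Equiv.prod_comp σ b
  refine (Finset.sum_le_card_nsmul _ _ _ h1).trans ?_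
  rw [Finset.card_univ, Fintype.card_perm, Fintype.card_fin, nsmul_eq_mul]

theorem abs_pairing_le {f : (Fin d → ℝ) → ℂ} {g : Fin d → (Fin d → ℝ) → ℂ} {ε : ℝ} {B : Fin d → ℝ}
    (h0 : ∀ y ∈ Icc (0 : Fin (d + 1) → ℝ) 1, ∀ j, ‖grow f y j‖ ≤ ε)
    (h1 : ∀ l, ∀ y ∈ Icc (0 : Fin (d + 1) → ℝ) 1, ∀ j, ‖grow (g l) y j‖ ≤ B l) :
    |pairing (Fin.cons f g)| ≤ (d + 1).factorial * (ε * ∏ l, B l) := by
  unfold pairing
  have h2 : ∀ y ∈ Icc (0 : Fin (d + 1) → ℝ) 1, ‖integrand (Fin.cons f g) y‖ ≤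
      (d + 1).factorial * (ε * ∏ l, B l) := by
    intro y hy
    unfold integrand
    rw [Real.norm_eq_abs]
    refine (Complex.abs_re_le_norm _).trans ?_
    rw [norm_mul, norm_pow, norm_neg, Complex.norm_I, one_pow, one_mul]
    have h3 := norm_det_le (fun l => grow ((Fin.cons f g : Fin (d + 1) → (Fin d → ℝ) → ℂ) l) y)
      (Fin.cons ε B) (by
        intro i j
        refine Fin.cases ?_ (fun i => ?_) i
        · exact h0 y hy j
        · exact h1 i y hy j)
    rw [Fin.prod_univ_succ, Fin.cons_zero] at h3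
    simp only [Fin.cons_succ] at h3
    exact h3
  have hvol : (volume : Measure (Fin (d + 1) → ℝ)) (Icc 0 1) = 1 := by
    rw [Real.volume_Icc_pi]
    simp
  have h4 := norm_setIntegral_le_of_norm_le_const (μ := (volume : Measure (Fin (d + 1) → ℝ)))
    (by rw [hvol]; exact ENNReal.one_lt_top) h2
  rw [Measure.real, hvol] at h4
  simpa using h4

theorem norm_grow_le {g : (Fin d → ℝ) → ℂ} {y : Fin (d + 1) → ℝ}
    (hy : y ∈ Icc (0 : Fin (d + 1) → ℝ) 1) {B : ℝ} (h0 : |Real.log ‖g (tl d y)‖| ≤ B)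
    (h1 : ∀ j, 2 * ‖lw g j (tl d y)‖ ≤ B) (j : Fin (d + 1)) : ‖grow g y j‖ ≤ B := by
  refine Fin.cases ?_ (fun j => ?_) j
  · rw [grow_zero, Complex.norm_real]
    exact h0
  · rw [grow_succ]
    refine (norm_add_le _ _).trans ?_
    rw [norm_mul, Complex.norm_I, one_mul, Complex.norm_real, Complex.norm_real,
      Real.norm_eq_abs, Real.norm_eq_abs, abs_mul]
    have h2 : |y 0| ≤ 1 := by
      rw [abs_of_nonneg (hy.1 0)]
      exact hy.2 0
    have h3 := Complex.abs_re_le_norm (lw g j (tl d y))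
    have h4 := Complex.abs_im_le_norm (lw g j (tl d y))
    have h5 : |y 0| * |(lw g j (tl d y)).re| ≤ 1 * ‖lw g j (tl d y)‖ :=
      mul_le_mul h2 h3 (abs_nonneg _) zero_le_one
    have := h1 j
    linarith

end general

section circles

/-- The point `b` is well separated from the circle of radius `R` and of norm at most `M`. -/
structure Far (R M : ℝ) (b : ℂ) : Prop where
  far : 2 * ‖b‖ ≤ R ∨ 2 * R ≤ ‖b‖
  two : 2 ≤ R
  le : ‖b‖ ≤ M

variable {R M : ℝ} {b b' : ℂ}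

theorem Far.ne (h : Far R M b) : ‖b‖ ≠ R := by
  intro e
  have := h.two
  rcases h.far with h1 | h1 <;> rw [e] at h1 <;> linarith

theorem Far.pos (h : Far R M b) : 0 < R := by linarith [h.two]

theorem Far.half_le (h : Far R M b) (s : ℝ) : R / 2 ≤ ‖circ R s - b‖ := by
  have h0 := h.pos
  rcases h.far with h1 | h1
  · have := norm_sub_norm_le (circ R s) b
    rw [norm_circ h0.le] at this
    linarith
  · have := norm_sub_norm_le b (circ R s)
    rw [norm_circ h0.le, norm_sub_rev] at this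
    linarith

theorem Far.one_le (h : Far R M b) (s : ℝ) : 1 ≤ ‖circ R s - b‖ := by
  have := h.half_le s
  have := h.two
  linarith

theorem Far.norm_le (h : Far R M b) (hRM : R ≤ M) (s : ℝ) : ‖circ R s - b‖ ≤ 2 * M := by
  have h1 := norm_sub_le (circ R s) b
  rw [norm_circ h.pos.le] at h1
  linarith [h.le]

theorem Far.one (h : Far R M b) : One (fun s => circ R s - b) (wd R b) := one_lin h.pos h.ne

theorem Far.norm_ld (h : Far R M b) (s : ℝ) :
    ‖deriv (fun s => circ R s - b) s / (circ R s - b)‖ ≤ 4 * Real.pi := by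
  have h0 := h.pos
  rw [deriv_circ_sub, norm_div, norm_mul, norm_circ h0.le]
  have e : ‖2 * (Real.pi : ℂ) * Complex.I‖ = 2 * Real.pi := by
    rw [norm_mul, norm_mul, Complex.norm_I, Complex.norm_real, Complex.norm_ofNat, mul_one,
      Real.norm_eq_abs, abs_of_pos Real.pi_pos]
  have h1 := h.half_le s
  rw [e, div_le_iff₀ (by linarith)]
  nlinarith [Real.pi_pos]

theorem Far.log_nonneg (h : Far R M b) (s : ℝ) : 0 ≤ Real.log ‖circ R s - b‖ :=
  Real.log_nonneg (h.one_le s)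

theorem Far.log_le (h : Far R M b) (hRM : R ≤ M) (s : ℝ) :
    Real.log ‖circ R s - b‖ ≤ 2 * M := by
  have h1 := h.norm_le hRM s
  have h2 := h.one_le s
  have h3 := Real.log_le_sub_one_of_pos (by linarith : 0 < ‖circ R s - b‖)
  linarith

theorem ld_div (h : Far R M b) (h' : Far R M b') (s : ℝ) :
    deriv (fun s => (circ R s - b) / (circ R s - b')) s / ((circ R s - b) / (circ R s - b')) =
      deriv (fun s => circ R s - b) s / (circ R s - b) -
      deriv (fun s => circ R s - b') s / (circ R s - b') := by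
  have h1 := (h.one.smooth.differentiable (by norm_num)) s
  have h2 := (h'.one.smooth.differentiable (by norm_num)) s
  rw [deriv_fun_div h1 h2 (h'.one.ne_zero s)]
  have := h.one.ne_zero s
  have := h'.one.ne_zero s
  field_simp

theorem norm_grow_div (h : Far R M b) (h' : Far R M b') (hRM : R ≤ M) (l : Fin d)
    {y : Fin (d + 1) → ℝ} (hy : y ∈ Icc (0 : Fin (d + 1) → ℝ) 1) (j : Fin (d + 1)) :
    ‖grow (fun θ : Fin d → ℝ => (circ R (θ l) - b) / (circ R (θ l) - b')) y j‖ ≤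
      16 * Real.pi * M := by
  have hM : 2 ≤ M := h.two.trans hRM
  have hpi := Real.pi_gt_three
  refine norm_grow_le hy ?_ (fun j => ?_) j
  · rw [norm_div, Real.log_div (norm_ne_zero_iff.2 (h.one.ne_zero _))
      (norm_ne_zero_iff.2 (h'.one.ne_zero _))]
    have h1 := h.log_nonneg (tl d y l)
    have h2 := h.log_le hRM (tl d y l)
    have h3 := h'.log_nonneg (tl d y l)
    have h4 := h'.log_le hRM (tl d y l)
    have h5 : 2 * M ≤ 16 * Real.pi * M := by nlinarith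
    rw [abs_le]
    constructor <;> linarith
  · have hone := h.one.div h'.one
    have hb : ‖lw (fun θ : Fin d → ℝ => (circ R (θ l) - b) / (circ R (θ l) - b')) j (tl d y)‖ ≤
        8 * Real.pi := by
      by_cases hj : j = l
      · subst hj
        have e := lw_vf_self hone.smooth j (tl d y)
        have e2 := ld_div h h' (tl d y j)
        rw [e, e2]
        refine (norm_sub_le _ _).trans ?_
        linarith [h.norm_ld (tl d y j), h'.norm_ld (tl d y j)]
      · have e := lw_vf_ne hone.smooth hj (tl d y)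
        rw [e, norm_zero]
        positivity
    nlinarith

end circles

section hsb

theorem norm_sq_sub_one {w : ℂ} (hw : 4 ≤ ‖w‖) : ‖sq w - 1‖ ≤ 6 / ‖w‖ ^ 2 := by
  have h0 : 0 < ‖w‖ := by linarith
  have h1 : ‖-(4 / w ^ 2)‖ = 4 / ‖w‖ ^ 2 := by
    rw [norm_neg, norm_div, norm_pow, Complex.norm_ofNat]
  have h2 : 4 / ‖w‖ ^ 2 ≤ 1 / 4 := by
    rw [div_le_div_iff₀ (by positivity) (by norm_num)]
    nlinarith
  have h3 := Complex.norm_log_one_add_half_le_self (z := -(4 / w ^ 2))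
    (by rw [h1]; linarith)
  rw [← sub_eq_add_neg, h1] at h3
  have h4 : ‖Complex.log (1 - 4 / w ^ 2) / 2‖ ≤ 3 / ‖w‖ ^ 2 := by
    rw [norm_div, Complex.norm_ofNat]
    have : 3 / ‖w‖ ^ 2 = (3 / 2 * (4 / ‖w‖ ^ 2)) / 2 := by ring
    rw [this]
    exact div_le_div_of_nonneg_right h3 (by norm_num)
  have h5 : 3 / ‖w‖ ^ 2 ≤ 1 := by
    have : 3 / ‖w‖ ^ 2 = 3 / 4 * (4 / ‖w‖ ^ 2) := by ring
    rw [this]
    nlinarith
  have h6 := Complex.norm_exp_sub_one_le (x := Complex.log (1 - 4 / w ^ 2) / 2) (h4.trans h5)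
  unfold sq
  have : 6 / ‖w‖ ^ 2 = 2 * (3 / ‖w‖ ^ 2) := by ring
  rw [this]
  linarith

theorem six_div_le {w : ℂ} (hw : 4 ≤ ‖w‖) : 6 / ‖w‖ ^ 2 ≤ 3 / 8 := by
  have h0 : 0 < ‖w‖ := by linarith
  rw [div_le_div_iff₀ (by positivity) (by norm_num)]
  nlinarith

theorem norm_hs_sub_one {w : ℂ} (hw : 4 ≤ ‖w‖) : ‖hs w - 1‖ ≤ 3 / ‖w‖ ^ 2 := by
  have h := norm_sq_sub_one hw
  unfold hs
  have e : (1 + sq w) / 2 - 1 = (sq w - 1) / 2 := by ring
  rw [e, norm_div, Complex.norm_ofNat]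
  have : 3 / ‖w‖ ^ 2 = (6 / ‖w‖ ^ 2) / 2 := by ring
  rw [this]
  exact div_le_div_of_nonneg_right h (by norm_num)

theorem abs_log_norm_hs {w : ℂ} (hw : 4 ≤ ‖w‖) : |Real.log ‖hs w‖| ≤ 6 / ‖w‖ ^ 2 := by
  have h1 := norm_hs_sub_one hw
  have h2 : 3 / ‖w‖ ^ 2 ≤ 3 / 16 := by
    have := six_div_le hw
    have e : 3 / ‖w‖ ^ 2 = (6 / ‖w‖ ^ 2) / 2 := by ring
    rw [e]; linarith
  have h3 : hs w = 1 + (hs w - 1) := by ring
  have h4 := Complex.norm_log_one_add_half_le_self (z := hs w - 1) (by linarith)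
  rw [← h3] at h4
  rw [← Complex.log_re]
  refine (Complex.abs_re_le_norm _).trans (h4.trans ?_)
  have : 6 / ‖w‖ ^ 2 = 2 * (3 / ‖w‖ ^ 2) := by ring
  rw [this]
  have : 0 ≤ 3 / ‖w‖ ^ 2 := by positivity
  linarith

theorem norm_sq_ge {w : ℂ} (hw : 4 ≤ ‖w‖) : 5 / 8 ≤ ‖sq w‖ := by
  have h1 := (norm_sq_sub_one hw).trans (six_div_le hw)
  have h2 := norm_sub_norm_le 1 (1 - sq w)
  rw [norm_one, sub_sub_cancel, norm_sub_rev] at h2
  linarith

theorem norm_one_add_sq_ge {w : ℂ} (hw : 4 ≤ ‖w‖) : 13 / 8 ≤ ‖1 + sq w‖ := by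
  have h1 := (norm_sq_sub_one hw).trans (six_div_le hw)
  have h2 := norm_sub_norm_le 2 (1 - sq w)
  have e : 2 - (1 - sq w) = 1 + sq w := by ring
  rw [e, Complex.norm_ofNat, norm_sub_rev] at h2
  linarith

theorem hasDerivAt_hs {w : ℂ} (hw : 4 ≤ ‖w‖) :
    HasDerivAt hs (hs w * (4 / (w ^ 3 * (sq w * (1 + sq w))))) w := by
  have hw2 : 2 < ‖w‖ := by linarith
  have h0 : w ≠ 0 := by
    rintro rfl
    rw [norm_zero] at hw
    linarith
  have hs0 : sq w ≠ 0 := Complex.exp_ne_zero _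
  have hs1 : 1 + sq w ≠ 0 := by
    intro h
    have := norm_one_add_sq_ge hw
    rw [h, norm_zero] at this
    linarith
  have h1 : HasDerivAt (fun w : ℂ => 1 - 4 / w ^ 2) (8 / w ^ 3) w := by
    have h2 := (((hasDerivAt_id w).pow 2).inv (pow_ne_zero 2 h0)).const_mul 4
    have h3 := h2.const_sub 1
    refine (h3.congr_deriv ?_).congr_of_eventuallyEq (Filter.Eventually.of_forall fun z => ?_)
    · simp
      field_simp
      ring
    · simp [div_eq_mul_inv]
  have hsl := slit_of_lt hw2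
  have h2 := ((h1.clog hsl).div_const 2).cexp
  have h3 := (h2.const_add 1).div_const 2
  have e : (8 / w ^ 3 / (1 - 4 / w ^ 2)) = (8 / w ^ 3) / (sq w) ^ 2 := by rw [sq_sq hw2]
  refine h3.congr_deriv ?_
  rw [e]
  show sq w * (8 / w ^ 3 / sq w ^ 2 / 2) / 2 = hs w * (4 / (w ^ 3 * (sq w * (1 + sq w))))
  unfold hs
  field_simp
  ring

end hsb

end Pool.Agent.TH826.MK
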