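import Pool.Agent.TH826.MK.OneVar
set_option autoImplicit false

/-!
Exact evaluation of the regulator integral when every entry is a function of one variable.
-/

namespace Pool.Agent.TH826.MK

open MeasureTheory Set

variable {d : ℕ}

section wind

theorem circ_eq (R t : ℝ) : circ R t = circleMap 0 R (2 * Real.pi * t) := by
  unfold circ circleMap
  rw [zero_add]
  congr 2
  push_cast
  ring

theorem deriv_circ_sub (R : ℝ) (b : ℂ) (s : ℝ) :
    deriv (fun s => circ R s - b) s = 2 * Real.pi * Complex.I * circ R s :=
  ((hasDerivAt_circ R s).sub_const b).deriv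

/-- the winding number of `x - b` on the circle of radius `R` -/
noncomputable def wd (R : ℝ) (b : ℂ) : ℝ := if ‖b‖ < R then 1 else 0

theorem circ_sub_ne_zero {R : ℝ} (hR : 0 < R) {b : ℂ} (hb : ‖b‖ ≠ R) (s : ℝ) :
    circ R s - b ≠ 0 := by
  intro h
  rw [sub_eq_zero] at h
  exact hb (by rw [← h, norm_circ hR.le])

theorem one_lin {R : ℝ} (hR : 0 < R) {b : ℂ} (hb : ‖b‖ ≠ R) :
    One (fun s => circ R s - b) (wd R b) where
  smooth := (contDiff_circ R).sub contDiff_const
  ne_zero := circ_sub_ne_zero hR hb
  per s := by rw [circ_add_one]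
  wind := by
    have h1 : ∮ z in C(0, R), (z - b)⁻¹ = 2 * Real.pi * Complex.I * wd R b := by
      unfold wd
      split_ifs with h
      · rw [circleIntegral.integral_sub_inv_of_mem_ball (by simpa using h)]
        simp
      · have h2 : R < ‖b‖ := lt_of_le_of_ne (not_lt.1 h) (Ne.symm hb)
        rw [Complex.circleIntegral_eq_zero_of_differentiable_on_off_countable hR.le countable_empty]
        · simp
        · refine ContinuousOn.inv₀ (continuousOn_id.sub continuousOn_const) ?_
          intro z hz h3
          have h3' : z = b := sub_eq_zero.1 h3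
          rw [mem_closedBall_zero_iff, h3'] at hz
          linarith
        · intro z hz
          refine (differentiableAt_id.sub_const b).inv ?_
          intro h3
          have hz' := hz.1
          have h3' : z = b := sub_eq_zero.1 h3
          rw [mem_ball_zero_iff, h3'] at hz'
          linarith
    rw [← h1, integral_Icc_eq_integral_Ioc, ← intervalIntegral.integral_of_le zero_le_one]
    unfold circleIntegral
    have h2 := intervalIntegral.integral_comp_mul_left (a := 0) (b := 1)
      (fun θ => deriv (circleMap 0 R) θ • (circleMap 0 R θ - b)⁻¹)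
      (c := 2 * Real.pi) (by positivity)
    rw [mul_zero, mul_one] at h2
    have h3 : (∫ θ in (0 : ℝ)..2 * Real.pi, deriv (circleMap 0 R) θ • (circleMap 0 R θ - b)⁻¹) =
        (2 * Real.pi : ℝ) • ∫ x in (0 : ℝ)..1, deriv (circleMap 0 R) (2 * Real.pi * x) •
          (circleMap 0 R (2 * Real.pi * x) - b)⁻¹ := by
      rw [h2, smul_smul, mul_inv_cancel₀ (by positivity), one_smul]
    rw [h3, ← intervalIntegral.integral_smul]
    refine intervalIntegral.integral_congr fun x _ => ?_
    rw [deriv_circ_sub, deriv_circleMap, circ_eq, Complex.real_smul, smul_eq_mul,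
      div_eq_mul_inv]
    push_cast
    ring

end wind

section rules

variable {f h a b : (Fin d → ℝ) → ℂ} {g : Fin d → (Fin d → ℝ) → ℂ}

theorem good_cons (hf : Good f) (hg : ∀ l, Good (g l)) :
    ∀ l, Good ((Fin.cons f g : Fin (d + 1) → (Fin d → ℝ) → ℂ) l) := by
  intro l
  refine Fin.cases ?_ (fun l => ?_) l
  · exact hf
  · exact hg l

theorem pairing_cons_mul (ha : Good a) (hb : Good b) (hg : ∀ l, Good (g l)) :
    pairing (Fin.cons (fun θ => a θ * b θ) g) = pairing (Fin.cons a g) +
      pairing (Fin.cons b g) := by
  have h := pairing_update_mul (good_cons ha hg) 0 ha hb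
  simp only [Fin.update_cons_zero] at h
  exact h

theorem pairing_update_mul' (hf : Good f) (ha : Good a) (hb : Good b) (hg : ∀ l, Good (g l))
    (k : Fin d) :
    pairing (Fin.cons f (Function.update g k fun θ => a θ * b θ)) =
      pairing (Fin.cons f (Function.update g k a)) +
      pairing (Fin.cons f (Function.update g k b)) := by
  have h := pairing_update_mul (good_cons hf hg) k.succ ha hb
  simp only [← Fin.cons_update] at h
  exact h

theorem grow_neg_const (c : ℂ) (y : Fin (d + 1) → ℝ) :
    grow (fun _ => -c) y = grow (fun _ => c) y := by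
  funext i
  refine Fin.cases ?_ (fun i => ?_) i
  · rw [grow_zero, grow_zero, norm_neg]
  · rw [grow_const, grow_const]

theorem pairing_swap (k : Fin d) :
    pairing (Fin.cons f (Function.update g k h)) =
      - pairing (Fin.cons h (Function.update g k f)) := by
  unfold pairing
  rw [← integral_neg]
  refine integral_congr_ae (Filter.Eventually.of_forall fun y => ?_)
  unfold integrand
  have h1 := (Matrix.detRowAlternating (R := ℂ) (n := Fin (d + 1))).map_swap
    (fun l => grow ((Fin.cons h (Function.update g k f) : Fin (d + 1) → (Fin d → ℝ) → ℂ) l) y)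
    (Fin.succ_ne_zero k).symm
  have e : (fun l => grow ((Fin.cons h (Function.update g k f) :
      Fin (d + 1) → (Fin d → ℝ) → ℂ) l) y) ∘ Equiv.swap 0 k.succ =
      fun l => grow ((Fin.cons f (Function.update g k h) : Fin (d + 1) → (Fin d → ℝ) → ℂ) l) y := by
    funext l
    simp only [Function.comp_apply]
    refine Fin.cases ?_ (fun l => ?_) l
    · rw [Equiv.swap_apply_left]
      simp
    · by_cases hl : l = k
      · subst hl
        rw [Equiv.swap_apply_right]
        simp
      · rw [Equiv.swap_apply_of_ne_of_ne (Fin.succ_ne_zero l)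
          (fun e => hl (Fin.succ_injective _ e))]
        simp [Function.update_of_ne hl]
  rw [e] at h1
  have h2 : (Matrix.of fun l => grow ((Fin.cons f (Function.update g k h) :
      Fin (d + 1) → (Fin d → ℝ) → ℂ) l) y).det =
    - (Matrix.of fun l => grow ((Fin.cons h (Function.update g k f) :
      Fin (d + 1) → (Fin d → ℝ) → ℂ) l) y).det := h1
  simp only [h2]
  simp

theorem pairing_self (k : Fin d) : pairing (Fin.cons f (Function.update g k f)) = 0 := by
  have := pairing_swap (f := f) (h := f) (g := g) k
  linarith

theorem pairing_neg_self_const (c : ℂ) (k : Fin d) :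
    pairing (Fin.cons (fun _ => -c) (Function.update g k fun _ => c)) = 0 := by
  have e : pairing (Fin.cons (fun _ => -c) (Function.update g k fun _ => c)) =
      pairing (Fin.cons (fun _ => c) (Function.update g k fun _ => c)) := by
    unfold pairing
    refine integral_congr_ae (Filter.Eventually.of_forall fun y => ?_)
    unfold integrand
    have : (Matrix.of fun l => grow ((Fin.cons (fun _ => -c) (Function.update g k fun _ => c) :
        Fin (d + 1) → (Fin d → ℝ) → ℂ) l) y) = Matrix.of fun l =>
        grow ((Fin.cons (fun _ => c) (Function.update g k fun _ => c) :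
        Fin (d + 1) → (Fin d → ℝ) → ℂ) l) y := by
      congr 1
      funext l
      refine Fin.cases ?_ (fun l => ?_) l
      · rw [Fin.cons_zero, Fin.cons_zero, grow_neg_const]
      · rw [Fin.cons_succ, Fin.cons_succ]
    rw [this]
  rw [e, pairing_self]

theorem good_const {c : ℂ} (hc : c ≠ 0) : Good fun _ : Fin d → ℝ => c :=
  ⟨contDiff_const, fun _ => hc⟩

theorem per_const (c : ℂ) : Per fun _ : Fin d → ℝ => c := fun _ _ => rfl

theorem good_update (hg : ∀ l, Good (g l)) (hh : Good h) (k : Fin d) :
    ∀ l, Good (Function.update g k h l) := by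
  intro l
  by_cases hl : l = k
  · subst hl; rwa [Function.update_self]
  · rw [Function.update_of_ne hl]; exact hg l

theorem per_update (hg : ∀ l, Per (g l)) (hh : Per h) (k : Fin d) :
    ∀ l, Per (Function.update g k h l) := by
  intro l
  by_cases hl : l = k
  · subst hl; rwa [Function.update_self]
  · rw [Function.update_of_ne hl]; exact hg l

/-- the consequence of the Steinberg relation -/
theorem pairing_sub {c : ℂ} (hc : c ≠ 0) (hf : Good f) (hh : Good h) (hg : ∀ l, Good (g l))
    (pf : Per f) (ph : Per h) (pg : ∀ l, Per (g l)) (k : Fin d) (hfh : ∀ θ, h θ - f θ = c) :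
    pairing (Fin.cons f (Function.update g k h)) =
      pairing (Fin.cons (fun _ => -c) (Function.update g k h)) -
      pairing (Fin.cons (fun _ => c) (Function.update g k f)) := by
  set P : (Fin d → ℝ) → ℂ := fun θ => (-c)⁻¹ * f θ with hP
  set Q : (Fin d → ℝ) → ℂ := fun θ => c⁻¹ * h θ with hQ
  have hc' : -c ≠ 0 := neg_ne_zero.2 hc
  have gP : Good P := (good_const (inv_ne_zero hc')).mul hf
  have gQ : Good Q := (good_const (inv_ne_zero hc)).mul hh
  have pP : Per P := fun θ i => by simp only [hP]; rw [pf θ i]
  have pQ : Per Q := fun θ i => by simp only [hQ]; rw [ph θ i]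
  have eF : f = fun θ => (-c) * P θ := by
    funext θ
    simp only [hP]
    rw [← mul_assoc, mul_inv_cancel₀ hc', one_mul]
  have eH : h = fun θ => c * Q θ := by
    funext θ
    simp only [hQ]
    rw [← mul_assoc, mul_inv_cancel₀ hc, one_mul]
  have hPQ : pairing (Fin.cons P (Function.update g k Q)) = 0 := by
    refine pairing_steinberg (good_cons gP (good_update hg gQ k)) ?_
      (Fin.succ_ne_zero k).symm ?_
    · intro l
      refine Fin.cases ?_ (fun l => ?_) l
      · exact pP
      · exact per_update pg pQ k l
    · intro θ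
      rw [Fin.cons_zero, Fin.cons_succ, Function.update_self]
      simp only [hP, hQ]
      rw [inv_neg, ← hfh θ]
      have : h θ - f θ ≠ 0 := by rw [hfh]; exact hc
      field_simp
      ring
  have h1 : pairing (Fin.cons f (Function.update g k h)) =
      pairing (Fin.cons (fun _ => -c) (Function.update g k h)) +
      pairing (Fin.cons P (Function.update g k h)) := by
    conv_lhs => rw [eF]
    exact pairing_cons_mul (good_const hc') gP (good_update hg hh k)
  have h2 : pairing (Fin.cons P (Function.update g k h)) =
      pairing (Fin.cons P (Function.update g k fun _ => c)) +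
      pairing (Fin.cons P (Function.update g k Q)) := by
    conv_lhs => rw [eH]
    exact pairing_update_mul' gP (good_const hc) gQ hg k
  have h3 : pairing (Fin.cons f (Function.update g k fun _ => c)) =
      pairing (Fin.cons (fun _ => -c) (Function.update g k fun _ => c)) +
      pairing (Fin.cons P (Function.update g k fun _ => c)) := by
    conv_lhs => rw [eF]
    exact pairing_cons_mul (good_const hc') gP (good_update hg (good_const hc) k)
  rw [pairing_neg_self_const, zero_add] at h3
  have h4 := pairing_swap (f := f) (h := fun _ => c) (g := g) k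
  rw [h1, h2, hPQ, add_zero, ← h3, h4]
  ring

end rules

section exact

variable {G : Fin d → ℝ → ℂ} {w : Fin d → ℝ}

theorem vf_update (k : Fin d) (H : ℝ → ℂ) :
    vf (Function.update G k H) = Function.update (vf G) k fun θ => H (θ k) := by
  funext l
  unfold vf
  by_cases hl : l = k
  · subst hl; simp
  · rw [Function.update_of_ne hl, Function.update_of_ne hl]

theorem one_update {H : ℝ → ℂ} {v : ℝ} (hG : ∀ l, One (G l) (w l)) (hH : One H v) (k : Fin d) :
    ∀ l, One (Function.update G k H l) (Function.update w k v l) := by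
  intro l
  by_cases hl : l = k
  · subst hl; simpa using hH
  · rw [Function.update_of_ne hl, Function.update_of_ne hl]; exact hG l

theorem prod_update (k : Fin d) (v : ℝ) :
    ∏ l, Function.update w k v l = v * ∏ l ∈ Finset.univ.erase k, w l := by
  rw [← Finset.mul_prod_erase _ _ (Finset.mem_univ k), Function.update_self]
  congr 1
  refine Finset.prod_congr rfl fun l hl => ?_
  rw [Function.update_of_ne (Finset.ne_of_mem_erase hl)]

theorem pairing_lin {R : ℝ} (hR : 0 < R) {β b : ℂ} (hβ : ‖β‖ ≠ R) (hb : ‖b‖ ≠ R)
    (hG : ∀ l, One (G l) (w l)) (k : Fin d) :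
    pairing (Fin.cons (fun θ => circ R (θ k) - β) (vf (Function.update G k
      fun s => circ R s - b))) = (2 * Real.pi) ^ d * (∏ l ∈ Finset.univ.erase k, w l) *
        (Real.log ‖β - b‖ * (wd R b - wd R β)) := by
  have oβ := one_lin hR hβ
  have ob := one_lin hR hb
  by_cases h : β = b
  · subst h
    rw [vf_update, pairing_self]
    simp
  · have hc : β - b ≠ 0 := sub_ne_zero.2 h
    have hv : ∀ l, Good (vf G l) := fun l => (hG l).good l
    have hp : ∀ l, Per (vf G l) := fun l => (hG l).periodic l
    rw [vf_update, pairing_sub hc (oβ.good k) (ob.good k) hv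
      (oβ.periodic k) (ob.periodic k) hp k (fun θ => by ring)]
    rw [← vf_update (G := G) k (fun s => circ R s - b),
      ← vf_update (G := G) k (fun s => circ R s - β),
      pairing_const _ _ _ (one_update hG ob k), pairing_const _ _ _ (one_update hG oβ k),
      norm_neg, prod_update, prod_update]
    ring

theorem pairing_cons_div {f : (Fin d → ℝ) → ℂ} (hf : Good f) (hG : ∀ l, One (G l) (w l))
    (k : Fin d) {H H' : ℝ → ℂ} {v v' : ℝ} (hH : One H v) (hH' : One H' v') :
    pairing (Fin.cons f (vf (Function.update G k fun s => H s / H' s))) =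
      pairing (Fin.cons f (vf (Function.update G k H))) -
      pairing (Fin.cons f (vf (Function.update G k H'))) := by
  have hv : ∀ l, Good (vf G l) := fun l => (hG l).good l
  rw [eq_sub_iff_add_eq, vf_update, vf_update, vf_update]
  rw [← pairing_update_mul' hf ((hH.div hH').good k) (hH'.good k) hv k]
  have e : (fun θ : Fin d → ℝ => H (θ k) / H' (θ k) * H' (θ k)) = fun θ => H (θ k) := by
    funext θ
    rw [div_mul_cancel₀ _ (hH'.ne_zero _)]
  rw [e]

theorem pairing_lin_div {R : ℝ} (hR : 0 < R) {β b b' : ℂ} (hβ : ‖β‖ ≠ R) (hb : ‖b‖ ≠ R)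
    (hb' : ‖b'‖ ≠ R) (hG : ∀ l, One (G l) (w l)) (k : Fin d)
    (hk : G k = fun s => (circ R s - b) / (circ R s - b')) :
    pairing (Fin.cons (fun θ => circ R (θ k) - β) (vf G)) =
      (2 * Real.pi) ^ d * (∏ l ∈ Finset.univ.erase k, w l) *
        (Real.log ‖β - b‖ * (wd R b - wd R β) - Real.log ‖β - b'‖ * (wd R b' - wd R β)) := by
  have e : G = Function.update G k fun s => (circ R s - b) / (circ R s - b') := by
    rw [← hk, Function.update_eq_self]
  rw [e, pairing_cons_div ((one_lin hR hβ).good k) hG k (one_lin hR hb) (one_lin hR hb'),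
    pairing_lin hR hβ hb hG, pairing_lin hR hβ hb' hG]
  ring

theorem pairing_one (hG : ∀ l, One (G l) (w l)) :
    pairing (Fin.cons (fun _ => 1) (vf G)) = 0 := by
  rw [pairing_const _ _ _ hG]
  simp

theorem good_prod {ι : Type*} (s : Finset ι) {F : ι → (Fin d → ℝ) → ℂ} (hF : ∀ j, Good (F j)) :
    Good fun θ => ∏ j ∈ s, F j θ :=
  ⟨contDiff_prod fun j _ => (hF j).smooth, fun θ => Finset.prod_ne_zero_iff.2 fun j _ =>
    (hF j).ne_zero θ⟩

theorem pairing_prod {ι : Type*} [DecidableEq ι] (s : Finset ι) {F : ι → (Fin d → ℝ) → ℂ}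
    (hF : ∀ j, Good (F j)) (hG : ∀ l, One (G l) (w l)) :
    pairing (Fin.cons (fun θ => ∏ j ∈ s, F j θ) (vf G)) =
      ∑ j ∈ s, pairing (Fin.cons (F j) (vf G)) := by
  induction s using Finset.induction_on with
  | empty => simpa using pairing_one hG
  | insert j s hj ih =>
    simp only [Finset.prod_insert hj]
    have hv : ∀ l, Good (vf G l) := fun l => (hG l).good l
    rw [pairing_cons_mul (hF j) (good_prod s hF) hv, ih,
      Finset.sum_insert hj]

end exact

end Pool.Agent.TH826.MK
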