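import Pool.Agent.TH826.MK.Sep
import Pool.Agent.TH826.MK.LinA
set_option autoImplicit false

/-!
Nonvanishing of the regulator determinant.
-/

namespace Pool.Agent.TH826.MK

section wU

variable {K : Type*} [Field K] {d : ℕ} {r : Fin d → ℕ} {σ : K →+* ℂ} {D : Data K r} {c : ℝ}

/-- the radii of the torus with index `t` -/
noncomputable def rd (σ : K →+* ℂ) (D : Data K r) (t : ∀ k, Fin (r k)) (k : Fin d) :
    ℝ := rad (fun j => σ (D.a k j)) (t k)

/-- the norms of the largest roots -/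
noncomputable def Nd (σ : K →+* ℂ) (D : Data K r) (k : Fin d) : ℝ :=
  ‖σ (D.a k (Fin.last _))‖

theorem wU_eq (hs : ∀ k, Sep c fun j => σ (D.a k j)) (hc : 4 ≤ c) (t i : ∀ k, Fin (r k))
    (l : Fin d) : wU σ D (rd σ D t) i l = if i l = t l then 1 else 0 := by
  unfold wU rd
  have h1 := (hs l).wd_eq hc (t l) (i l).castSucc
  have h2 := (hs l).wd_eq hc (t l) (i l).succ
  rw [h1, h2]
  by_cases h : i l = t l
  · have h3 : ¬ (t l).succ ≤ (t l).castSucc := not_le.2 Fin.castSucc_lt_succ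
    rw [h, if_pos (le_refl _), if_neg h3, if_pos rfl]
    norm_num
  · rw [if_neg h]
    rcases lt_or_gt_of_ne h with h4 | h4
    · have h5 : (i l).castSucc ≤ (t l).castSucc := Fin.castSucc_le_castSucc_iff.2 h4.le
      have h6 : (i l).succ ≤ (t l).castSucc := by
        rw [Fin.le_def]
        simp only [Fin.val_succ, Fin.val_castSucc]
        exact h4
      rw [if_pos h5, if_pos h6]
      norm_num
    · have h5 : ¬ (i l).castSucc ≤ (t l).castSucc :=
        not_le.2 (Fin.castSucc_lt_castSucc_iff.2 h4)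
      have h6 : ¬ (i l).succ ≤ (t l).castSucc :=
        not_le.2 ((Fin.castSucc_lt_castSucc_iff.2 h4).trans Fin.castSucc_lt_succ)
      rw [if_neg h5, if_neg h6]
      norm_num

theorem prod_wU_self (hs : ∀ k, Sep c fun j => σ (D.a k j)) (hc : 4 ≤ c) (t : ∀ k, Fin (r k))
    (s : Finset (Fin d)) : ∏ l ∈ s, wU σ D (rd σ D t) t l = 1 := by
  refine Finset.prod_eq_one fun l _ => ?_
  rw [wU_eq hs hc, if_pos rfl]

/-- the main term for different indices -/
theorem main_ne (hs : ∀ k, Sep c fun j => σ (D.a k j)) (hc : 4 ≤ c) (t i : ∀ k, Fin (r k))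
    {k0 : Fin d} (hk0 : i k0 ≠ t k0) (x : ℝ) (g : Fin d → ℝ) :
    x * (∏ l, wU σ D (rd σ D t) i l) +
        ∑ k, (∏ l ∈ Finset.univ.erase k, wU σ D (rd σ D t) i l) * g k =
      (if ∀ l, l ≠ k0 → i l = t l then 1 else 0) * g k0 := by
  have h0 : wU σ D (rd σ D t) i k0 = 0 := by rw [wU_eq hs hc, if_neg hk0]
  rw [Finset.prod_eq_zero (Finset.mem_univ k0) h0, mul_zero, zero_add,
    Finset.sum_eq_single k0]
  · congr 1
    split_ifs with h
    · refine Finset.prod_eq_one fun l hl => ?_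
      rw [wU_eq hs hc, if_pos (h l (Finset.ne_of_mem_erase hl))]
    · push Not at h
      obtain ⟨l, hl1, hl2⟩ := h
      refine Finset.prod_eq_zero (Finset.mem_erase.2 ⟨hl1, Finset.mem_univ l⟩) ?_
      rw [wU_eq hs hc, if_neg hl2]
  · intro k _ hk
    rw [Finset.prod_eq_zero (Finset.mem_erase.2 ⟨Ne.symm hk, Finset.mem_univ k0⟩) h0, zero_mul]
  · intro h
    exact absurd (Finset.mem_univ k0) h

end wU

/-- The determinant of the regulators does not vanish. -/
theorem exists_tori (d : ℕ) (hd : 0 < d) (r : Fin d → ℕ) :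
    ∃ c : ℝ, 8 ≤ c ∧ ∀ {K : Type*} [Field K] (σ : K →+* ℂ) (D : Data K r), 1 ≤ ‖σ D.lam‖ → (∀ k, Sep c fun j => σ (D.a k j)) →
      ∃ (R : (∀ k, Fin (r k)) → Fin d → ℝ) (hx : ∀ t θ, GoodPt σ D (tpt (R t) θ)),
        (Matrix.of fun t i : ∀ k, Fin (r k) => (mkTorus (R t) (hx t)).reg
          (symb (ent D i))).det ≠ 0 := by
  classical
  set ρ : ℝ := ∑ k, (r k : ℝ) + 1 with hρdef
  have hρ : ∀ k, (r k : ℝ) + 1 ≤ ρ := by
    intro k
    have := Finset.single_le_sum (f := fun k => (r k : ℝ)) (fun k _ => Nat.cast_nonneg _)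
      (Finset.mem_univ k)
    rw [hρdef]
    linarith
  have hρ1 : 1 ≤ ρ := by
    have : 0 ≤ ∑ k, (r k : ℝ) := Finset.sum_nonneg fun k _ => Nat.cast_nonneg _
    rw [hρdef]
    linarith
  set n : ℕ := Fintype.card (∀ k, Fin (r k)) with hn
  set B : ℝ := 2 * ρ + 1 with hB
  set S : ℝ := n + n.factorial * B ^ n with hS
  have hB2 : 2 ≤ B := by rw [hB]; linarith
  have hS0 : 0 < S := by
    have : 0 < (n.factorial : ℝ) * B ^ n := by
      have := Nat.factorial_pos n
      positivity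
    have h2 : 0 ≤ (n : ℝ) := Nat.cast_nonneg n
    rw [hS]
    linarith
  set δ : ℝ := 1 / (S + 1) with hδdef
  have hδ : 0 < δ := by rw [hδdef]; positivity
  have hδ1 : δ ≤ 1 := by
    rw [hδdef, div_le_one (by positivity)]
    linarith
  have hsmall : (n : ℝ) * δ + (n.factorial * B ^ n) * δ < 1 := by
    rw [← add_mul, ← hS, hδdef, mul_one_div, div_lt_one (by positivity)]
    linarith
  set A1 : ℝ := (d + 1).factorial * (32 * Real.pi * ρ * (64 * Real.pi) ^ d) with hA1
  have hpi := Real.pi_gt_three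
  have hA10 : 0 < A1 := by
    have := Nat.factorial_pos (d + 1)
    rw [hA1]
    positivity
  set c : ℝ := 8 + 2 * A1 / δ + 8 * ρ / δ with hcdef
  have hc8 : 8 ≤ c := by
    have h1 : 0 ≤ 2 * A1 / δ := by positivity
    have h2 : 0 ≤ 8 * ρ / δ := by positivity
    rw [hcdef]
    linarith
  have hc4 : (4 : ℝ) ≤ c := by linarith
  have hc0 : 0 < c := by linarith
  have hcA : A1 / c ≤ δ / 2 := by
    have h2 : 0 ≤ 8 * ρ / δ := by positivity
    have h3 : 2 * A1 / δ ≤ c := by rw [hcdef]; linarith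
    rw [div_le_iff₀ hδ] at h3
    rw [div_le_div_iff₀ hc0 (by norm_num)]
    linarith
  have hcρ : ρ * (4 / c) ≤ δ / 2 := by
    have h2 : 0 ≤ 2 * A1 / δ := by positivity
    have h3 : 8 * ρ / δ ≤ c := by rw [hcdef]; linarith
    rw [div_le_iff₀ hδ] at h3
    rw [← mul_div_assoc, div_le_div_iff₀ hc0 (by norm_num)]
    linarith
  refine ⟨c, hc8, ?_⟩
  intro K _ σ D hl hs
  have hl0 : σ D.lam ≠ 0 := by
    intro h
    rw [h, norm_zero] at hl
    linarith
  set R := rd σ D with hR
  have hfar : ∀ t k i, Far (R t k) (Nd σ D k) (σ (D.a k i)) := fun t k i =>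
    (hs k).far hc4 (t k) i
  have hRN : ∀ t k, 2 * R t k ≤ ‖σ (D.a k (Fin.last _))‖ := fun t k =>
    (hs k).rad_le_last hc4 (t k)
  have hNc : ∀ k, c ≤ Nd σ D k := fun k => (hs k).le (by linarith) (Fin.last _)
  set P : ℝ := ∏ k, (Nd σ D k / 2) with hP
  have hPge : c / 2 ≤ P := by
    rw [hP, ← Finset.mul_prod_erase _ _ (Finset.mem_univ (⟨0, hd⟩ : Fin d))]
    have h1 : 1 ≤ ∏ k ∈ Finset.univ.erase (⟨0, hd⟩ : Fin d), (Nd σ D k / 2) :=
      Finset.one_le_prod fun k _ => by linarith [hNc k]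
    have h2 := hNc ⟨0, hd⟩
    nlinarith
  have hP4 : 4 ≤ P := by linarith
  have hPhi : ∀ t θ, P ≤ ‖PhiT σ D (R t) θ‖ := fun t θ =>
    norm_PhiT_ge (hfar t) hl (hRN t) θ
  have hPhi4 : ∀ t θ, 4 ≤ ‖PhiT σ D (R t) θ‖ := fun t θ => hP4.trans (hPhi t θ)
  have hx : ∀ t θ, GoodPt σ D (tpt (R t) θ) := fun t θ => goodPt (hfar t) (hPhi4 t) θ
  refine ⟨R, hx, ?_⟩
  -- the error term
  have herr : ∀ t i, |pairing (Fin.cons (fun θ => MK.hs (PhiT σ D (R t) θ))
      (vf (U σ D (R t) i)))| ≤ δ / 2 := by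
    intro t i
    refine (abs_error_le (hfar t) hl hP4 (hPhi t) hρ hρ1 (fun k => ?_) i).trans ?_
    · have := hRN t k
      have := (hfar t k 0).pos
      show R t k ≤ ‖σ (D.a k (Fin.last _))‖
      linarith
    · refine le_trans ?_ hcA
      have hN0 : ∀ k, 0 < Nd σ D k := fun k => by linarith [hNc k]
      have hprod : ∏ k, Nd σ D k = 2 ^ d * P := by
        rw [hP, Finset.prod_div_distrib, Finset.prod_const, Finset.card_univ, Fintype.card_fin]
        field_simp
      have e1 : ∏ k, (16 * Real.pi * Nd σ D k) = (16 * Real.pi) ^ d * (2 ^ d * P) := by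
        rw [Finset.prod_mul_distrib, Finset.prod_const, Finset.card_univ, Fintype.card_fin,
          hprod]
      have hcP : c ≤ 2 ^ d * P := by
        have : (2 : ℝ) ≤ 2 ^ d := by
          calc (2 : ℝ) = 2 ^ 1 := (pow_one 2).symm
            _ ≤ 2 ^ d := pow_le_pow_right₀ (by norm_num) hd
        nlinarith
      rw [e1, hA1]
      have hP0 : 0 < P := by linarith
      have e2 : 32 * Real.pi * ρ / P ^ 2 * ((16 * Real.pi) ^ d * (2 ^ d * P)) =
          32 * Real.pi * ρ * (64 * Real.pi) ^ d / (2 ^ d * P) := by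
        have : (64 * Real.pi) ^ d = (16 * Real.pi) ^ d * (2 ^ d * 2 ^ d) := by
          rw [← mul_pow, ← mul_pow]
          congr 1
          ring
        rw [this]
        field_simp
      rw [e2]
      calc ((d + 1).factorial : ℝ) * (32 * Real.pi * ρ * (64 * Real.pi) ^ d / (2 ^ d * P)) ≤
          (d + 1).factorial * (32 * Real.pi * ρ * (64 * Real.pi) ^ d / c) := by
            refine mul_le_mul_of_nonneg_left ?_ (Nat.cast_nonneg _)
            exact div_le_div_of_nonneg_left (by positivity) hc0 hcP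
        _ = _ := by ring
  set T : ℝ := (2 * Real.pi) ^ d with hT
  have hT1 : 1 ≤ T := one_le_pow₀ (by linarith)
  set G : (∀ k, Fin (r k)) → (∀ k, Fin (r k)) → Fin d → ℝ := fun t i k =>
    Gm (fun j => σ (D.a k j)) (R t k) (i k) with hG
  have hval : ∀ t i, (mkTorus (R t) (hx t)).reg (symb (ent D i)) =
      T * (Real.log ‖σ D.lam‖ * (∏ l, wU σ D (R t) i l) +
        ∑ k, (∏ l ∈ Finset.univ.erase k, wU σ D (R t) i l) * G t i k) +
      pairing (Fin.cons (fun θ => MK.hs (PhiT σ D (R t) θ)) (vf (U σ D (R t) i))) := by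
    intro t i
    rw [Torus.reg_symb]
    exact pair_eq (hfar t) hl0 (hPhi4 t) (hx t) i
  have hlog : 0 ≤ Real.log ‖σ D.lam‖ := Real.log_nonneg hl
  have hGself : ∀ t k, 1 ≤ G t t k := by
    intro t k
    have h1 := (hs k).Gm_self hc4 (t k) (j := (t k).succ) (le_refl _)
    have h2 := (hs k).le (by linarith) (t k).succ
    have h3 : 1 ≤ Real.log (‖σ (D.a k (t k).succ)‖ / 2) := by
      have h4 : Real.log 4 ≤ Real.log (‖σ (D.a k (t k).succ)‖ / 2) := by
        refine Real.log_le_log (by norm_num) ?_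
        linarith
      have h5 : Real.log 4 = 2 * Real.log 2 := by
        rw [show (4 : ℝ) = 2 ^ 2 by norm_num, Real.log_pow]
        norm_num
      have h6 := Real.log_two_gt_d9
      linarith
    exact h3.trans h1
  set W : (∀ k, Fin (r k)) → ℝ := fun t => T * (Real.log ‖σ D.lam‖ + ∑ k, G t t k) with hW
  have hGD : ∀ t k, T * G t t k ≤ W t := by
    intro t k
    have := Finset.single_le_sum (f := fun k => G t t k)
      (fun k _ => zero_le_one.trans (hGself t k)) (Finset.mem_univ k)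
    refine mul_le_mul_of_nonneg_left ?_ (by linarith)
    linarith
  have hTD : ∀ t, T ≤ W t := by
    intro t
    have h1 := hGD t ⟨0, hd⟩
    have h2 : T * 1 ≤ T * G t t ⟨0, hd⟩ :=
      mul_le_mul_of_nonneg_left (hGself t ⟨0, hd⟩) (by linarith)
    linarith
  have hne : ∀ (t i : ∀ k, Fin (r k)), i ≠ t → ∃ k0, i k0 ≠ t k0 := fun t i h =>
    Function.ne_iff.1 h
  have hGlt : ∀ (t i : ∀ k, Fin (r k)) k0, i k0 < t k0 → |G t i k0| ≤ δ / 2 := by
    intro t i k0 h
    refine ((hs k0).Gm_lt hc4 h).trans (le_trans ?_ hcρ)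
    exact mul_le_mul_of_nonneg_right (hρ k0) (by positivity)
  have hGgt : ∀ (t i : ∀ k, Fin (r k)) k0, t k0 < i k0 → |G t i k0| ≤ 2 * ρ * G t t k0 := by
    intro t i k0 h
    refine ((hs k0).Gm_gt hc8 h).trans ?_
    refine mul_le_mul_of_nonneg_right ?_ (zero_le_one.trans (hGself t k0))
    linarith [hρ k0]
  refine det_ne_zero_of_near (fun t => ∑ k, (t k : ℕ)) hB2 hδ hδ1 hsmall _ W
    (fun t => by linarith [hTD t]) ?_ ?_ ?_
  · intro t
    rw [Matrix.of_apply, hval, prod_wU_self hs hc4]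
    have e : ∑ k, (∏ l ∈ Finset.univ.erase k, wU σ D (R t) t l) * G t t k = ∑ k, G t t k := by
      refine Finset.sum_congr rfl fun k _ => ?_
      rw [prod_wU_self hs hc4, one_mul]
    rw [e, mul_one]
    have h1 := herr t t
    have h2 := hTD t
    simp only [hW] at h2 ⊢
    rw [add_sub_cancel_left]
    refine h1.trans ?_
    calc δ / 2 ≤ δ * 1 := by linarith
      _ ≤ _ := mul_le_mul_of_nonneg_left (hT1.trans h2) hδ.le
  · intro t i hit hh
    obtain ⟨k0, hk0⟩ := hne t i hit
    rw [Matrix.of_apply, hval, main_ne hs hc4 t i hk0]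
    have h1 := herr t i
    have h2 := hTD t
    have h3 : |T * ((if ∀ l, l ≠ k0 → i l = t l then (1 : ℝ) else 0) * G t i k0)| ≤
        T * (δ / 2) := by
      split_ifs with h
      · rw [one_mul, abs_mul, abs_of_nonneg (by linarith : (0 : ℝ) ≤ T)]
        refine mul_le_mul_of_nonneg_left (hGlt t i k0 ?_) (by linarith)
        have h4 : ∑ k ∈ Finset.univ.erase k0, (i k : ℕ) = ∑ k ∈ Finset.univ.erase k0, (t k : ℕ) :=
          Finset.sum_congr rfl fun k hk => by rw [h k (Finset.ne_of_mem_erase hk)]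
        have h5 : ∑ k, (i k : ℕ) ≤ ∑ k, (t k : ℕ) := hh
        rw [← Finset.add_sum_erase _ _ (Finset.mem_univ k0),
          ← Finset.add_sum_erase _ _ (Finset.mem_univ k0), h4] at h5
        have h6 : (i k0 : ℕ) ≤ (t k0 : ℕ) := by omega
        exact lt_of_le_of_ne h6 hk0
      · rw [zero_mul, mul_zero, abs_zero]
        positivity
    refine (abs_add_le _ _).trans ?_
    have a1 : δ / 2 * T ≤ δ / 2 * W t := mul_le_mul_of_nonneg_left h2 (by linarith)
    have a2 : δ / 2 * 1 ≤ δ / 2 * W t := mul_le_mul_of_nonneg_left (hT1.trans h2) (by linarith)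
    have a3 : T * (δ / 2) = δ / 2 * T := mul_comm _ _
    have a4 : δ * W t = δ / 2 * W t + δ / 2 * W t := by ring
    linarith
  · intro t i hit
    obtain ⟨k0, hk0⟩ := hne t i hit
    rw [Matrix.of_apply, hval, main_ne hs hc4 t i hk0]
    have h1 := herr t i
    have h2 := hTD t
    have h3 : |T * ((if ∀ l, l ≠ k0 → i l = t l then (1 : ℝ) else 0) * G t i k0)| ≤
        2 * ρ * W t := by
      split_ifs with h
      · rw [one_mul, abs_mul, abs_of_nonneg (by linarith : (0 : ℝ) ≤ T)]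
        rcases lt_or_gt_of_ne hk0 with h4 | h4
        · have h5 := hGlt t i k0 h4
          have h6 : T * |G t i k0| ≤ T * 1 :=
            mul_le_mul_of_nonneg_left (by linarith) (by linarith)
          have h7 : 1 * W t ≤ 2 * ρ * W t :=
            mul_le_mul_of_nonneg_right (by linarith) (by linarith)
          linarith
        · have h5 := hGgt t i k0 h4
          have h6 : T * |G t i k0| ≤ T * (2 * ρ * G t t k0) :=
            mul_le_mul_of_nonneg_left h5 (by linarith)
          have h7 := mul_le_mul_of_nonneg_left (hGD t k0) (by linarith : (0 : ℝ) ≤ 2 * ρ)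
          have h8 : T * (2 * ρ * G t t k0) = 2 * ρ * (T * G t t k0) := by ring
          linarith
      · rw [zero_mul, mul_zero, abs_zero]
        have : 0 ≤ W t := by linarith
        positivity
    refine (abs_add_le _ _).trans ?_
    have e : B * W t = 2 * ρ * W t + W t := by rw [hB]; ring
    rw [e]
    linarith

end Pool.Agent.TH826.MK
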