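import Pool.Agent.TH826.MK.Stokes
import Pool.Agent.W367.KT.Dilog
set_option autoImplicit false

/-!
The rows `∇ (t log |g| + i arg g)` attached to a nonvanishing function `g` on `ℝ^d`, their
derivatives, and the primitive of the two-form of a Steinberg pair `g, 1 - g`.
-/

namespace Pool.Agent.TH826.MK

open MeasureTheory Set

variable {d : ℕ}

/-- The projection `(t, θ) ↦ θ`. -/
noncomputable def tl (d : ℕ) : (Fin (d + 1) → ℝ) →L[ℝ] (Fin d → ℝ) :=
  ContinuousLinearMap.pi fun i => ContinuousLinearMap.proj i.succ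

@[simp] theorem tl_apply (y : Fin (d + 1) → ℝ) (i : Fin d) : tl d y i = y i.succ := rfl

theorem tl_single_zero : tl d (Pi.single 0 1) = 0 := by
  funext i
  simp [Fin.succ_ne_zero]

theorem tl_single_succ (k : Fin d) : tl d (Pi.single k.succ 1) = Pi.single k 1 := by
  funext i
  rw [tl_apply]
  by_cases h : i = k
  · subst h; simp
  · rw [Pi.single_eq_of_ne h, Pi.single_eq_of_ne (fun e => h (Fin.succ_injective _ e))]

/-- The logarithmic partial derivative `∂_i g / g`. -/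
noncomputable def lw (g : (Fin d → ℝ) → ℂ) (i : Fin d) (θ : Fin d → ℝ) : ℂ :=
  fderiv ℝ g θ (Pi.single i 1) / g θ

/-- The row `∇ (t log |g| + i arg g)` at the point `y = (t, θ)`. -/
noncomputable def grow (g : (Fin d → ℝ) → ℂ) (y : Fin (d + 1) → ℝ) : Fin (d + 1) → ℂ :=
  Fin.cons ((Real.log ‖g (tl d y)‖ : ℝ) : ℂ) fun i =>
    ((y 0 * (lw g i (tl d y)).re : ℝ) : ℂ) + Complex.I * ((lw g i (tl d y)).im : ℝ)

@[simp] theorem grow_zero (g : (Fin d → ℝ) → ℂ) (y : Fin (d + 1) → ℝ) :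
    grow g y 0 = ((Real.log ‖g (tl d y)‖ : ℝ) : ℂ) := rfl

@[simp] theorem grow_succ (g : (Fin d → ℝ) → ℂ) (y : Fin (d + 1) → ℝ) (i : Fin d) :
    grow g y i.succ = ((y 0 * (lw g i (tl d y)).re : ℝ) : ℂ) +
      Complex.I * ((lw g i (tl d y)).im : ℝ) := rfl

section deriv

variable {E : Type*} [NormedAddCommGroup E] [NormedSpace ℝ E]

theorem hasFDerivAt_logNorm {g : E → ℂ} {g' : E →L[ℝ] ℂ} {x : E} (hg : HasFDerivAt g g' x)
    (h0 : g x ≠ 0) :
    HasFDerivAt (fun y => Real.log ‖g y‖) (Complex.reCLM.comp ((g x)⁻¹ • g')) x := by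
  have hsl : (g x)⁻¹ * g x ∈ Complex.slitPlane := by rw [inv_mul_cancel₀ h0]; simp
  have h1 : HasFDerivAt (fun y => (g x)⁻¹ * g y) ((g x)⁻¹ • g') x := hg.const_mul _
  have h2 : HasFDerivAt (fun y => Complex.log ((g x)⁻¹ * g y)) ((g x)⁻¹ • g') x := by
    have := (Complex.hasStrictFDerivAt_log_real hsl).hasFDerivAt.comp x h1
    refine this.congr_fderiv ?_
    ext v
    simp [inv_mul_cancel₀ h0]
  have h3 := Complex.reCLM.hasFDerivAt.comp x h2
  have h4 : HasFDerivAt (fun y => (Complex.log ((g x)⁻¹ * g y)).re + Real.log ‖g x‖)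
      (Complex.reCLM.comp ((g x)⁻¹ • g')) x := h3.add_const _
  refine h4.congr_of_eventuallyEq ?_
  filter_upwards [hg.continuousAt.eventually_ne h0] with s hs
  rw [Complex.log_re, norm_mul, norm_inv, Real.log_mul (inv_ne_zero (norm_ne_zero_iff.2 h0))
    (norm_ne_zero_iff.2 hs), Real.log_inv]
  ring

open Pool.Agent.W367.KT in
theorem hasFDerivAt_D1 {u : E → ℂ} {u' : E →L[ℝ] ℂ} {x : E} (hu : HasFDerivAt u u' x)
    (h0 : u x ≠ 0) (h1 : u x ∈ S1) : DifferentiableAt ℝ (fun s => D1 (u s)) x := by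
  have hL : HasFDerivAt (fun s => Li (u s)) (gfun (u x) • u') x :=
    (hasDerivAt_Li h1).comp_hasFDerivAt x hu
  have hL' : DifferentiableAt ℝ (fun s => (Li (u s)).im) x :=
    (Complex.imCLM.hasFDerivAt.comp x hL).differentiableAt
  have hA : HasFDerivAt (fun s => 1 - u s) (-u') x := by simpa using hu.const_sub 1
  have hA2 := (Complex.hasStrictFDerivAt_log_real (x := 1 - u x) h1).hasFDerivAt.comp x hA
  have hA' : DifferentiableAt ℝ (fun s => (Complex.log (1 - u s)).im) x :=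
    (Complex.imCLM.hasFDerivAt.comp x hA2).differentiableAt
  exact hL'.add (hA'.mul (hasFDerivAt_logNorm hu h0).differentiableAt)

open Pool.Agent.W367.KT in
theorem differentiableAt_BW {u : E → ℂ} {u' : E →L[ℝ] ℂ} {x : E} (hu : HasFDerivAt u u' x)
    (h0 : u x ≠ 0) (h1 : u x ≠ 1) : DifferentiableAt ℝ (fun s => BW (u s)) x := by
  by_cases h : u x ∈ S1
  · refine (hasFDerivAt_D1 hu h0 h).congr_of_eventuallyEq ?_
    filter_upwards [hu.continuousAt.preimage_mem_nhds (isOpen_S1.mem_nhds h)] with s hs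
    exact if_pos hs
  · have h2 := mem_S2_of_not_mem_S1 h1 h
    have hi : DifferentiableAt ℝ (fun s => (u s)⁻¹) x := hu.differentiableAt.inv h0
    have h3 : DifferentiableAt ℝ (fun s => D2 (u s)) x :=
      (hasFDerivAt_D1 hi.hasFDerivAt (inv_ne_zero h0) h2.2).neg
    refine h3.congr_of_eventuallyEq ?_
    filter_upwards [hu.continuousAt.preimage_mem_nhds (isOpen_S2.mem_nhds h2)] with s hs
    unfold BW
    split_ifs with hS
    · exact D1_eq_D2 (mem_neg_slit_of hS hs)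
    · rfl

open Pool.Agent.W367.KT in
theorem fderiv_BW {u : E → ℂ} {u' : E →L[ℝ] ℂ} {x : E} (hu : HasFDerivAt u u' x)
    (h0 : u x ≠ 0) (h1 : u x ≠ 1) (v : E) :
    fderiv ℝ (fun s => BW (u s)) x v = eta (u x) (u' v) := by
  have h2 := (differentiableAt_BW hu h0 h1).hasFDerivAt
  have hl : HasDerivAt (fun s : ℝ => x + s • v) v 0 := by
    simpa using (((hasDerivAt_id (0 : ℝ)).smul_const v).const_add x)
  have hx : x + (0 : ℝ) • v = x := by simp
  have h3 : HasDerivAt (fun s : ℝ => BW (u (x + s • v))) (fderiv ℝ (fun s => BW (u s)) x v) 0 := by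
    have h2' : HasFDerivAt (fun s => BW (u s)) (fderiv ℝ (fun s => BW (u s)) x) (x + (0 : ℝ) • v) := by
      rw [hx]; exact h2
    exact h2'.comp_hasDerivAt (0 : ℝ) hl
  have h4 : HasDerivAt (fun s : ℝ => u (x + s • v)) (u' v) 0 := by
    have hu' : HasFDerivAt u u' (x + (0 : ℝ) • v) := by rw [hx]; exact hu
    exact hu'.comp_hasDerivAt (0 : ℝ) hl
  have h5 := hasDerivAt_BW h4 (by rw [hx]; exact h0) (by rw [hx]; exact h1)
  rw [hx] at h5
  exact h3.unique h5

end deriv

section rows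

variable {g : (Fin d → ℝ) → ℂ}

/-- the coordinate `t` -/
noncomputable def pr0 (d : ℕ) : (Fin (d + 1) → ℝ) →L[ℝ] ℝ := ContinuousLinearMap.proj 0

@[simp] theorem pr0_apply (v : Fin (d + 1) → ℝ) : pr0 d v = v 0 := rfl

/-- the derivative of `log |g|` -/
noncomputable def dlog (g : (Fin d → ℝ) → ℂ) (θ : Fin d → ℝ) : (Fin d → ℝ) →L[ℝ] ℝ :=
  Complex.reCLM.comp ((g θ)⁻¹ • fderiv ℝ g θ)

theorem dlog_single (g : (Fin d → ℝ) → ℂ) (θ : Fin d → ℝ) (k : Fin d) :
    dlog g θ (Pi.single k 1) = (lw g k θ).re := by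
  unfold dlog lw
  rw [div_eq_inv_mul]
  rfl

/-- the derivative of `lw g i` -/
noncomputable def lw' (g : (Fin d → ℝ) → ℂ) (i : Fin d) (θ : Fin d → ℝ) : (Fin d → ℝ) →L[ℝ] ℂ :=
  (g θ)⁻¹ • ((fderiv ℝ (fderiv ℝ g) θ).flip (Pi.single i 1)) -
    (fderiv ℝ g θ (Pi.single i 1) * ((g θ) ^ 2)⁻¹) • fderiv ℝ g θ

theorem hasFDerivAt_lw (hg : ContDiff ℝ 2 g) (h0 : ∀ θ, g θ ≠ 0) (i : Fin d) (θ : Fin d → ℝ) :
    HasFDerivAt (lw g i) (lw' g i θ) θ := by
  have h1 : HasFDerivAt g (fderiv ℝ g θ) θ := ((hg.differentiable (by norm_num)) θ).hasFDerivAt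
  have h2 : HasFDerivAt (fderiv ℝ g) (fderiv ℝ (fderiv ℝ g) θ) θ :=
    (((hg.fderiv_right (m := 1) (by norm_num)).differentiable (by norm_num)) θ).hasFDerivAt
  have h3 : HasFDerivAt (fun x => fderiv ℝ g x (Pi.single i 1))
      ((fderiv ℝ (fderiv ℝ g) θ).flip (Pi.single i 1)) θ := by
    have := h2.clm_apply (hasFDerivAt_const (Pi.single i (1:ℝ) : Fin d → ℝ) θ)
    refine this.congr_fderiv ?_
    ext v
    simp
  have hi : HasFDerivAt (fun x => (g x)⁻¹) ((-((g θ) ^ 2)⁻¹) • fderiv ℝ g θ) θ :=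
    (hasDerivAt_inv (h0 θ)).comp_hasFDerivAt θ h1
  have h4 := h3.mul hi
  have e : lw g i = fun x => fderiv ℝ g x (Pi.single i 1) * (g x)⁻¹ := by
    funext x
    simp [lw, div_eq_mul_inv]
  rw [e]
  refine h4.congr_fderiv ?_
  ext v
  simp [lw']
  ring

theorem lw'_symm (hg : ContDiff ℝ 2 g) (i j : Fin d) (θ : Fin d → ℝ) :
    lw' g i θ (Pi.single j 1) = lw' g j θ (Pi.single i 1) := by
  have hs : IsSymmSndFDerivAt ℝ g θ := hg.contDiffAt.isSymmSndFDerivAt (by simp)
  have := hs (Pi.single j 1) (Pi.single i 1)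
  simp only [lw', ContinuousLinearMap.sub_apply, ContinuousLinearMap.smul_apply,
    ContinuousLinearMap.flip_apply, smul_eq_mul, this]
  ring

/-- real part of `lw'` -/
noncomputable def relw' (g : (Fin d → ℝ) → ℂ) (i : Fin d) (θ : Fin d → ℝ) :
    (Fin d → ℝ) →L[ℝ] ℝ := Complex.reCLM.comp (lw' g i θ)

/-- imaginary part of `lw'` -/
noncomputable def imlw' (g : (Fin d → ℝ) → ℂ) (i : Fin d) (θ : Fin d → ℝ) :
    (Fin d → ℝ) →L[ℝ] ℝ := Complex.imCLM.comp (lw' g i θ)

theorem relw'_symm (hg : ContDiff ℝ 2 g) (i j : Fin d) (θ : Fin d → ℝ) :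
    relw' g i θ (Pi.single j 1) = relw' g j θ (Pi.single i 1) :=
  congrArg Complex.re (lw'_symm hg i j θ)

theorem imlw'_symm (hg : ContDiff ℝ 2 g) (i j : Fin d) (θ : Fin d → ℝ) :
    imlw' g i θ (Pi.single j 1) = imlw' g j θ (Pi.single i 1) :=
  congrArg Complex.im (lw'_symm hg i j θ)

/-- the derivative of `grow g` -/
noncomputable def grow' (g : (Fin d → ℝ) → ℂ) (y : Fin (d + 1) → ℝ) :
    (Fin (d + 1) → ℝ) →L[ℝ] (Fin (d + 1) → ℂ) :=
  ContinuousLinearMap.pi (Fin.cons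
    (Complex.ofRealCLM.comp ((dlog g (tl d y)).comp (tl d)))
    fun i => Complex.ofRealCLM.comp (y 0 • (relw' g i (tl d y)).comp (tl d) +
        (lw g i (tl d y)).re • pr0 d) +
      Complex.I • Complex.ofRealCLM.comp ((imlw' g i (tl d y)).comp (tl d)))

theorem hasFDerivAt_grow (hg : ContDiff ℝ 2 g) (h0 : ∀ θ, g θ ≠ 0) (y : Fin (d + 1) → ℝ) :
    HasFDerivAt (grow g) (grow' g y) y := by
  rw [hasFDerivAt_pi']
  have hlin : HasFDerivAt (fun y : Fin (d + 1) → ℝ => tl d y) (tl d) y := (tl d).hasFDerivAt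
  intro i
  refine Fin.cases ?_ (fun i => ?_) i
  · have h1 : HasFDerivAt g (fderiv ℝ g (tl d y)) (tl d y) :=
      ((hg.differentiable (by norm_num)) _).hasFDerivAt
    have h2 := (hasFDerivAt_logNorm h1 (h0 _)).comp y hlin
    exact Complex.ofRealCLM.hasFDerivAt.comp y h2
  · have h1 := (hasFDerivAt_lw hg h0 i (tl d y)).comp y hlin
    have hre := Complex.reCLM.hasFDerivAt.comp y h1
    have him := Complex.imCLM.hasFDerivAt.comp y h1
    have hy : HasFDerivAt (fun y : Fin (d + 1) → ℝ => y 0) (pr0 d) y := (pr0 d).hasFDerivAt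
    have h2 := Complex.ofRealCLM.hasFDerivAt.comp y (hy.mul hre)
    have h3 := (Complex.ofRealCLM.hasFDerivAt.comp y him).const_mul Complex.I
    have h4 := h2.add h3
    exact h4

theorem grow'_symm (hg : ContDiff ℝ 2 g) (y : Fin (d + 1) → ℝ) (i j : Fin (d + 1)) :
    grow' g y (Pi.single i 1) j = grow' g y (Pi.single j 1) i := by
  refine Fin.cases ?_ (fun i => ?_) i <;> refine Fin.cases ?_ (fun j => ?_) j
  · rfl
  · simp [grow', tl_single_zero, tl_single_succ, dlog_single]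
  · simp [grow', tl_single_zero, tl_single_succ, dlog_single]
  · simp [grow', tl_single_succ, relw'_symm hg i j, imlw'_symm hg i j]

end rows

section steinberg

variable {f : (Fin d → ℝ) → ℂ}

open Pool.Agent.W367.KT

/-- the function `1 - f` -/
noncomputable def om (f : (Fin d → ℝ) → ℂ) : (Fin d → ℝ) → ℂ := fun θ => 1 - f θ

theorem fderiv_om (hf : ContDiff ℝ 2 f) (θ : Fin d → ℝ) : fderiv ℝ (om f) θ = - fderiv ℝ f θ := by
  unfold om
  have := (((hf.differentiable (by norm_num)) θ).hasFDerivAt.const_sub 1).fderiv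
  simpa using this

/-- The primitive `(t² - 1)/2 (log|f| d log|1-f| - log|1-f| d log|f|) - i D(f) dt`. -/
noncomputable def Pst (f : (Fin d → ℝ) → ℂ) (y : Fin (d + 1) → ℝ) : Fin (d + 1) → ℂ :=
  Fin.cons (-(Complex.I * (BW (f (tl d y)) : ℝ))) fun i =>
    (((y 0 ^ 2 - 1) / 2 * (Real.log ‖f (tl d y)‖ * (lw (om f) i (tl d y)).re -
      Real.log ‖om f (tl d y)‖ * (lw f i (tl d y)).re) : ℝ) : ℂ)

/-- its derivative -/
noncomputable def Pst' (f : (Fin d → ℝ) → ℂ) (y : Fin (d + 1) → ℝ) :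
    (Fin (d + 1) → ℝ) →L[ℝ] (Fin (d + 1) → ℂ) :=
  ContinuousLinearMap.pi (Fin.cons
    (-(Complex.I • Complex.ofRealCLM.comp ((fderiv ℝ (fun s => BW (f s)) (tl d y)).comp (tl d))))
    fun i => Complex.ofRealCLM.comp (
      ((y 0 ^ 2 - 1) / 2) • ((Real.log ‖f (tl d y)‖ • (relw' (om f) i (tl d y)).comp (tl d) +
            (lw (om f) i (tl d y)).re • (dlog f (tl d y)).comp (tl d)) -
          (Real.log ‖om f (tl d y)‖ • (relw' f i (tl d y)).comp (tl d) +
            (lw f i (tl d y)).re • (dlog (om f) (tl d y)).comp (tl d))) +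
      (Real.log ‖f (tl d y)‖ * (lw (om f) i (tl d y)).re -
      Real.log ‖om f (tl d y)‖ * (lw f i (tl d y)).re) • (y 0 • pr0 d)))

theorem contDiff_om (hf : ContDiff ℝ 2 f) : ContDiff ℝ 2 (om f) := contDiff_const.sub hf

theorem hasFDerivAt_Pst (hf : ContDiff ℝ 2 f) (h0 : ∀ θ, f θ ≠ 0) (h1 : ∀ θ, om f θ ≠ 0)
    (y : Fin (d + 1) → ℝ) : HasFDerivAt (Pst f) (Pst' f y) y := by
  have hg := contDiff_om hf
  rw [hasFDerivAt_pi']
  have hlin : HasFDerivAt (fun y : Fin (d + 1) → ℝ => tl d y) (tl d) y := (tl d).hasFDerivAt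
  have hd : HasFDerivAt f (fderiv ℝ f (tl d y)) (tl d y) :=
      ((hf.differentiable (by norm_num)) _).hasFDerivAt
  have hd1 : HasFDerivAt (om f) (fderiv ℝ (om f) (tl d y)) (tl d y) :=
      ((hg.differentiable (by norm_num)) _).hasFDerivAt
  intro i
  refine Fin.cases ?_ (fun i => ?_) i
  · have h2 := (differentiableAt_BW hd (h0 _) (fun e => h1 (tl d y) (by
      unfold om; rw [e, sub_self]))).hasFDerivAt.comp y hlin
    have h3 := ((Complex.ofRealCLM.hasFDerivAt.comp y h2).const_mul Complex.I).neg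
    exact h3
  · have hre := Complex.reCLM.hasFDerivAt.comp y ((hasFDerivAt_lw hf h0 i (tl d y)).comp y hlin)
    have hre1 := Complex.reCLM.hasFDerivAt.comp y ((hasFDerivAt_lw hg h1 i (tl d y)).comp y hlin)
    have hl := (hasFDerivAt_logNorm hd (h0 _)).comp y hlin
    have hl1 := (hasFDerivAt_logNorm hd1 (h1 _)).comp y hlin
    have hy : HasFDerivAt (fun y : Fin (d + 1) → ℝ => (y 0 ^ 2 - 1) / 2)
        (y 0 • pr0 d) y := by
      have h5 : HasFDerivAt (fun y : Fin (d + 1) → ℝ => y 0) (pr0 d) y := (pr0 d).hasFDerivAt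
      have h6 := ((h5.mul h5).sub_const 1).const_mul (1 / 2 : ℝ)
      refine (h6.congr_fderiv ?_).congr_of_eventuallyEq (Filter.Eventually.of_forall fun z => ?_)
      · ext v
        simp
        ring
      · simp
        ring
    have h2 := Complex.ofRealCLM.hasFDerivAt.comp y (hy.mul ((hl.mul hre1).sub (hl1.mul hre)))
    exact h2

theorem lw_prop (hf : ContDiff ℝ 2 f) (i j : Fin d) (θ : Fin d → ℝ) :
    lw f i θ * lw (om f) j θ = lw f j θ * lw (om f) i θ := by
  unfold lw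
  rw [fderiv_om hf]
  simp only [ContinuousLinearMap.neg_apply]
  ring

theorem Pst_symm (hf : ContDiff ℝ 2 f) (h0 : ∀ θ, f θ ≠ 0) (h1 : ∀ θ, om f θ ≠ 0)
    (y : Fin (d + 1) → ℝ) (i j : Fin (d + 1)) :
    Pst' f y (Pi.single i 1) j - grow f y i * grow (om f) y j =
      Pst' f y (Pi.single j 1) i - grow f y j * grow (om f) y i := by
  have hd : HasFDerivAt f (fderiv ℝ f (tl d y)) (tl d y) :=
      ((hf.differentiable (by norm_num)) _).hasFDerivAt
  have hBW : ∀ k : Fin d, fderiv ℝ (fun s => BW (f s)) (tl d y) (Pi.single k 1) =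
      Real.log ‖f (tl d y)‖ * (lw (om f) k (tl d y)).im -
        Real.log ‖om f (tl d y)‖ * (lw f k (tl d y)).im := by
    intro k
    rw [fderiv_BW hd (h0 _) (fun e => h1 (tl d y) (by unfold om; rw [e, sub_self]))]
    unfold eta lw
    rw [fderiv_om hf]
    rfl
  have key : ∀ k : Fin d, Pst' f y (Pi.single 0 1) k.succ - grow f y 0 * grow (om f) y k.succ =
      Pst' f y (Pi.single k.succ 1) 0 - grow f y k.succ * grow (om f) y 0 := by
    intro k
    have e1 : Pst' f y (Pi.single 0 1) k.succ = (((Real.log ‖f (tl d y)‖ *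
        (lw (om f) k (tl d y)).re - Real.log ‖om f (tl d y)‖ * (lw f k (tl d y)).re) * y 0 : ℝ) :
        ℂ) := by
      simp [Pst', tl_single_zero]
    have e2 : Pst' f y (Pi.single k.succ 1) 0 = -(Complex.I *
        (fderiv ℝ (fun s => BW (f s)) (tl d y) (Pi.single k 1) : ℝ)) := by
      simp [Pst', tl_single_succ]
    rw [e1, e2, hBW, grow_zero, grow_zero, grow_succ, grow_succ]
    push_cast
    ring
  refine Fin.cases ?_ (fun i => ?_) i <;> refine Fin.cases ?_ (fun j => ?_) j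
  · rfl
  · exact key j
  · exact (key i).symm
  · have e : ∀ k l : Fin d, Pst' f y (Pi.single k.succ 1) l.succ =
        (((y 0 ^ 2 - 1) / 2 * ((Real.log ‖f (tl d y)‖ * (relw' (om f) l (tl d y)
          (Pi.single k 1)) + (lw (om f) l (tl d y)).re * (lw f k (tl d y)).re) -
        (Real.log ‖om f (tl d y)‖ * (relw' f l (tl d y) (Pi.single k 1)) +
          (lw f l (tl d y)).re * (lw (om f) k (tl d y)).re)) : ℝ) : ℂ) := by
      intro k l
      simp [Pst', tl_single_succ, dlog_single, Fin.succ_ne_zero]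
    rw [e, e, relw'_symm hf i j, relw'_symm (contDiff_om hf) i j]
    simp only [grow_succ]
    have hp := lw_prop hf i j (tl d y)
    have hre := congrArg Complex.re hp
    have him := congrArg Complex.im hp
    simp only [Complex.mul_re, Complex.mul_im] at hre him
    apply Complex.ext
    · simp [-Complex.ofReal_mul, -Complex.ofReal_add, -Complex.ofReal_sub, -Complex.ofReal_div]
      linear_combination (-1 : ℝ) * hre
    · simp [-Complex.ofReal_mul, -Complex.ofReal_add, -Complex.ofReal_sub, -Complex.ofReal_div]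
      linear_combination (-(y 0)) * him

end steinberg

end Pool.Agent.TH826.MK
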