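import Mathlib
set_option autoImplicit false

/-!
Rational Milnor K-groups of commutative rings, and the unramified part of the rational Milnor
K-groups of a field.
-/

namespace Pool.Agent.TH826.MK

open scoped WithZero

section K

variable (A : Type*) [CommRing A] (n : ℕ)

/-- The relations of multilinearity between the symbols `[a_1, ..., a_n]`, `a_i ∈ Aˣ`. -/
def mulRel : Set ((Fin n → Aˣ) →₀ ℚ) :=
  {z | ∃ (a : Fin n → Aˣ) (i : Fin n) (x y : Aˣ),
    z = Finsupp.single (Function.update a i (x * y)) 1 -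
      Finsupp.single (Function.update a i x) 1 - Finsupp.single (Function.update a i y) 1}

/-- The Steinberg relations `[a_1, ..., a_n] = 0` if `a_i + a_j = 1` for some `i < j`. -/
def steinbergRel : Set ((Fin n → Aˣ) →₀ ℚ) :=
  {z | ∃ a : Fin n → Aˣ, (∃ i j, i < j ∧ (a i : A) + (a j : A) = 1) ∧ z = Finsupp.single a 1}

/-- The rational Milnor K-group `K_n^M(A) ⊗ ℚ`: the `ℚ`-vector space generated by the symbols
`[a_1, ..., a_n]`, `a_i ∈ Aˣ`, modulo multilinearity and the Steinberg relations. -/
def KQ : Type _ :=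
  ((Fin n → Aˣ) →₀ ℚ) ⧸ Submodule.span ℚ (mulRel A n ∪ steinbergRel A n)

noncomputable instance : AddCommGroup (KQ A n) :=
  Submodule.Quotient.addCommGroup (Submodule.span ℚ (mulRel A n ∪ steinbergRel A n))

noncomputable instance : Module ℚ (KQ A n) :=
  Submodule.Quotient.module (Submodule.span ℚ (mulRel A n ∪ steinbergRel A n))

variable {A n}

/-- The quotient map. -/
noncomputable def KQ.mkQ : ((Fin n → Aˣ) →₀ ℚ) →ₗ[ℚ] KQ A n :=
  (Submodule.span ℚ (mulRel A n ∪ steinbergRel A n)).mkQ

/-- The symbol `{a_1, ..., a_n}`. -/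
noncomputable def symb (a : Fin n → Aˣ) : KQ A n := KQ.mkQ (Finsupp.single a 1)

theorem KQ.mkQ_eq_zero {z : (Fin n → Aˣ) →₀ ℚ} (h : z ∈ mulRel A n ∪ steinbergRel A n) :
    KQ.mkQ z = 0 :=
  (Submodule.Quotient.mk_eq_zero _).2 (Submodule.subset_span h)

/-- The universal property of `K_n^M(A) ⊗ ℚ`. -/
noncomputable def KQ.lift {V : Type*} [AddCommGroup V] [Module ℚ V] (φ : (Fin n → Aˣ) → V)
    (h1 : ∀ (a : Fin n → Aˣ) (i : Fin n) (x y : Aˣ), φ (Function.update a i (x * y)) =
      φ (Function.update a i x) + φ (Function.update a i y))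
    (h2 : ∀ a : Fin n → Aˣ, (∃ i j, i < j ∧ (a i : A) + (a j : A) = 1) → φ a = 0) :
    KQ A n →ₗ[ℚ] V :=
  (Submodule.span ℚ (mulRel A n ∪ steinbergRel A n)).liftQ (Finsupp.linearCombination ℚ φ) (by
    rw [Submodule.span_le]
    rintro z (⟨a, i, x, y, rfl⟩ | ⟨a, ha, rfl⟩)
    · show Finsupp.linearCombination ℚ φ _ = 0
      simp [h1]
    · show Finsupp.linearCombination ℚ φ _ = 0
      simp [h2 a ha])

theorem KQ.lift_symb {V : Type*} [AddCommGroup V] [Module ℚ V] (φ : (Fin n → Aˣ) → V)
    (h1 : ∀ (a : Fin n → Aˣ) (i : Fin n) (x y : Aˣ), φ (Function.update a i (x * y)) =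
      φ (Function.update a i x) + φ (Function.update a i y))
    (h2 : ∀ a : Fin n → Aˣ, (∃ i j, i < j ∧ (a i : A) + (a j : A) = 1) → φ a = 0)
    (a : Fin n → Aˣ) : KQ.lift φ h1 h2 (symb a) = φ a := by
  show Finsupp.linearCombination ℚ φ (Finsupp.single a 1) = φ a
  simp

theorem symb_eq_zero (a : Fin n → Aˣ) (h : ∃ i j, i < j ∧ (a i : A) + (a j : A) = 1) :
    symb a = 0 :=
  KQ.mkQ_eq_zero (Or.inr ⟨a, h, rfl⟩)

theorem symb_eq_zero' (a : Fin n → Aˣ) {i j : Fin n} (hij : i ≠ j)
    (h : (a i : A) + (a j : A) = 1) : symb a = 0 := by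
  rcases lt_or_gt_of_ne hij with h1 | h1
  · exact symb_eq_zero a ⟨i, j, h1, h⟩
  · exact symb_eq_zero a ⟨j, i, h1, by rw [add_comm]; exact h⟩

theorem symb_update_mul (a : Fin n → Aˣ) (i : Fin n) (x y : Aˣ) :
    symb (Function.update a i (x * y)) = symb (Function.update a i x) +
      symb (Function.update a i y) := by
  have h := KQ.mkQ_eq_zero (A := A) (Or.inl ⟨a, i, x, y, rfl⟩)
  rw [map_sub, map_sub, sub_sub, sub_eq_zero] at h
  exact h

theorem symb_update_zpow (a : Fin n → Aˣ) (i : Fin n) (x : Aˣ) (k : ℤ) :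
    symb (Function.update a i (x ^ k)) = (k : ℚ) • symb (Function.update a i x) := by
  let φ : Additive Aˣ →+ KQ A n := AddMonoidHom.mk'
    (fun z => symb (Function.update a i z.toMul))
    (fun z w => by rw [toMul_add, symb_update_mul])
  have h := map_zsmul φ k (Additive.ofMul x)
  rw [Int.cast_smul_eq_zsmul]
  exact h

variable {A' : Type*} [CommRing A']

/-- The map on rational Milnor K-groups induced by a ring homomorphism. -/
noncomputable def KQ.map (n : ℕ) (f : A →+* A') : KQ A n →ₗ[ℚ] KQ A' n :=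
  KQ.lift (fun a => symb fun i => Units.map (f : A →* A') (a i)) (by
    intro a i x y
    have e : ∀ z : Aˣ, (fun j => Units.map (f : A →* A') (Function.update a i z j)) =
        Function.update (fun j => Units.map (f : A →* A') (a j)) i
          (Units.map (f : A →* A') z) := by
      intro z
      funext j
      by_cases hj : j = i
      · subst hj; simp
      · simp [Function.update_of_ne hj]
    rw [e, e, e, map_mul, symb_update_mul]) (by
    rintro a ⟨i, j, hij, h⟩
    refine symb_eq_zero _ ⟨i, j, hij, ?_⟩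
    show f (a i : A) + f (a j : A) = 1
    rw [← map_add, h, map_one])

theorem KQ.map_symb (f : A →+* A') (a : Fin n → Aˣ) :
    KQ.map n f (symb a) = symb fun i => Units.map (f : A →* A') (a i) := by
  unfold KQ.map
  rw [KQ.lift_symb]

end K

section Unramified

variable {L : Type*} [Field L] {n : ℕ}

/-- The subspace of `K_n^M(L) ⊗ ℚ` generated by the symbols of units of the valuation ring of `v`.
For a discrete valuation `v` this is the kernel of the tame symbol of `v` on `K_n^M(L) ⊗ ℚ`. -/
noncomputable def unitPart (v : Valuation L ℤᵐ⁰) (n : ℕ) : Submodule ℚ (KQ L n) :=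
  Submodule.span ℚ {z | ∃ a : Fin n → Lˣ, (∀ i, v (a i : L) = 1) ∧ z = symb a}

/-- The unramified part of `K_n^M(L) ⊗ ℚ`: the elements whose tame symbols at all discrete
valuations of `L` vanish. -/
noncomputable def Unramified (L : Type*) [Field L] (n : ℕ) : Submodule ℚ (KQ L n) :=
  ⨅ (v : Valuation L ℤᵐ⁰) (_ : Function.Surjective v), unitPart v n

/-- The order of a unit. -/
theorem exists_ord (v : Valuation L ℤᵐ⁰) (a : Lˣ) : ∃ m : ℤ, v (a : L) = WithZero.exp m := by
  have h : v (a : L) ≠ 0 := (Valuation.ne_zero_iff v).2 a.ne_zero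
  exact ⟨WithZero.log (v (a : L)), (WithZero.exp_log h).symm⟩

/-- A symbol with a one-unit among its entries is rationally a combination of symbols of units:
one entry is replaced by a unit. -/
theorem exists_unit_replace (v : Valuation L ℤᵐ⁰) (a : Fin n → Lˣ) {k j : Fin n} (hkj : k ≠ j)
    (hk : v ((a k : L) - 1) < 1) :
    ∃ (g : Lˣ) (q : ℚ), v (g : L) = 1 ∧ symb a = q • (symb (Function.update a j g)) := by
  by_cases h1 : (a k : L) = 1
  · refine ⟨1, 0, by simp, ?_⟩
    have h2 : a k = 1 := Units.ext h1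
    have h3 : symb a = 0 := by
      have h4 := symb_update_zpow a k 1 0
      rw [zpow_zero, Int.cast_zero, zero_smul] at h4
      rwa [← h2, Function.update_eq_self] at h4
    rw [h3, zero_smul]
  · have hb0 : (1 : L) - a k ≠ 0 := sub_ne_zero.2 (Ne.symm h1)
    set b : Lˣ := Units.mk0 (1 - a k) hb0 with hb
    obtain ⟨m, hm⟩ := exists_ord v b
    obtain ⟨r, hr⟩ := exists_ord v (a j)
    have hm0 : m < 0 := by
      have : v (b : L) < 1 := by
        rw [hb, Units.val_mk0, Valuation.map_sub_swap]
        exact hk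
      rw [hm, ← WithZero.exp_zero, WithZero.exp_lt_exp] at this
      exact this
    set g : Lˣ := (a j) ^ m * b ^ (-r) with hg
    have hgv : v (g : L) = 1 := by
      rw [hg, Units.val_mul, Units.val_zpow_eq_zpow_val, Units.val_zpow_eq_zpow_val, map_mul,
        map_zpow₀, map_zpow₀, hm, hr, ← WithZero.exp_zsmul, ← WithZero.exp_zsmul,
        ← WithZero.exp_add, ← WithZero.exp_zero]
      congr 1
      simp only [smul_eq_mul]
      ring
    have hzero : symb (Function.update a j b) = 0 := by
      refine symb_eq_zero' _ hkj ?_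
      rw [Function.update_of_ne hkj, Function.update_self, hb, Units.val_mk0]
      ring
    have hmain : (m : ℚ) • symb a = symb (Function.update a j g) := by
      rw [hg, symb_update_mul, symb_update_zpow, symb_update_zpow, hzero, smul_zero, add_zero,
        Function.update_eq_self]
    refine ⟨g, (m : ℚ)⁻¹, hgv, ?_⟩
    have hm' : (m : ℚ) ≠ 0 := by exact_mod_cast hm0.ne
    rw [← hmain, smul_smul, inv_mul_cancel₀ hm', one_smul]

/-- A symbol with a one-unit among its entries lies in the unit part. -/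
theorem mem_unitPart_of_oneUnit (v : Valuation L ℤᵐ⁰) (k : Fin n) (s : Finset (Fin n)) :
    ∀ a : Fin n → Lˣ, v ((a k : L) - 1) < 1 → (∀ j, j ∉ s → v (a j : L) = 1) → k ∉ s →
      symb a ∈ unitPart v n := by
  classical
  induction s using Finset.induction_on with
  | empty =>
    intro a _ h _
    exact Submodule.subset_span ⟨a, fun i => h i (Finset.notMem_empty i), rfl⟩
  | insert j s hj ih =>
    intro a hk h hks
    have hkj : k ≠ j := fun e => hks (e ▸ Finset.mem_insert_self _ _)
    obtain ⟨g, q, hg, hq⟩ := exists_unit_replace v a hkj hk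
    rw [hq]
    refine Submodule.smul_mem _ _ (ih _ ?_ ?_ ?_)
    · rw [Function.update_of_ne hkj]; exact hk
    · intro i hi
      by_cases hij : i = j
      · subst hij; rw [Function.update_self]; exact hg
      · rw [Function.update_of_ne hij]
        exact h i (by simp [hij, hi])
    · exact fun hh => hks (Finset.mem_insert_of_mem hh)

theorem val_one_of_sub_one {v : Valuation L ℤᵐ⁰} {x : L} (h : v (x - 1) < 1) : v x = 1 := by
  have h2 : x = 1 + (x - 1) := by ring
  rw [h2]
  exact Valuation.map_one_add_of_lt v h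

theorem mem_unitPart_of_oneUnit' (v : Valuation L ℤᵐ⁰) (k : Fin n) (a : Fin n → Lˣ)
    (h : v ((a k : L) - 1) < 1) : symb a ∈ unitPart v n := by
  classical
  refine mem_unitPart_of_oneUnit v k (Finset.univ.erase k) a h (fun j hj => ?_) (by simp)
  have : j = k := by simpa using hj
  subst this
  exact val_one_of_sub_one h

/-- A symbol with an entry, some power of which is a one-unit, lies in the unit part. -/
theorem mem_unitPart_of_pow (v : Valuation L ℤᵐ⁰) (k : Fin n) (a : Fin n → Lˣ) {m : ℕ}
    (hm : m ≠ 0) (h : v (((a k : L)) ^ m - 1) < 1) : symb a ∈ unitPart v n := by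
  have h1 : symb (Function.update a k ((a k) ^ (m : ℤ))) = ((m : ℤ) : ℚ) • symb a := by
    rw [symb_update_zpow, Function.update_eq_self]
  have h2 : symb (Function.update a k ((a k) ^ (m : ℤ))) ∈ unitPart v n := by
    apply mem_unitPart_of_oneUnit' v k
    rw [Function.update_self, zpow_natCast, Units.val_pow_eq_pow_val]
    exact h
  rw [h1] at h2
  have hm' : (((m : ℤ)) : ℚ) ≠ 0 := by exact_mod_cast hm
  have h3 := (unitPart v n).smul_mem ((((m : ℤ)) : ℚ)⁻¹) h2
  rwa [smul_smul, inv_mul_cancel₀ hm', one_smul] at h3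

end Unramified

end Pool.Agent.TH826.MK
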