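import Pool.Agent.TH826.MK.Tori
set_option autoImplicit false

/-!
Evaluation of the regulator integral when all but one entry are functions of one variable.
-/

namespace Pool.Agent.TH826.MK

open MeasureTheory Set

variable {d : ℕ}

section fubini

theorem restrict_Icc (n : ℕ) : (volume : Measure (Fin n → ℝ)).restrict (Icc 0 1) =
    Measure.pi fun _ : Fin n => (volume : Measure ℝ).restrict (Icc 0 1) := by
  rw [← Set.pi_univ_Icc, volume_pi]
  exact Measure.restrict_pi_pi _ _

theorem integral_box_prod (D : Fin d → ℝ → ℝ → ℂ)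
    (hD : ∀ l, Continuous fun p : ℝ × ℝ => D l p.1 p.2) :
    ∫ y in Icc (0 : Fin (d + 1) → ℝ) 1, ∏ l, D l (y 0) (y l.succ) =
      ∫ t in Icc (0 : ℝ) 1, ∏ l, ∫ s in Icc (0 : ℝ) 1, D l t s := by
  rw [restrict_Icc]
  have h := measurePreserving_piFinSuccAbove
    (fun _ : Fin (d + 1) => (volume : Measure ℝ).restrict (Icc 0 1)) 0
  have h2 := h.integral_comp' (fun p : ℝ × (Fin d → ℝ) => ∏ l, D l p.1 (p.2 l))
  have e : ∀ y : Fin (d + 1) → ℝ, (fun p : ℝ × (Fin d → ℝ) => ∏ l, D l p.1 (p.2 l))
      (MeasurableEquiv.piFinSuccAbove (fun _ => ℝ) 0 y) = ∏ l, D l (y 0) (y l.succ) := by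
    intro y
    rfl
  simp only [e] at h2
  rw [h2, integral_prod]
  · refine integral_congr_ae (Filter.Eventually.of_forall fun t => ?_)
    exact integral_fintype_prod_eq_prod fun l s => D l t s
  · rw [← restrict_Icc, Measure.prod_restrict]
    refine ContinuousOn.integrableOn_compact (isCompact_Icc.prod isCompact_Icc) ?_
    refine Continuous.continuousOn ?_
    refine continuous_finsetProd _ fun l _ => ?_
    exact (hD l).comp (continuous_fst.prodMk ((continuous_apply l).comp continuous_snd))

end fubini

section one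

/-- A nonvanishing one-periodic function of one variable with winding number `w`. -/
structure One (G : ℝ → ℂ) (w : ℝ) : Prop where
  smooth : ContDiff ℝ 2 G
  ne_zero : ∀ s, G s ≠ 0
  per : ∀ s, G (s + 1) = G s
  wind : ∫ s in Icc (0 : ℝ) 1, deriv G s / G s = 2 * Real.pi * Complex.I * w

variable {G H : ℝ → ℂ} {v w : ℝ}

theorem One.continuous_ld (h : One G w) : Continuous fun s => deriv G s / G s :=
  (h.smooth.continuous_deriv (by norm_num)).div h.smooth.continuous h.ne_zero

theorem One.div (hG : One G v) (hH : One H w) : One (fun s => G s / H s) (v - w) where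
  smooth := by
    have e : (fun s => G s / H s) = fun s => G s * (H s)⁻¹ := by
      funext s
      rw [div_eq_mul_inv]
    rw [e]
    exact hG.smooth.mul (hH.smooth.inv hH.ne_zero)
  ne_zero s := div_ne_zero (hG.ne_zero s) (hH.ne_zero s)
  per s := by rw [hG.per, hH.per]
  wind := by
    have e : ∀ s, deriv (fun s => G s / H s) s / (G s / H s) = deriv G s / G s -
        deriv H s / H s := by
      intro s
      have h1 := (hG.smooth.differentiable (by norm_num)) s
      have h2 := (hH.smooth.differentiable (by norm_num)) s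
      rw [deriv_fun_div h1 h2 (hH.ne_zero s)]
      have := hG.ne_zero s
      have := hH.ne_zero s
      field_simp
    simp only [e]
    rw [integral_sub, hG.wind, hH.wind]
    · push_cast; ring
    · exact hG.continuous_ld.continuousOn.integrableOn_compact isCompact_Icc
    · exact hH.continuous_ld.continuousOn.integrableOn_compact isCompact_Icc

/-- the functions `G_l (θ_l)` -/
def vf (G : Fin d → ℝ → ℂ) : Fin d → (Fin d → ℝ) → ℂ := fun l θ => G l (θ l)

theorem hasFDerivAt_vf {G : ℝ → ℂ} (h : ContDiff ℝ 2 G) (l : Fin d) (θ : Fin d → ℝ) :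
    HasFDerivAt (fun θ : Fin d → ℝ => G (θ l))
      ((ContinuousLinearMap.toSpanSingleton ℝ (deriv G (θ l))).comp
        (ContinuousLinearMap.proj l)) θ := by
  have h1 : HasDerivAt G (deriv G (θ l)) (θ l) :=
    ((h.differentiable (by norm_num)) _).hasDerivAt
  exact h1.hasFDerivAt.comp θ (hasFDerivAt_apply l θ)

theorem lw_vf {G : ℝ → ℂ} (h : ContDiff ℝ 2 G) (l j : Fin d) (θ : Fin d → ℝ) :
    lw (fun θ : Fin d → ℝ => G (θ l)) j θ =
      (Pi.single j (1 : ℝ) : Fin d → ℝ) l * (deriv G (θ l) / G (θ l)) := by
  unfold lw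
  rw [(hasFDerivAt_vf h l θ).fderiv]
  simp
  ring

theorem lw_vf_ne {G : ℝ → ℂ} (h : ContDiff ℝ 2 G) {l j : Fin d} (hjl : j ≠ l) (θ : Fin d → ℝ) :
    lw (fun θ : Fin d → ℝ => G (θ l)) j θ = 0 := by
  rw [lw_vf h, Pi.single_eq_of_ne hjl.symm]
  simp

theorem lw_vf_self {G : ℝ → ℂ} (h : ContDiff ℝ 2 G) (l : Fin d) (θ : Fin d → ℝ) :
    lw (fun θ : Fin d → ℝ => G (θ l)) l θ = deriv G (θ l) / G (θ l) := by
  rw [lw_vf h, Pi.single_eq_same]
  simp

theorem One.good (h : One G w) (l : Fin d) : Good fun θ : Fin d → ℝ => G (θ l) :=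
  ⟨h.smooth.comp (contDiff_apply ℝ ℝ l), fun θ => h.ne_zero _⟩

theorem One.periodic (h : One G w) (l : Fin d) :
    Per fun θ : Fin d → ℝ => G (θ l) := by
  intro θ i
  show G ((θ + Pi.single i 1 : Fin d → ℝ) l) = G (θ l)
  by_cases hl : l = i
  · subst hl
    rw [Pi.add_apply, Pi.single_eq_same, h.per]
  · rw [Pi.add_apply, Pi.single_eq_of_ne hl, add_zero]

theorem grow_const (c : ℂ) (y : Fin (d + 1) → ℝ) (j : Fin d) :
    grow (fun _ => c) y j.succ = 0 := by
  rw [grow_succ]
  unfold lw
  simp

theorem pairing_const (c : ℂ) (G : Fin d → ℝ → ℂ) (w : Fin d → ℝ) (h : ∀ l, One (G l) (w l)) :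
    pairing (Fin.cons (fun _ => c) (vf G)) = (2 * Real.pi) ^ d * Real.log ‖c‖ * ∏ l, w l := by
  set D : Fin d → ℝ → ℝ → ℂ := fun l t s => ((t * (deriv (G l) s / G l s).re : ℝ) : ℂ) +
    Complex.I * ((deriv (G l) s / G l s).im : ℝ) with hDdef
  have hD : ∀ l, Continuous fun p : ℝ × ℝ => D l p.1 p.2 := by
    intro l
    have h1 := (h l).continuous_ld
    have h2 : Continuous fun p : ℝ × ℝ => deriv (G l) p.2 / G l p.2 := h1.comp continuous_snd
    simp only [hDdef]
    exact (Complex.continuous_ofReal.comp (continuous_fst.mul (Complex.continuous_re.comp h2))).add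
      (continuous_const.mul (Complex.continuous_ofReal.comp (Complex.continuous_im.comp h2)))
  have hdet : ∀ y : Fin (d + 1) → ℝ,
      (Matrix.of fun l => grow ((Fin.cons (fun _ => c) (vf G) :
        Fin (d + 1) → (Fin d → ℝ) → ℂ) l) y).det =
        (Real.log ‖c‖ : ℝ) * ∏ l, D l (y 0) (y l.succ) := by
    intro y
    rw [Matrix.det_of_isLowerTriangular, Fin.prod_univ_succ]
    · congr 1
      refine Finset.prod_congr rfl fun l _ => ?_
      rw [Matrix.of_apply, Fin.cons_succ, grow_succ]
      unfold vf
      rw [lw_vf_self (h l).smooth]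
      rfl
    · intro i j hij
      have hij' : i < j := hij
      revert hij'
      refine Fin.cases ?_ (fun i => ?_) i <;> refine Fin.cases ?_ (fun j => ?_) j
      · intro h; exact absurd h (lt_irrefl _)
      · intro _
        rw [Matrix.of_apply, Fin.cons_zero]
        exact grow_const c y j
      · intro h; exact absurd h (Fin.not_lt_zero _)
      · intro h1
        rw [Matrix.of_apply, Fin.cons_succ, grow_succ]
        unfold vf
        have hne : j ≠ i := fun e => by
          rw [e] at h1
          exact absurd h1 (lt_irrefl _)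
        rw [lw_vf_ne (h i).smooth hne]
        simp
  have hint : ∫ y in Icc (0 : Fin (d + 1) → ℝ) 1, ∏ l, D l (y 0) (y l.succ) =
      (2 * Real.pi * Complex.I) ^ d * ((∏ l, w l : ℝ) : ℂ) := by
    rw [integral_box_prod D hD]
    have h1 : ∀ l t, ∫ s in Icc (0 : ℝ) 1, D l t s = 2 * Real.pi * Complex.I * w l := by
      intro l t
      have hcl := (h l).continuous_ld
      have hint1 : IntegrableOn (fun s => deriv (G l) s / G l s) (Icc (0 : ℝ) 1) :=
        hcl.continuousOn.integrableOn_compact isCompact_Icc
      have hre : ∫ s in Icc (0 : ℝ) 1, (deriv (G l) s / G l s).re = 0 := by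
        have := Complex.reCLM.integral_comp_comm hint1
        simp only [Complex.reCLM_apply] at this
        rw [this, (h l).wind]
        simp
      have him : ∫ s in Icc (0 : ℝ) 1, (deriv (G l) s / G l s).im = 2 * Real.pi * w l := by
        have := Complex.imCLM.integral_comp_comm hint1
        simp only [Complex.imCLM_apply] at this
        rw [this, (h l).wind]
        simp
      have hcre : Continuous fun s => (deriv (G l) s / G l s).re :=
        Complex.continuous_re.comp hcl
      have hcim : Continuous fun s => (deriv (G l) s / G l s).im :=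
        Complex.continuous_im.comp hcl
      simp only [hDdef]
      rw [integral_add, integral_const_mul, integral_complex_ofReal, integral_complex_ofReal,
        integral_const_mul, hre, him]
      · push_cast; ring
      · exact (Complex.continuous_ofReal.comp (continuous_const.mul
          hcre)).continuousOn.integrableOn_compact isCompact_Icc
      · exact (continuous_const.mul (Complex.continuous_ofReal.comp
          hcim)).continuousOn.integrableOn_compact isCompact_Icc
    simp only [h1]
    rw [Finset.prod_mul_distrib, Finset.prod_const, Finset.card_univ, Fintype.card_fin]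
    simp
  have hcont : Continuous fun y : Fin (d + 1) → ℝ => ∏ l, D l (y 0) (y l.succ) := by
    refine continuous_finsetProd _ fun l _ => ?_
    have h7 : Continuous fun y : Fin (d + 1) → ℝ => ((y 0, y l.succ) : ℝ × ℝ) :=
      (continuous_apply 0).prodMk (continuous_apply l.succ)
    exact (hD l).comp h7
  unfold pairing integrand
  have e1 : ∀ y : Fin (d + 1) → ℝ, ((-Complex.I) ^ d * (Matrix.of fun l =>
      grow ((Fin.cons (fun _ => c) (vf G) : Fin (d + 1) → (Fin d → ℝ) → ℂ) l) y).det).re =
      Complex.reCLM (((-Complex.I) ^ d * (Real.log ‖c‖ : ℝ)) *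
        ∏ l, D l (y 0) (y l.succ)) := by
    intro y
    rw [hdet, mul_assoc]
    rfl
  simp only [e1]
  rw [ContinuousLinearMap.integral_comp_comm, integral_const_mul, hint]
  · have h3 : (-Complex.I) ^ d * (Real.log ‖c‖ : ℝ) * ((2 * Real.pi * Complex.I) ^ d *
        ((∏ l, w l : ℝ) : ℂ)) = (((2 * Real.pi) ^ d * Real.log ‖c‖ * ∏ l, w l : ℝ) : ℂ) := by
      have h4 : (-Complex.I) ^ d * (2 * Real.pi * Complex.I) ^ d = (2 * Real.pi : ℂ) ^ d := by
        rw [← mul_pow]
        congr 1
        linear_combination (-(2 * (Real.pi : ℂ))) * Complex.I_mul_I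
      push_cast
      rw [← h4]
      push_cast
      ring
    rw [h3]
    rfl
  · exact (continuous_const.mul hcont).continuousOn.integrableOn_compact isCompact_Icc

end one

end Pool.Agent.TH826.MK
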