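import Pool.Agent.TH826.MK.Eval
set_option autoImplicit false

/-!
Estimates for the one-dimensional regulators of well separated points.
-/

namespace Pool.Agent.TH826.MK

/-- Well separated points. -/
structure Sep {n : ℕ} (c : ℝ) (α : Fin (n + 1) → ℂ) : Prop where
  zero : c ≤ ‖α 0‖
  succ : ∀ i : Fin n, c * ‖α i.castSucc‖ ≤ ‖α i.succ‖

variable {n : ℕ} {c : ℝ} {α : Fin (n + 1) → ℂ}

theorem Sep.mono (h : Sep c α) (hc : 1 ≤ c) {i j : Fin (n + 1)} (hij : i ≤ j) :
    ‖α i‖ ≤ ‖α j‖ := by
  have hm : Monotone fun i => ‖α i‖ := by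
    rw [Fin.monotone_iff_le_succ]
    intro i
    have := h.succ i
    nlinarith [norm_nonneg (α i.castSucc)]
  exact hm hij

theorem Sep.lt (h : Sep c α) (hc : 1 ≤ c) {i j : Fin (n + 1)} (hij : i < j) :
    c * ‖α i‖ ≤ ‖α j‖ := by
  obtain ⟨j', rfl⟩ := Fin.exists_succ_eq.2 (Fin.ne_zero_of_lt hij)
  have h1 : i ≤ j'.castSucc := Fin.le_castSucc_iff.2 hij
  exact (mul_le_mul_of_nonneg_left (h.mono hc h1) (by linarith)).trans (h.succ j')

theorem Sep.le (h : Sep c α) (hc : 1 ≤ c) (i : Fin (n + 1)) : c ≤ ‖α i‖ :=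
  h.zero.trans (h.mono hc (Fin.zero_le i))

/-- the radius between the points `α_t` and `α_{t+1}` -/
noncomputable def rad (α : Fin (n + 1) → ℂ) (t : Fin n) : ℝ :=
  Real.sqrt (‖α t.castSucc‖ * ‖α t.succ‖)

theorem Sep.two_le_rad (h : Sep c α) (hc : 4 ≤ c) (t : Fin n) : 2 * ‖α t.castSucc‖ ≤ rad α t := by
  unfold rad
  refine Real.le_sqrt_of_sq_le ?_
  have h1 := h.succ t
  have h2 := norm_nonneg (α t.castSucc)
  nlinarith

theorem Sep.rad_le (h : Sep c α) (hc : 4 ≤ c) (t : Fin n) : 2 * rad α t ≤ ‖α t.succ‖ := by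
  have h1 := h.succ t
  have h2 := norm_nonneg (α t.castSucc)
  have h3 : rad α t ≤ ‖α t.succ‖ / 2 := by
    unfold rad
    refine Real.sqrt_le_iff.2 ⟨by positivity, ?_⟩
    nlinarith [norm_nonneg (α t.succ)]
  linarith

theorem Sep.far (h : Sep c α) (hc : 4 ≤ c) (t : Fin n) (j : Fin (n + 1)) :
    Far (rad α t) ‖α (Fin.last n)‖ (α j) where
  far := by
    rcases le_or_gt j t.castSucc with h1 | h1
    · left
      have := h.mono (by linarith) h1
      have := h.two_le_rad hc t
      linarith
    · right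
      have h2 : t.succ ≤ j := Fin.castSucc_lt_iff_succ_le.1 h1
      have := h.mono (by linarith) h2
      have := h.rad_le hc t
      linarith
  two := by
    have := h.two_le_rad hc t
    have := h.le (by linarith) t.castSucc
    linarith
  le := h.mono (by linarith) (Fin.le_last j)

theorem Sep.wd_eq (h : Sep c α) (hc : 4 ≤ c) (t : Fin n) (j : Fin (n + 1)) :
    wd (rad α t) (α j) = if j ≤ t.castSucc then 1 else 0 := by
  unfold wd
  have h0 := h.two_le_rad hc t
  have h0' := h.le (by linarith) t.castSucc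
  by_cases h1 : j ≤ t.castSucc
  · rw [if_pos h1, if_pos]
    have := h.mono (by linarith) h1
    linarith
  · rw [if_neg h1, if_neg]
    rw [not_le] at h1
    have h2 : t.succ ≤ j := Fin.castSucc_lt_iff_succ_le.1 h1
    have := h.mono (by linarith) h2
    have := h.rad_le hc t
    rw [not_lt]
    linarith

theorem Sep.rad_le_last (h : Sep c α) (hc : 4 ≤ c) (t : Fin n) :
    2 * rad α t ≤ ‖α (Fin.last n)‖ :=
  (h.rad_le hc t).trans (h.mono (by linarith) (Fin.le_last _))

/-- distances of separated points -/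
theorem Sep.dist_ge (h : Sep c α) (hc : 4 ≤ c) {i j : Fin (n + 1)} (hij : i < j) :
    ‖α j‖ * (1 - 1 / c) ≤ ‖α j - α i‖ := by
  have h1 := h.lt (by linarith) hij
  have h2 := norm_sub_norm_le (α j) (α i)
  have h3 : ‖α i‖ ≤ ‖α j‖ / c := by
    rw [le_div_iff₀ (by linarith)]
    linarith
  have e : ‖α j‖ * (1 - 1 / c) = ‖α j‖ - ‖α j‖ / c := by ring
  rw [e]
  linarith

theorem Sep.dist_half (h : Sep c α) (hc : 4 ≤ c) {i j : Fin (n + 1)} (hij : i < j) :
    ‖α j‖ / 2 ≤ ‖α j - α i‖ := by
  have h1 := h.lt (by linarith) hij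
  have h2 := norm_sub_norm_le (α j) (α i)
  nlinarith [norm_nonneg (α i)]

theorem Sep.dist_le (h : Sep c α) (hc : 4 ≤ c) {i j : Fin (n + 1)} (hij : i < j) :
    ‖α j - α i‖ ≤ 2 * ‖α j‖ := by
  have h1 := h.lt (by linarith) hij
  have h2 := norm_sub_le (α j) (α i)
  nlinarith [norm_nonneg (α i)]

/-- the difference of logarithms of two distances to a far point -/
theorem Sep.log_diff (h : Sep c α) (hc : 4 ≤ c) {i i' j : Fin (n + 1)} (hij : i < j)
    (hij' : i' < j) : |Real.log ‖α j - α i‖ - Real.log ‖α j - α i'‖| ≤ 4 / c := by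
  have hj := h.le (by linarith) j
  have h1 := h.dist_half hc hij
  have h2 := h.dist_half hc hij'
  have hx : 0 < ‖α j - α i‖ := by linarith
  have hy : 0 < ‖α j - α i'‖ := by linarith
  have h3 : |‖α j - α i‖ - ‖α j - α i'‖| ≤ 2 * ‖α j‖ / c := by
    refine (abs_norm_sub_norm_le _ _).trans ?_
    have e : α j - α i - (α j - α i') = α i' - α i := by ring
    rw [e]
    refine (norm_sub_le _ _).trans ?_
    have h4 := h.lt (by linarith) hij
    have h5 := h.lt (by linarith) hij'
    rw [le_div_iff₀ (by linarith)]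
    linarith
  have key : ∀ x y : ℝ, ‖α j‖ / 2 ≤ x → ‖α j‖ / 2 ≤ y → |x - y| ≤ 2 * ‖α j‖ / c →
      Real.log x - Real.log y ≤ 4 / c := by
    intro x y hx hy hxy
    have hx0 : 0 < x := by linarith
    have hy0 : 0 < y := by linarith
    rw [← Real.log_div hx0.ne' hy0.ne']
    refine (Real.log_le_sub_one_of_pos (by positivity)).trans ?_
    have e : x / y - 1 = (x - y) / y := by field_simp
    rw [e, div_le_div_iff₀ hy0 (by linarith)]
    have h6 := (le_abs_self _).trans hxy
    rw [le_div_iff₀ (by linarith)] at h6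
    linarith
  rw [abs_le]
  constructor
  · have := key _ _ h2 h1 (by rw [abs_sub_comm]; exact h3)
    linarith
  · exact key _ _ h1 h2 h3

theorem Sep.Gm_lt (h : Sep c α) (hc : 4 ≤ c) {i t : Fin n} (hit : i < t) :
    |Gm α (rad α t) i| ≤ (n + 1) * (4 / c) := by
  unfold Gm
  refine (Finset.abs_sum_le_sum_abs _ _).trans ?_
  have h1 : ∀ j ∈ (Finset.univ : Finset (Fin (n + 1))),
      |Real.log ‖α j - α i.castSucc‖ * (wd (rad α t) (α i.castSucc) - wd (rad α t) (α j)) -
        Real.log ‖α j - α i.succ‖ * (wd (rad α t) (α i.succ) - wd (rad α t) (α j))| ≤ 4 / c := by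
    intro j _
    have hi : i.castSucc ≤ t.castSucc := Fin.castSucc_le_castSucc_iff.2 hit.le
    have hi' : i.succ ≤ t.castSucc := by
      rw [Fin.le_def]
      simp only [Fin.val_succ, Fin.val_castSucc]
      exact hit
    rw [h.wd_eq hc, h.wd_eq hc, h.wd_eq hc, if_pos hi, if_pos hi']
    by_cases hj : j ≤ t.castSucc
    · rw [if_pos hj]
      simp only [sub_self, mul_zero, abs_zero]
      positivity
    · rw [if_neg hj]
      rw [not_le] at hj
      simp only [sub_zero, mul_one]
      exact h.log_diff hc (hi.trans_lt hj) (hi'.trans_lt hj)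
  refine (Finset.sum_le_card_nsmul _ _ _ h1).trans ?_
  rw [Finset.card_univ, Fintype.card_fin, nsmul_eq_mul]
  push_cast
  exact le_refl _

theorem Sep.log_nonneg (h : Sep c α) (hc : 4 ≤ c) {i j : Fin (n + 1)} (hij : i ≠ j) :
    0 ≤ Real.log ‖α j - α i‖ := by
  apply Real.log_nonneg
  rcases lt_or_gt_of_ne hij with h1 | h1
  · have := h.dist_half hc h1
    have := h.le (by linarith) j
    linarith
  · have := h.dist_half hc h1
    have := h.le (by linarith) i
    rw [norm_sub_rev]
    linarith

theorem Sep.Gm_self (h : Sep c α) (hc : 4 ≤ c) (t : Fin n) {j : Fin (n + 1)} (hj : t.succ ≤ j) :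
    Real.log (‖α j‖ / 2) ≤ Gm α (rad α t) t := by
  unfold Gm
  have e : ∀ j, Real.log ‖α j - α t.castSucc‖ * (wd (rad α t) (α t.castSucc) -
      wd (rad α t) (α j)) - Real.log ‖α j - α t.succ‖ * (wd (rad α t) (α t.succ) -
      wd (rad α t) (α j)) = if j ≤ t.castSucc then Real.log ‖α j - α t.succ‖ else
        Real.log ‖α j - α t.castSucc‖ := by
    intro j
    have h1 : ¬ t.succ ≤ t.castSucc := not_le.2 (Fin.castSucc_lt_succ)
    rw [h.wd_eq hc, h.wd_eq hc, h.wd_eq hc, if_pos (le_refl _), if_neg h1]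
    split_ifs <;> ring
  simp only [e]
  have hjt : ¬ j ≤ t.castSucc := not_le.2 (Fin.castSucc_lt_succ.trans_le hj)
  calc Real.log (‖α j‖ / 2) ≤ if j ≤ t.castSucc then Real.log ‖α j - α t.succ‖ else
        Real.log ‖α j - α t.castSucc‖ := by
        rw [if_neg hjt]
        refine Real.log_le_log ?_ (h.dist_half hc (not_le.1 hjt))
        have := h.le (by linarith) j
        linarith
    _ ≤ _ := by
        refine Finset.single_le_sum (f := fun j => if j ≤ t.castSucc then
          Real.log ‖α j - α t.succ‖ else Real.log ‖α j - α t.castSucc‖) (fun j _ => ?_)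
          (Finset.mem_univ j)
        split_ifs with h2
        · exact h.log_nonneg hc (by
            rintro rfl
            exact absurd h2 (not_le.2 Fin.castSucc_lt_succ))
        · exact h.log_nonneg hc (by
            rintro rfl
            exact h2 (le_refl _))

theorem Sep.Gm_gt (h : Sep c α) (hc : 8 ≤ c) {i t : Fin n} (hit : t < i) :
    |Gm α (rad α t) i| ≤ 2 * (n + 1) * Gm α (rad α t) t := by
  have hc4 : (4 : ℝ) ≤ c := by linarith
  have h0 := h.Gm_self hc4 t (j := i.succ) (Fin.succ_le_succ_iff.2 hit.le)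
  have h1 : ∀ j ∈ (Finset.univ : Finset (Fin (n + 1))),
      |Real.log ‖α j - α i.castSucc‖ * (wd (rad α t) (α i.castSucc) - wd (rad α t) (α j)) -
        Real.log ‖α j - α i.succ‖ * (wd (rad α t) (α i.succ) - wd (rad α t) (α j))| ≤
        2 * Gm α (rad α t) t := by
    intro j _
    have hi : ¬ i.castSucc ≤ t.castSucc := not_le.2 (Fin.castSucc_lt_castSucc_iff.2 hit)
    have hi' : ¬ i.succ ≤ t.castSucc :=
      not_le.2 ((Fin.castSucc_lt_castSucc_iff.2 hit).trans Fin.castSucc_lt_succ)
    rw [h.wd_eq hc4, h.wd_eq hc4, h.wd_eq hc4, if_neg hi, if_neg hi']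
    have hpos : 0 ≤ Real.log (‖α i.succ‖ / 2) := by
      apply Real.log_nonneg
      have := h.le (by linarith) i.succ
      linarith
    by_cases hj : j ≤ t.castSucc
    · rw [if_pos hj]
      have hji : j < i.castSucc := hj.trans_lt (Fin.castSucc_lt_castSucc_iff.2 hit)
      have hji' : j < i.succ := hji.trans Fin.castSucc_lt_succ
      have a1 := h.log_nonneg hc4 hji.ne'
      have a2 := h.log_nonneg hc4 hji'.ne'
      have hb : ∀ x : ℝ, 1 ≤ x → x ≤ 2 * ‖α i.succ‖ → Real.log x ≤ 2 * Gm α (rad α t) t := by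
        intro x hx1 hx
        have h8 := h.le (by linarith) i.succ
        have : Real.log x ≤ Real.log ((‖α i.succ‖ / 2) ^ 2) := by
          refine Real.log_le_log (by linarith) ?_
          nlinarith
        rw [Real.log_pow] at this
        push_cast at this
        linarith
      have b1 : Real.log ‖α j - α i.castSucc‖ ≤ 2 * Gm α (rad α t) t := by
        rw [norm_sub_rev]
        refine hb _ ?_ ?_
        · have := h.dist_half hc4 hji
          have := h.le (by linarith) i.castSucc
          linarith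
        · have := h.dist_le hc4 hji
          have := h.mono (by linarith) (Fin.castSucc_lt_succ (i := i)).le
          linarith
      have b2 : Real.log ‖α j - α i.succ‖ ≤ 2 * Gm α (rad α t) t := by
        rw [norm_sub_rev]
        refine hb _ ?_ ?_
        · have := h.dist_half hc4 hji'
          have := h.le (by linarith) i.succ
          linarith
        · exact h.dist_le hc4 hji'
      rw [abs_le]
      constructor <;> nlinarith
    · rw [if_neg hj]
      simp only [sub_self, mul_zero, abs_zero]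
      linarith
  unfold Gm
  refine (Finset.abs_sum_le_sum_abs _ _).trans ?_
  refine (Finset.sum_le_card_nsmul _ _ _ h1).trans ?_
  rw [Finset.card_univ, Fintype.card_fin, nsmul_eq_mul]
  push_cast
  unfold Gm
  apply le_of_eq
  ring

end Pool.Agent.TH826.MK
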