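import Mathlib
set_option autoImplicit false

/-!
Stokes' theorem for determinants of closed one-forms on a box.
-/

namespace Pool.Agent.TH826.MK

open MeasureTheory Set

section det

variable {n : ℕ}

/-- The determinant as a continuous multilinear function of the rows. -/
noncomputable def detC (n : ℕ) : ContinuousMultilinearMap ℝ (fun _ : Fin n => (Fin n → ℂ)) ℂ :=
  { (Matrix.detRowAlternating (R := ℂ) (n := Fin n)).toMultilinearMap.restrictScalars ℝ with
    cont := by
      show Continuous fun M : Fin n → Fin n → ℂ => Matrix.det (Matrix.of M)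
      exact Continuous.matrix_det continuous_id }

theorem detC_apply (M : Fin n → Fin n → ℂ) : detC n M = (Matrix.of M).det := rfl

/-- `B (u, v)`: the determinant with rows `p` and `q` replaced by `u` and `v`. -/
noncomputable def dB (M : Fin n → Fin n → ℂ) (p q : Fin n) (u v : Fin n → ℂ) : ℂ :=
  (Matrix.of (Function.update (Function.update M p u) q v)).det

theorem dB_swap (M : Fin n → Fin n → ℂ) {p q : Fin n} (hpq : p ≠ q) (u v : Fin n → ℂ) :
    dB M p q u v = - dB M p q v u := by
  unfold dB
  have h := (Matrix.detRowAlternating (R := ℂ) (n := Fin n)).map_swap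
    (Function.update (Function.update M p u) q v) hpq
  have e : (Function.update (Function.update M p u) q v) ∘ Equiv.swap p q =
      Function.update (Function.update M p v) q u := by
    funext i
    simp only [Function.comp_apply]
    by_cases h1 : i = p
    · subst h1
      simp [Function.update_of_ne hpq]
    · by_cases h2 : i = q
      · subst h2
        simp [Function.update_of_ne hpq]
      · rw [Equiv.swap_apply_of_ne_of_ne h1 h2]
        simp [Function.update_of_ne h1, Function.update_of_ne h2]
  rw [e] at h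
  have h' : (Matrix.of (Function.update (Function.update M p v) q u)).det =
    - (Matrix.of (Function.update (Function.update M p u) q v)).det := h
  rw [h', neg_neg]

theorem dB_sum_right (M : Fin n → Fin n → ℂ) (p q : Fin n) (u : Fin n → ℂ) (v : Fin n → ℂ) :
    dB M p q u v = ∑ j, v j * dB M p q u (Pi.single j 1) := by
  unfold dB
  have h := (Matrix.detRowAlternating (R := ℂ) (n := Fin n)).toMultilinearMap.map_update_sum
    Finset.univ q (fun j => v j • (Pi.single j (1 : ℂ) : Fin n → ℂ)) (Function.update M p u)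
  have e : ∑ j, v j • (Pi.single j (1 : ℂ) : Fin n → ℂ) = v := by
    funext i
    simp [Finset.sum_apply, Pi.single_apply]
  rw [e] at h
  refine Eq.trans h (Finset.sum_congr rfl fun j _ => ?_)
  exact (Matrix.detRowAlternating (R := ℂ) (n := Fin n)).toMultilinearMap.map_update_smul
    (Function.update M p u) q (v j) _

theorem dB_sum (M : Fin n → Fin n → ℂ) {p q : Fin n} (hpq : p ≠ q) (u v : Fin n → ℂ) :
    dB M p q u v = ∑ i, ∑ j, u i * v j * dB M p q (Pi.single i 1) (Pi.single j 1) := by
  rw [dB_swap M hpq, dB_sum_right, ← Finset.sum_neg_distrib]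
  refine Finset.sum_congr rfl fun i _ => ?_
  rw [dB_swap M hpq, mul_neg, neg_neg, dB_sum_right, Finset.mul_sum]
  refine Finset.sum_congr rfl fun j _ => by ring

/-- A symmetric array pairs to zero with an antisymmetric one. -/
theorem sum_symm_antisymm (X B : Fin n → Fin n → ℂ) (hX : ∀ i j, X i j = X j i)
    (hB : ∀ i j, B i j = - B j i) : ∑ i, ∑ j, X i j * B i j = 0 := by
  have h : ∑ i, ∑ j, X i j * B i j = - ∑ i, ∑ j, X i j * B i j := by
    conv_lhs => rw [Finset.sum_comm]
    rw [← Finset.sum_neg_distrib]
    refine Finset.sum_congr rfl fun i _ => ?_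
    rw [← Finset.sum_neg_distrib]
    refine Finset.sum_congr rfl fun j _ => ?_
    rw [hX j i, hB j i, mul_neg]
  have h2 : (2 : ℂ) * ∑ i, ∑ j, X i j * B i j = 0 := by
    rw [two_mul]
    nth_rewrite 1 [h]
    ring
  simpa using h2

end det

section stokes

variable {d : ℕ}

/-- The data of Stokes' theorem: closed one-forms `J l` and a one-form `P` on `ℝ^(d+1)` such that
`dP = J p ∧ J q`. -/
structure SData (d : ℕ) where
  J : Fin (d + 1) → (Fin (d + 1) → ℝ) → (Fin (d + 1) → ℂ)
  J' : Fin (d + 1) → (Fin (d + 1) → ℝ) → ((Fin (d + 1) → ℝ) →L[ℝ] (Fin (d + 1) → ℂ))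
  hJ : ∀ l y, HasFDerivAt (J l) (J' l y) y
  hJs : ∀ l y i j, J' l y (Pi.single i 1) j = J' l y (Pi.single j 1) i
  P : (Fin (d + 1) → ℝ) → (Fin (d + 1) → ℂ)
  P' : (Fin (d + 1) → ℝ) → ((Fin (d + 1) → ℝ) →L[ℝ] (Fin (d + 1) → ℂ))
  hP : ∀ y, HasFDerivAt P (P' y) y
  p : Fin (d + 1)
  q : Fin (d + 1)
  hpq : p ≠ q
  hX : ∀ y i j, P' y (Pi.single i 1) j - J p y i * J q y j =
    P' y (Pi.single j 1) i - J p y j * J q y i

variable (S : SData d)

/-- the rows of the matrix with determinant `V i` -/
noncomputable def SData.rows (i : Fin (d + 1)) (l : Fin (d + 1)) (y : Fin (d + 1) → ℝ) :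
    Fin (d + 1) → ℂ :=
  if l = S.q then S.P y else if l = S.p then Pi.single i 1 else S.J l y

/-- the derivatives of the rows -/
noncomputable def SData.rows' (l : Fin (d + 1)) (y : Fin (d + 1) → ℝ) :
    (Fin (d + 1) → ℝ) →L[ℝ] (Fin (d + 1) → ℂ) :=
  if l = S.q then S.P' y else if l = S.p then 0 else S.J' l y

theorem SData.hasFDerivAt_rows (i l : Fin (d + 1)) (y : Fin (d + 1) → ℝ) :
    HasFDerivAt (S.rows i l) (S.rows' l y) y := by
  unfold SData.rows SData.rows'
  by_cases h1 : l = S.q
  · simp only [h1, if_true]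
    exact S.hP y
  · by_cases h2 : l = S.p
    · simp only [h1, h2, if_true, if_neg (S.hpq)]
      exact hasFDerivAt_const _ _
    · simp only [h1, h2, if_false]
      exact S.hJ l y

/-- the vector field -/
noncomputable def SData.V (i : Fin (d + 1)) (y : Fin (d + 1) → ℝ) : ℂ :=
  detC (d + 1) fun l => S.rows i l y

/-- the derivative of the vector field -/
noncomputable def SData.V' (i : Fin (d + 1)) (y : Fin (d + 1) → ℝ) :
    (Fin (d + 1) → ℝ) →L[ℝ] ℂ :=
  ∑ l : Fin (d + 1), ((detC (d + 1)).toContinuousLinearMap (fun j => S.rows i j y) l).comp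
    (S.rows' l y)

theorem SData.hasFDerivAt_V (i : Fin (d + 1)) (y : Fin (d + 1) → ℝ) :
    HasFDerivAt (S.V i) (S.V' i y) y :=
  HasFDerivAt.multilinear_comp (detC (d + 1)) fun l => S.hasFDerivAt_rows i l y

theorem SData.rows_eq (i : Fin (d + 1)) (y : Fin (d + 1) → ℝ) :
    (fun l => S.rows i l y) = Function.update (Function.update (fun l => S.J l y) S.p
      (Pi.single i 1)) S.q (S.P y) := by
  funext l
  unfold SData.rows
  by_cases h1 : l = S.q
  · subst h1; simp
  · rw [Function.update_of_ne h1, if_neg h1]
    by_cases h2 : l = S.p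
    · subst h2; simp
    · rw [Function.update_of_ne h2, if_neg h2]

theorem SData.div_V (y : Fin (d + 1) → ℝ) :
    ∑ i, S.V' i y (Pi.single i 1) = detC (d + 1) fun l => S.J l y := by
  classical
  set M : Fin (d + 1) → Fin (d + 1) → ℂ := fun l => S.J l y with hM
  have key : ∀ i l, (detC (d + 1)).toContinuousLinearMap (fun j => S.rows i j y) l
      (S.rows' l y (Pi.single i 1)) = if l = S.q then
        dB M S.p S.q (Pi.single i 1) (S.P' y (Pi.single i 1)) else if l = S.p then 0 else
        dB (Function.update M S.q (S.P y)) S.p l (Pi.single i 1) (S.J' l y (Pi.single i 1)) := by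
    intro i l
    have h0 : (detC (d + 1)).toContinuousLinearMap (fun j => S.rows i j y) l
      (S.rows' l y (Pi.single i 1)) = detC (d + 1) (Function.update (fun j => S.rows i j y) l
        (S.rows' l y (Pi.single i 1))) := rfl
    rw [h0, S.rows_eq, detC_apply]
    unfold dB SData.rows'
    by_cases h1 : l = S.q
    · subst h1
      simp only [if_true, Function.update_idem]
      rfl
    · by_cases h2 : l = S.p
      · subst h2
        simp only [if_neg S.hpq, if_true]
        refine Matrix.det_eq_zero_of_row_eq_zero S.p fun j => ?_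
        simp
      · simp only [if_neg h1, if_neg h2]
        congr 2
        rw [Function.update_comm S.hpq]
  have hV : ∀ i, S.V' i y (Pi.single i 1) = ∑ l, if l = S.q then
        dB M S.p S.q (Pi.single i 1) (S.P' y (Pi.single i 1)) else if l = S.p then 0 else
        dB (Function.update M S.q (S.P y)) S.p l (Pi.single i 1) (S.J' l y (Pi.single i 1)) := by
    intro i
    unfold SData.V'
    rw [ContinuousLinearMap.sum_apply]
    exact Finset.sum_congr rfl fun l _ => key i l
  rw [Finset.sum_congr rfl fun i _ => hV i, Finset.sum_comm]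
  have h2 : ∀ l, l ≠ S.q → (∑ i, if l = S.q then
        dB M S.p S.q (Pi.single i 1) (S.P' y (Pi.single i 1)) else if l = S.p then 0 else
        dB (Function.update M S.q (S.P y)) S.p l (Pi.single i 1) (S.J' l y (Pi.single i 1)))
        = 0 := by
    intro l hl
    simp only [if_neg hl]
    by_cases h2 : l = S.p
    · simp [h2]
    · simp only [if_neg h2]
      have h3 : ∀ i, dB (Function.update M S.q (S.P y)) S.p l (Pi.single i 1)
          (S.J' l y (Pi.single i 1)) = ∑ j, S.J' l y (Pi.single i 1) j *
            dB (Function.update M S.q (S.P y)) S.p l (Pi.single i 1) (Pi.single j 1) :=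
        fun i => dB_sum_right _ _ _ _ _
      rw [Finset.sum_congr rfl fun i _ => h3 i]
      exact sum_symm_antisymm _ _ (fun i j => S.hJs l y i j)
        (fun i j => dB_swap _ (Ne.symm h2) _ _)
  rw [Finset.sum_eq_single S.q (fun l _ hl => h2 l hl) (by simp)]
  simp only [if_true]
  have h4 : (detC (d + 1) fun l => S.J l y) = dB M S.p S.q (S.J S.p y) (S.J S.q y) := by
    rw [detC_apply]
    unfold dB
    congr 2
    rw [Function.update_eq_self, Function.update_eq_self]
  rw [h4, dB_sum M S.hpq, ← sub_eq_zero, ← Finset.sum_sub_distrib]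
  have h5 : ∀ i, dB M S.p S.q (Pi.single i 1) (S.P' y (Pi.single i 1)) -
      ∑ j, S.J S.p y i * S.J S.q y j * dB M S.p S.q (Pi.single i 1) (Pi.single j 1) =
      ∑ j, (S.P' y (Pi.single i 1) j - S.J S.p y i * S.J S.q y j) *
        dB M S.p S.q (Pi.single i 1) (Pi.single j 1) := by
    intro i
    rw [dB_sum_right, ← Finset.sum_sub_distrib]
    exact Finset.sum_congr rfl fun j _ => by ring
  rw [Finset.sum_congr rfl fun i _ => h5 i]
  exact sum_symm_antisymm _ _ (fun i j => S.hX y i j) (fun i j => dB_swap _ S.hpq _ _)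

theorem SData.continuous_V (i : Fin (d + 1)) : Continuous (S.V i) :=
  continuous_iff_continuousAt.2 fun y => (S.hasFDerivAt_V i y).continuousAt

theorem SData.continuous_det : Continuous fun y => detC (d + 1) fun l => S.J l y := by
  refine (detC (d + 1)).cont.comp (continuous_pi fun l => ?_)
  exact continuous_iff_continuousAt.2 fun y => (S.hJ l y).continuousAt

/-- Stokes' theorem. -/
theorem SData.stokes : ∫ y in Icc (0 : Fin (d + 1) → ℝ) 1, (detC (d + 1) fun l => S.J l y) =
    ∑ i : Fin (d + 1), ((∫ x in Icc (0 : Fin d → ℝ) 1, S.V i (i.insertNth 1 x)) -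
      ∫ x in Icc (0 : Fin d → ℝ) 1, S.V i (i.insertNth 0 x)) := by
  have h := integral_divergence_of_hasFDerivAt_off_countable' (0 : Fin (d + 1) → ℝ) 1
    (by simp) S.V S.V' ∅ countable_empty
    (fun i => (S.continuous_V i).continuousOn) (fun x _ i => S.hasFDerivAt_V i x) (by
      simp only [S.div_V]
      exact S.continuous_det.continuousOn.integrableOn_compact isCompact_Icc)
  simp only [S.div_V] at h
  exact h

end stokes

end Pool.Agent.TH826.MK
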