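import Pool.Agent.TH826.MK.Form
import Pool.Agent.TH826.MK.Milnor
set_option autoImplicit false

/-!
The regulator pairing of Milnor K-theory with smooth tori.
-/

namespace Pool.Agent.TH826.MK

open MeasureTheory Set

/-- A torus of dimension `d`, of class `C²`, in the space of the complex points of the ring `A`:
a periodic family `e θ`, `θ ∈ ℝ^d`, of homomorphisms `A → ℂ`, such that for all `h ∈ A` the value
`e θ h` is a function of class `C²` of `θ`. -/
structure Torus (A : Type*) [CommRing A] (d : ℕ) where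
  /-- evaluation at the point with parameter `θ` -/
  e : (Fin d → ℝ) → A →+* ℂ
  smooth : ∀ h : A, ContDiff ℝ 2 fun θ => e θ h
  periodic : ∀ θ i, e (θ + Pi.single i 1) = e θ

variable {d : ℕ}

/-- `Re ((-i)^d det (∇ Ψ_0, ..., ∇ Ψ_d))` at `y = (t, θ)`, where `Ψ_l = t log |g_l| + i arg g_l`. -/
noncomputable def integrand (g : Fin (d + 1) → (Fin d → ℝ) → ℂ) (y : Fin (d + 1) → ℝ) : ℝ :=
  ((-Complex.I) ^ d * (Matrix.of fun l => grow (g l) y).det).re

/-- The integral of the preceding function over `[0,1] × [0,1]^d`. -/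
noncomputable def pairing (g : Fin (d + 1) → (Fin d → ℝ) → ℂ) : ℝ :=
  ∫ y in Icc (0 : Fin (d + 1) → ℝ) 1, integrand g y

/-- A nonvanishing periodic function of class `C²` -/
structure Good (g : (Fin d → ℝ) → ℂ) : Prop where
  smooth : ContDiff ℝ 2 g
  ne_zero : ∀ θ, g θ ≠ 0

theorem Good.mul {g h : (Fin d → ℝ) → ℂ} (hg : Good g) (hh : Good h) :
    Good fun θ => g θ * h θ :=
  ⟨hg.smooth.mul hh.smooth, fun θ => mul_ne_zero (hg.ne_zero θ) (hh.ne_zero θ)⟩

theorem lw_mul {g h : (Fin d → ℝ) → ℂ} (hg : Good g) (hh : Good h) (i : Fin d)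
    (θ : Fin d → ℝ) : lw (fun θ => g θ * h θ) i θ = lw g i θ + lw h i θ := by
  unfold lw
  have h1 := ((hg.smooth.differentiable (by norm_num)) θ)
  have h2 := ((hh.smooth.differentiable (by norm_num)) θ)
  rw [fderiv_fun_mul h1 h2]
  have h3 := hg.ne_zero θ
  have h4 := hh.ne_zero θ
  simp only [add_apply, smul_apply, smul_eq_mul]
  field_simp
  ring

theorem grow_mul {g h : (Fin d → ℝ) → ℂ} (hg : Good g) (hh : Good h) (y : Fin (d + 1) → ℝ) :
    grow (fun θ => g θ * h θ) y = grow g y + grow h y := by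
  funext i
  refine Fin.cases ?_ (fun i => ?_) i
  · rw [Pi.add_apply, grow_zero, grow_zero, grow_zero, norm_mul,
      Real.log_mul (norm_ne_zero_iff.2 (hg.ne_zero _)) (norm_ne_zero_iff.2 (hh.ne_zero _))]
    push_cast
    ring
  · rw [Pi.add_apply, grow_succ, grow_succ, grow_succ, lw_mul hg hh, Complex.add_re,
      Complex.add_im]
    push_cast
    ring

theorem continuous_grow {g : (Fin d → ℝ) → ℂ} (hg : Good g) : Continuous (grow g) :=
  continuous_iff_continuousAt.2 fun y => (hasFDerivAt_grow hg.smooth hg.ne_zero y).continuousAt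

theorem continuous_integrand {g : Fin (d + 1) → (Fin d → ℝ) → ℂ} (hg : ∀ l, Good (g l)) :
    Continuous (integrand g) := by
  unfold integrand
  refine Complex.continuous_re.comp (continuous_const.mul ?_)
  refine Continuous.matrix_det ?_
  exact continuous_pi fun l => continuous_grow (hg l)

theorem integrand_update_mul (g : Fin (d + 1) → (Fin d → ℝ) → ℂ) (l : Fin (d + 1))
    {a b : (Fin d → ℝ) → ℂ} (ha : Good a) (hb : Good b) (y : Fin (d + 1) → ℝ) :
    integrand (Function.update g l fun θ => a θ * b θ) y =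
      integrand (Function.update g l a) y + integrand (Function.update g l b) y := by
  unfold integrand
  have e : ∀ c : (Fin d → ℝ) → ℂ, (Matrix.of fun m => grow (Function.update g l c m) y) =
      (Matrix.of fun m => grow (g m) y).updateRow l (grow c y) := by
    intro c
    ext m j
    by_cases h : m = l
    · subst h; simp
    · simp [Matrix.updateRow_ne h, Function.update_of_ne h]
  rw [e, e, e, grow_mul ha hb, Matrix.det_updateRow_add, mul_add, Complex.add_re]

theorem pairing_update_mul {g : Fin (d + 1) → (Fin d → ℝ) → ℂ} (hg : ∀ l, Good (g l))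
    (l : Fin (d + 1)) {a b : (Fin d → ℝ) → ℂ} (ha : Good a) (hb : Good b) :
    pairing (Function.update g l fun θ => a θ * b θ) =
      pairing (Function.update g l a) + pairing (Function.update g l b) := by
  have hgood : ∀ c, Good c → ∀ m, Good (Function.update g l c m) := by
    intro c hc m
    by_cases h : m = l
    · subst h; simpa using hc
    · rw [Function.update_of_ne h]; exact hg m
  unfold pairing
  rw [← integral_add]
  · exact integral_congr_ae (Filter.Eventually.of_forall fun y =>
      integrand_update_mul g l ha hb y)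
  · exact (continuous_integrand (hgood a ha)).continuousOn.integrableOn_compact isCompact_Icc
  · exact (continuous_integrand (hgood b hb)).continuousOn.integrableOn_compact isCompact_Icc

section periodic

/-- periodicity -/
def Per (g : (Fin d → ℝ) → ℂ) : Prop := ∀ θ i, g (θ + Pi.single i 1) = g θ

theorem Per.lw {g : (Fin d → ℝ) → ℂ} (hg : Per g) (k i : Fin d) (θ : Fin d → ℝ) :
    lw g k (θ + Pi.single i 1) = lw g k θ := by
  unfold MK.lw
  have h : (fun θ => g (θ + Pi.single i 1)) = g := funext fun θ => hg θ i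
  have h2 := fderiv_comp_add_right (𝕜 := ℝ) (f := g) (x := θ) (Pi.single i 1)
  rw [h] at h2
  rw [← h2, hg]

theorem insertNth_eq (k : Fin d) (x : Fin d → ℝ) :
    (Fin.insertNth k.succ 1 x : Fin (d + 1) → ℝ) =
      (Fin.insertNth k.succ 0 x : Fin (d + 1) → ℝ) + Pi.single k.succ 1 := by
  funext j
  by_cases h : j = k.succ
  · subst h; simp
  · obtain ⟨m, rfl⟩ := Fin.exists_succAbove_eq h
    simp

theorem tl_add_single (y : Fin (d + 1) → ℝ) (k : Fin d) :
    tl d (y + Pi.single k.succ 1) = tl d y + Pi.single k 1 := by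
  rw [map_add, tl_single_succ]

theorem zero_add_single (y : Fin (d + 1) → ℝ) (k : Fin d) :
    (y + Pi.single k.succ 1 : Fin (d + 1) → ℝ) 0 = y 0 := by
  simp

theorem Per.grow {g : (Fin d → ℝ) → ℂ} (hg : Per g) (y : Fin (d + 1) → ℝ) (k : Fin d) :
    grow g (y + Pi.single k.succ 1) = grow g y := by
  funext i
  refine Fin.cases ?_ (fun i => ?_) i
  · rw [grow_zero, grow_zero, tl_add_single, hg]
  · rw [grow_succ, grow_succ, tl_add_single, hg.lw, zero_add_single]

theorem Per.om {g : (Fin d → ℝ) → ℂ} (hg : Per g) : Per (om g) := by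
  intro θ i
  unfold MK.om
  rw [hg]

theorem Per.Pst {g : (Fin d → ℝ) → ℂ} (hg : Per g) (y : Fin (d + 1) → ℝ) (k : Fin d) :
    Pst g (y + Pi.single k.succ 1) = Pst g y := by
  funext i
  unfold MK.Pst
  refine Fin.cases ?_ (fun i => ?_) i
  · simp only [Fin.cons_zero]
    rw [tl_add_single, hg]
  · simp only [Fin.cons_succ]
    rw [tl_add_single, hg, hg.lw, hg.om, hg.om.lw, zero_add_single]

end periodic

section steinberg

theorem re_det_eq_zero (M : Fin (d + 1) → Fin (d + 1) → ℂ) {p q : Fin (d + 1)} (hpq : p ≠ q)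
    (hp : M p = Pi.single 0 1) (r : Fin (d + 1) → Fin d → ℝ)
    (hq : ∀ j, M q j.succ = r q j)
    (hl : ∀ l, l ≠ p → l ≠ q → ∀ j, M l j.succ = Complex.I * r l j) :
    ((-Complex.I) ^ d * (Matrix.of M).det).re = 0 := by
  obtain ⟨l0, hl0⟩ := Fin.exists_succAbove_eq (Ne.symm hpq)
  have h1 : (Matrix.of M).det = (-1) ^ ((p : ℕ) + ((0 : Fin (d + 1)) : ℕ)) *
      ((Matrix.of M).submatrix p.succAbove (0 : Fin (d + 1)).succAbove).det := by
    rw [← Matrix.adjugate_fin_succ_eq_det_submatrix, Matrix.adjugate_apply]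
    congr 1
    ext l j
    by_cases h : l = p
    · subst h; simp [hp]
    · simp [Matrix.updateRow_ne h]
  have h2 : ((Matrix.of M).submatrix p.succAbove (0 : Fin (d + 1)).succAbove) =
      Matrix.of fun l j => (if l = l0 then 1 else Complex.I) *
        ((Matrix.of fun l j => r (p.succAbove l) j).map (fun x : ℝ => (x : ℂ))) l j := by
    ext l j
    simp only [Matrix.submatrix_apply, Matrix.of_apply, Matrix.map_apply, Fin.succAbove_zero]
    by_cases h : l = l0
    · subst h
      rw [if_pos rfl, one_mul, hl0]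
      exact hq j
    · rw [if_neg h]
      exact hl _ (Fin.succAbove_ne p l) (fun e => h (Fin.succAbove_right_injective
        (by rw [e, hl0]))) j
  have h3 : (∏ l : Fin d, (if l = l0 then (1 : ℂ) else Complex.I)) = Complex.I ^ (d - 1) := by
    rw [Finset.prod_ite, Finset.prod_const_one, one_mul, Finset.prod_const]
    congr 1
    have : (Finset.univ.filter fun x : Fin d => ¬ x = l0) = Finset.univ.erase l0 := by
      ext x; simp
    rw [this, Finset.card_erase_of_mem (Finset.mem_univ _), Finset.card_univ, Fintype.card_fin]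
  have h4 : ((Matrix.of fun l j => r (p.succAbove l) j).map (fun x : ℝ => (x : ℂ))).det =
      (((Matrix.of fun l j => r (p.succAbove l) j).det : ℝ) : ℂ) := by
    have := (RingHom.map_det Complex.ofRealHom (Matrix.of fun l j => r (p.succAbove l) j)).symm
    exact this
  rw [h1, h2, Matrix.det_mul_column, h3, h4]
  have hd : d = (d - 1) + 1 := by
    have := l0.pos
    omega
  set R : ℝ := (Matrix.of fun l j => r (p.succAbove l) j).det
  have h5 : (-Complex.I) ^ d * Complex.I ^ (d - 1) = -Complex.I := by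
    conv_lhs => rw [hd]
    rw [Nat.add_sub_cancel, pow_succ, mul_assoc, mul_comm (-Complex.I), ← mul_assoc,
      ← mul_pow]
    simp
  have h6 : (-Complex.I) ^ d * ((-1) ^ ((p : ℕ) + ((0 : Fin (d + 1)) : ℕ)) *
      (Complex.I ^ (d - 1) * (R : ℂ))) = (((-1) ^ ((p : ℕ) + ((0 : Fin (d + 1)) : ℕ)) * R : ℝ) : ℂ)
        * (-Complex.I) := by
    have h7 : (-Complex.I) ^ d * ((-1) ^ ((p : ℕ) + ((0 : Fin (d + 1)) : ℕ)) *
      (Complex.I ^ (d - 1) * (R : ℂ))) = ((-1) ^ ((p : ℕ) + ((0 : Fin (d + 1)) : ℕ)) * (R : ℂ)) *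
        ((-Complex.I) ^ d * Complex.I ^ (d - 1)) := by ring
    rw [h7, h5]
    push_cast
    ring
  rw [h6, Complex.re_ofReal_mul]
  simp

theorem pairing_steinberg {g : Fin (d + 1) → (Fin d → ℝ) → ℂ} (hg : ∀ l, Good (g l))
    (hper : ∀ l, Per (g l)) {p q : Fin (d + 1)} (hpq : p ≠ q)
    (h : ∀ θ, g p θ + g q θ = 1) : pairing g = 0 := by
  have hq : g q = om (g p) := by
    funext θ
    unfold om
    rw [← h θ]
    ring
  have h1 : ∀ θ, om (g p) θ ≠ 0 := by
    intro θ
    rw [← hq]
    exact (hg q).ne_zero θ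
  let S : SData d :=
    { J := fun l => grow (g l)
      J' := fun l => grow' (g l)
      hJ := fun l y => hasFDerivAt_grow (hg l).smooth (hg l).ne_zero y
      hJs := fun l y i j => grow'_symm (hg l).smooth y i j
      P := Pst (g p)
      P' := Pst' (g p)
      hP := fun y => hasFDerivAt_Pst (hg p).smooth (hg p).ne_zero h1 y
      p := p
      q := q
      hpq := hpq
      hX := fun y i j => by
        have := Pst_symm (hg p).smooth (hg p).ne_zero h1 y i j
        simp only [hq]
        exact this }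
  have hst := S.stokes
  have hVdB : ∀ i y, S.V i y = dB (fun l => grow (g l) y) p q (Pi.single i 1) (Pst (g p) y) := by
    intro i y
    unfold SData.V
    rw [S.rows_eq]
    rfl
  have hside : ∀ k : Fin d, ∀ x : Fin d → ℝ, S.V k.succ (Fin.insertNth k.succ 1 x) =
      S.V k.succ (Fin.insertNth k.succ 0 x) := by
    intro k x
    rw [hVdB, hVdB, insertNth_eq, (hper p).Pst]
    have : (fun l => grow (g l) ((Fin.insertNth k.succ 0 x : Fin (d + 1) → ℝ) +
        Pi.single k.succ 1)) = fun l => grow (g l) (Fin.insertNth k.succ 0 x) :=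
      funext fun l => (hper l).grow _ k
    rw [this]
  have htop : ∀ x : Fin d → ℝ, S.V 0 (Fin.insertNth 0 1 x) = 0 := by
    intro x
    rw [hVdB, dB_sum_right]
    refine Finset.sum_eq_zero fun j _ => ?_
    refine Fin.cases ?_ (fun j => ?_) j
    · have h2 := dB_swap (fun l => grow (g l) (Fin.insertNth 0 1 x : Fin (d + 1) → ℝ)) hpq
        (Pi.single 0 1) (Pi.single 0 1)
      have h3 : dB (fun l => grow (g l) (Fin.insertNth 0 1 x : Fin (d + 1) → ℝ)) p q
        (Pi.single 0 1) (Pi.single 0 1) = 0 := by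
        have : (2 : ℂ) * dB (fun l => grow (g l) (Fin.insertNth 0 1 x : Fin (d + 1) → ℝ)) p q
          (Pi.single 0 1) (Pi.single 0 1) = 0 := by
          rw [two_mul]
          nth_rewrite 1 [h2]
          ring
        simpa using this
      rw [h3, mul_zero]
    · have : Pst (g p) (Fin.insertNth 0 1 x : Fin (d + 1) → ℝ) j.succ = 0 := by
        simp [Pst]
      rw [this, zero_mul]
  have hbot : ∀ x : Fin d → ℝ, ((-Complex.I) ^ d * S.V 0 (Fin.insertNth 0 0 x)).re = 0 := by
    intro x
    set y : Fin (d + 1) → ℝ := Fin.insertNth 0 0 x with hy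
    have hy0 : y 0 = 0 := by simp [hy]
    have hV : S.V 0 y = (Matrix.of fun l => S.rows 0 l y).det := rfl
    rw [hV]
    refine re_det_eq_zero (fun l => S.rows 0 l y) hpq ?_ (fun l j => if l = q then
      (0 ^ 2 - 1) / 2 * (Real.log ‖g p (tl d y)‖ * (lw (om (g p)) j (tl d y)).re -
      Real.log ‖om (g p) (tl d y)‖ * (lw (g p) j (tl d y)).re) else (lw (g l) j (tl d y)).im) ?_ ?_
    · unfold SData.rows
      simp only [S]
      rw [if_neg hpq]
      simp
    · intro j
      unfold SData.rows
      simp only [S, if_true]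
      unfold Pst
      rw [Fin.cons_succ, hy0]
    · intro l hlp hlq j
      unfold SData.rows
      simp only [S]
      rw [if_neg hlq, if_neg hlp, if_neg hlq, grow_succ, hy0]
      simp
  have hint : ∫ y in Icc (0 : Fin (d + 1) → ℝ) 1, (detC (d + 1) fun l => S.J l y) =
      - ∫ x in Icc (0 : Fin d → ℝ) 1, S.V 0 (Fin.insertNth 0 0 x) := by
    rw [hst, Fin.sum_univ_succ]
    have h0 : ∑ k : Fin d, ((∫ x in Icc (0 : Fin d → ℝ) 1, S.V k.succ (k.succ.insertNth 1 x)) -
      ∫ x in Icc (0 : Fin d → ℝ) 1, S.V k.succ (k.succ.insertNth 0 x)) = 0 := by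
      refine Finset.sum_eq_zero fun k _ => ?_
      simp only [hside, sub_self]
    rw [h0]
    simp only [htop]
    simp
  have hcV : Continuous fun x : Fin d → ℝ => S.V 0 (Fin.insertNth 0 0 x) := by
    refine (S.continuous_V 0).comp ?_
    refine continuous_pi fun j => ?_
    refine Fin.cases ?_ (fun j => ?_) j
    · simpa using continuous_const
    · simpa using continuous_apply j
  have hc := S.continuous_det
  unfold pairing integrand
  have e1 : ∀ y : Fin (d + 1) → ℝ, ((-Complex.I) ^ d * (Matrix.of fun l => grow (g l) y).det).re =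
      Complex.reCLM ((-Complex.I) ^ d * detC (d + 1) fun l => S.J l y) := fun y => rfl
  simp only [e1]
  rw [ContinuousLinearMap.integral_comp_comm, integral_const_mul, hint, mul_neg,
    ← integral_const_mul, map_neg, ← ContinuousLinearMap.integral_comp_comm]
  · have e2 : ∀ x : Fin d → ℝ, Complex.reCLM ((-Complex.I) ^ d * S.V 0 (Fin.insertNth 0 0 x)) = 0 :=
      hbot
    simp only [e2, integral_zero, neg_zero]
  · exact (continuous_const.mul hcV).continuousOn.integrableOn_compact isCompact_Icc
  · exact (continuous_const.mul hc).continuousOn.integrableOn_compact isCompact_Icc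

end steinberg

section torus

variable {A : Type*} [CommRing A] (Γ : Torus A d)

/-- the function on the torus defined by an element of `A` -/
def Torus.fn (a : A) : (Fin d → ℝ) → ℂ := fun θ => Γ.e θ a

theorem Torus.good (a : Aˣ) : Good (Γ.fn (a : A)) :=
  ⟨Γ.smooth a, fun θ => ((a.isUnit).map (Γ.e θ)).ne_zero⟩

theorem Torus.per (a : A) : Per (Γ.fn a) := fun θ i => by
  unfold Torus.fn
  rw [Γ.periodic]

/-- The regulator integral of the symbol `{a_0, ..., a_d}` over the torus `Γ`. -/
noncomputable def Torus.pair (a : Fin (d + 1) → Aˣ) : ℝ := pairing fun l => Γ.fn (a l : A)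

theorem Torus.pair_update_mul (a : Fin (d + 1) → Aˣ) (l : Fin (d + 1)) (x y : Aˣ) :
    Γ.pair (Function.update a l (x * y)) = Γ.pair (Function.update a l x) +
      Γ.pair (Function.update a l y) := by
  have e : ∀ z : Aˣ, (fun m => Γ.fn ((Function.update a l z m : Aˣ) : A)) =
      Function.update (fun m => Γ.fn (a m : A)) l (Γ.fn (z : A)) := by
    intro z
    funext m
    by_cases h : m = l
    · subst h; simp
    · simp [Function.update_of_ne h]
  unfold Torus.pair
  rw [e, e, e]
  have h1 : Γ.fn ((x * y : Aˣ) : A) = fun θ => Γ.fn (x : A) θ * Γ.fn (y : A) θ := by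
    funext θ
    unfold Torus.fn
    rw [Units.val_mul, map_mul]
  rw [h1]
  exact pairing_update_mul (fun m => Γ.good (a m)) l (Γ.good x) (Γ.good y)

/-- The regulator pairing of `K_{d+1}^M(A) ⊗ ℚ` with the torus `Γ`. -/
noncomputable def Torus.reg : KQ A (d + 1) →ₗ[ℚ] ℝ :=
  KQ.lift Γ.pair (fun a l x y => Γ.pair_update_mul a l x y) (by
    rintro a ⟨i, j, hij, h⟩
    refine pairing_steinberg (fun l => Γ.good (a l)) (fun l => Γ.per _) hij.ne ?_
    intro θ
    show Γ.e θ (a i : A) + Γ.e θ (a j : A) = 1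
    rw [← map_add, h, map_one])

theorem Torus.reg_symb (a : Fin (d + 1) → Aˣ) : Γ.reg (symb a) = Γ.pair a := by
  unfold Torus.reg
  rw [KQ.lift_symb]

end torus

end Pool.Agent.TH826.MK
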