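import Pool.Agent.TH826.MK.Variety
import Pool.Agent.TH826.MK.Torus
set_option autoImplicit false

/-!
Evaluation of functions on the hypersurface at complex points, and tori over products of circles.
-/

namespace Pool.Agent.TH826.MK

/-- the square root of `1 - 4/w²` -/
noncomputable def sq (w : ℂ) : ℂ := Complex.exp (Complex.log (1 - 4 / w ^ 2) / 2)

theorem small_of_lt {w : ℂ} (hw : 2 < ‖w‖) : ‖4 / w ^ 2‖ < 1 := by
  rw [norm_div, norm_pow, Complex.norm_ofNat, div_lt_one (by positivity)]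
  nlinarith

theorem slit_of_lt {w : ℂ} (hw : 2 < ‖w‖) : 1 - 4 / w ^ 2 ∈ Complex.slitPlane := by
  rw [sub_eq_add_neg]
  exact Complex.mem_slitPlane_of_norm_lt_one (by rw [norm_neg]; exact small_of_lt hw)

theorem sq_sq {w : ℂ} (hw : 2 < ‖w‖) : sq w ^ 2 = 1 - 4 / w ^ 2 := by
  unfold sq
  rw [← Complex.exp_nat_mul]
  push_cast
  rw [mul_div_cancel₀ _ (two_ne_zero), Complex.exp_log (Complex.slitPlane_ne_zero (slit_of_lt hw))]

/-- `(1 + √(1 - 4/w²))/2` -/
noncomputable def hs (w : ℂ) : ℂ := (1 + sq w) / 2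

/-- The large root of `z² - w z + 1`. -/
noncomputable def zeta (w : ℂ) : ℂ := w * hs w

theorem zeta_eq {w : ℂ} (hw : 2 < ‖w‖) : zeta w ^ 2 - w * zeta w + 1 = 0 := by
  have h0 : w ≠ 0 := by
    rintro rfl
    rw [norm_zero] at hw
    linarith
  have h1 := sq_sq hw
  have h3 : w ^ 2 * sq w ^ 2 = w ^ 2 - 4 := by
    rw [h1]; field_simp
  unfold zeta hs
  linear_combination (1/4) * h3

theorem contDiffAt_sq {w : ℂ} (hw : 2 < ‖w‖) {n : WithTop ℕ∞} : ContDiffAt ℂ n sq w := by
  have h0 : w ≠ 0 := by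
    rintro rfl
    rw [norm_zero] at hw
    linarith
  unfold sq
  have h1 : ContDiffAt ℂ n (fun w : ℂ => 1 - 4 / w ^ 2) w :=
    contDiffAt_const.sub (contDiffAt_const.div (contDiffAt_id.pow 2) (pow_ne_zero 2 h0))
  exact (((Complex.contDiffAt_log (slit_of_lt hw)).comp w h1).div_const 2).cexp

theorem contDiffAt_hs {w : ℂ} (hw : 2 < ‖w‖) {n : WithTop ℕ∞} : ContDiffAt ℂ n hs w :=
  (contDiffAt_const.add (contDiffAt_sq hw)).div_const 2

theorem contDiffAt_zeta {w : ℂ} (hw : 2 < ‖w‖) {n : WithTop ℕ∞} : ContDiffAt ℂ n zeta w :=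
  contDiffAt_id.mul (contDiffAt_hs hw)

theorem zeta_sq_ne_one {w : ℂ} (hw : 2 < ‖w‖) : zeta w ^ 2 - 1 ≠ 0 := by
  intro h
  have h1 := zeta_eq hw
  have h2 : zeta w = 1 ∨ zeta w = -1 := by
    have : (zeta w - 1) * (zeta w + 1) = 0 := by linear_combination h
    rcases mul_eq_zero.1 this with h | h
    · left; linear_combination h
    · right; linear_combination h
  rcases h2 with h2 | h2 <;> rw [h2] at h1
  · have : w = 2 := by linear_combination -h1
    rw [this] at hw
    norm_num at hw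
  · have : w = -2 := by linear_combination h1
    rw [this] at hw
    norm_num at hw

section Ev

variable {K : Type*} [Field K] {d : ℕ} {r : Fin d → ℕ} (σ : K →+* ℂ) (D : Data K r)

/-- the value of `Φ` at a complex point -/
noncomputable def PhiC (x : Fin d → ℂ) : ℂ := σ D.lam * ∏ k, ∏ i, (x k - σ (D.a k i))

theorem eval_Phi (x : Fin d → ℂ) : MvPolynomial.eval₂Hom σ x (Phi D) = PhiC σ D x := by
  unfold Phi PhiC
  simp

/-- Points at which the large root is defined and `Δ ≠ 0`. -/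
structure GoodPt (x : Fin d → ℂ) : Prop where
  ne : ∀ k i, x k - σ (D.a k i) ≠ 0
  lt : 2 < ‖PhiC σ D x‖

variable {σ D}

theorem GoodPt.eval_eqn {x : Fin d → ℂ} (hx : GoodPt σ D x) :
    Polynomial.eval₂ (MvPolynomial.eval₂Hom σ x) (zeta (PhiC σ D x)) (eqn D) = 0 := by
  unfold eqn
  simp only [Polynomial.eval₂_add, Polynomial.eval₂_sub, Polynomial.eval₂_mul,
    Polynomial.eval₂_pow, Polynomial.eval₂_X, Polynomial.eval₂_C, Polynomial.eval₂_one]
  rw [eval_Phi]
  exact zeta_eq hx.lt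

/-- evaluation of the regular functions on the hypersurface -/
noncomputable def GoodPt.evB {x : Fin d → ℂ} (hx : GoodPt σ D x) : CRing D →+* ℂ :=
  AdjoinRoot.lift (MvPolynomial.eval₂Hom σ x) (zeta (PhiC σ D x)) hx.eval_eqn

theorem GoodPt.evB_fpol {x : Fin d → ℂ} (hx : GoodPt σ D x) (p : MvPolynomial (Fin d) K) :
    hx.evB (fpol D p) = MvPolynomial.eval₂Hom σ x p :=
  AdjoinRoot.lift_of hx.eval_eqn

theorem GoodPt.evB_mk {x : Fin d → ℂ} (hx : GoodPt σ D x)
    (p : Polynomial (MvPolynomial (Fin d) K)) :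
    hx.evB (AdjoinRoot.mk (eqn D) p : AdjoinRoot (eqn D)) =
      p.eval₂ (MvPolynomial.eval₂Hom σ x) (zeta (PhiC σ D x)) :=
  AdjoinRoot.lift_mk hx.eval_eqn p

theorem GoodPt.evB_fx {x : Fin d → ℂ} (hx : GoodPt σ D x) (k : Fin d) (c : K) :
    hx.evB (fx D k c) = x k - σ c := by
  unfold fx
  rw [hx.evB_fpol]
  simp

theorem GoodPt.evB_fz {x : Fin d → ℂ} (hx : GoodPt σ D x) :
    hx.evB (fz D) = zeta (PhiC σ D x) :=
  AdjoinRoot.lift_root hx.eval_eqn

theorem GoodPt.evB_del {x : Fin d → ℂ} (hx : GoodPt σ D x) : IsUnit (hx.evB (Del D)) := by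
  unfold Del
  rw [map_mul, map_prod, map_sub, map_pow, hx.evB_fz, map_one]
  refine IsUnit.mk0 _ (mul_ne_zero ?_ (zeta_sq_ne_one hx.lt))
  refine Finset.prod_ne_zero_iff.2 fun k _ => ?_
  rw [map_prod]
  refine Finset.prod_ne_zero_iff.2 fun i _ => ?_
  rw [hx.evB_fx]
  exact hx.ne k i

/-- evaluation of the regular functions on the open part -/
noncomputable def GoodPt.evA {x : Fin d → ℂ} (hx : GoodPt σ D x) : ORing D →+* ℂ :=
  liftO D hx.evB hx.evB_del.ne_zero

theorem GoodPt.evA_toO {x : Fin d → ℂ} (hx : GoodPt σ D x) (b : CRing D) :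
    hx.evA (toO D b) = hx.evB b :=
  liftO_toO _ _ _ _

theorem GoodPt.evA_congr {x y : Fin d → ℂ} (hx : GoodPt σ D x) (hy : GoodPt σ D y)
    (h : x = y) : hx.evA = hy.evA := by
  subst h
  rfl

theorem contDiff_evA {x : (Fin d → ℝ) → (Fin d → ℂ)} (hc : ContDiff ℝ 2 x)
    (hx : ∀ θ, GoodPt σ D (x θ)) (h : ORing D) : ContDiff ℝ 2 fun θ => (hx θ).evA h := by
  have hxk : ∀ k, ContDiff ℝ 2 fun θ => x θ k := fun k => contDiff_pi.1 hc k
  have hmv : ∀ p : MvPolynomial (Fin d) K,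
      ContDiff ℝ 2 fun θ => MvPolynomial.eval₂Hom σ (x θ) p := by
    intro p
    induction p using MvPolynomial.induction_on with
    | C c => simpa using contDiff_const
    | add p q hp hq => simpa using hp.add hq
    | mul_X p k hp => simpa using hp.mul (hxk k)
  have hPhi : ContDiff ℝ 2 fun θ => PhiC σ D (x θ) := by
    have := hmv (Phi D)
    simpa only [eval_Phi] using this
  have hz : ContDiff ℝ 2 fun θ => zeta (PhiC σ D (x θ)) := by
    rw [contDiff_iff_contDiffAt]
    intro θ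
    exact ((contDiffAt_zeta (hx θ).lt).restrict_scalars ℝ).comp θ hPhi.contDiffAt
  have hB : ∀ b : CRing D, ContDiff ℝ 2 fun θ => (hx θ).evB b := by
    intro b
    obtain ⟨p, hp⟩ := AdjoinRoot.mk_surjective (g := eqn D) b
    have e : (fun θ => (hx θ).evB b) = fun θ =>
        ∑ i ∈ Finset.range (p.natDegree + 1), MvPolynomial.eval₂Hom σ (x θ) (p.coeff i) *
          (zeta (PhiC σ D (x θ))) ^ i := by
      funext θ
      rw [← hp, (hx θ).evB_mk, Polynomial.eval₂_eq_sum_range]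
    rw [e]
    exact ContDiff.sum fun i _ => (hmv _).mul (hz.pow i)
  obtain ⟨p, hp⟩ := AdjoinRoot.mk_surjective (g := eqnO D) h
  have e : (fun θ => (hx θ).evA h) = fun θ =>
      ∑ i ∈ Finset.range (p.natDegree + 1), (hx θ).evB (p.coeff i) *
        ((hx θ).evB (Del D))⁻¹ ^ i := by
    funext θ
    rw [← hp]
    unfold GoodPt.evA
    rw [liftO_mk, Polynomial.eval₂_eq_sum_range]
  rw [e]
  exact ContDiff.sum fun i _ => (hB _).mul
    (((hB _).inv fun θ => (hx θ).evB_del.ne_zero).pow i)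

end Ev

section Circ

/-- the point `R exp (2πiθ)` -/
noncomputable def circ (R : ℝ) (t : ℝ) : ℂ := R * Complex.exp (2 * Real.pi * Complex.I * t)

theorem norm_circ {R : ℝ} (hR : 0 ≤ R) (t : ℝ) : ‖circ R t‖ = R := by
  unfold circ
  rw [norm_mul, Complex.norm_exp]
  simp [abs_of_nonneg hR]

theorem circ_add_one (R t : ℝ) : circ R (t + 1) = circ R t := by
  unfold circ
  congr 1
  push_cast
  rw [mul_add, mul_one, Complex.exp_add, Complex.exp_two_pi_mul_I, mul_one]

theorem contDiff_circ (R : ℝ) {n : WithTop ℕ∞} : ContDiff ℝ n (circ R) := by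
  unfold circ
  apply ContDiff.mul contDiff_const
  apply ContDiff.cexp
  apply ContDiff.mul contDiff_const
  exact Complex.ofRealCLM.contDiff

theorem hasDerivAt_circ (R t : ℝ) :
    HasDerivAt (circ R) (2 * Real.pi * Complex.I * circ R t) t := by
  unfold circ
  have h0 : HasDerivAt (fun t : ℝ => (t : ℂ)) 1 t := by
    simpa using (hasDerivAt_id t).ofReal_comp
  have h1 := ((h0.const_mul (2 * Real.pi * Complex.I)).cexp).const_mul (R : ℂ)
  refine h1.congr_deriv ?_
  ring

variable {d : ℕ}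

/-- the point of the product of the circles of radii `R_k` with parameter `θ` -/
noncomputable def tpt (R : Fin d → ℝ) (θ : Fin d → ℝ) : Fin d → ℂ := fun k => circ (R k) (θ k)

theorem contDiff_tpt (R : Fin d → ℝ) {n : WithTop ℕ∞} : ContDiff ℝ n (tpt R) :=
  contDiff_pi.2 fun k => (contDiff_circ (R k)).comp (contDiff_apply ℝ ℝ k)

theorem tpt_add_single (R : Fin d → ℝ) (θ : Fin d → ℝ) (i : Fin d) :
    tpt R (θ + Pi.single i 1) = tpt R θ := by
  funext k
  unfold tpt
  by_cases h : k = i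
  · subst h
    rw [Pi.add_apply, Pi.single_eq_same, circ_add_one]
  · rw [Pi.add_apply, Pi.single_eq_of_ne h, add_zero]

end Circ

section Tori

variable {K : Type*} [Field K] {d : ℕ} {r : Fin d → ℕ} {σ : K →+* ℂ} {D : Data K r}

/-- The torus over the product of the circles `|x_k| = R_k` with `z` the large root of
`z² - Φ z + 1`. -/
noncomputable def mkTorus (R : Fin d → ℝ) (hx : ∀ θ, GoodPt σ D (tpt R θ)) :
    Torus (ORing D) d where
  e θ := (hx θ).evA
  smooth h := contDiff_evA (contDiff_tpt R) hx h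
  periodic θ i := GoodPt.evA_congr _ _ (tpt_add_single R θ i)

variable (R : Fin d → ℝ) (hx : ∀ θ, GoodPt σ D (tpt R θ))

theorem mkTorus_ux (k : Fin d) (i : Fin (r k + 1)) :
    (mkTorus R hx).fn (ux D k i : ORing D) = fun θ => circ (R k) (θ k) - σ (D.a k i) := by
  funext θ
  show (hx θ).evA (toO D (fx D k (D.a k i))) = _
  rw [(hx θ).evA_toO, (hx θ).evB_fx]
  rfl

theorem mkTorus_uz :
    (mkTorus R hx).fn (uz D : ORing D) = fun θ => zeta (PhiC σ D (tpt R θ)) := by
  funext θ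
  show (hx θ).evA (toO D (fz D)) = _
  rw [(hx θ).evA_toO, (hx θ).evB_fz]

end Tori

end Pool.Agent.TH826.MK
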